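import Mathlib

/-!
The last counting step of the arithmetic lemma.
-/

set_option autoImplicit false

namespace Pool.Agent.SmallDeg

theorem A3 (d D a1 a2 X B : ℕ) (h0 : 0 < d) (ha : Nat.Coprime a1 a2) (h1 : 0 < a1) (h2 : 0 < a2)
    (G : Finset ℕ)
    (hG : ∀ m ∈ G, ∃ m2 x y, a1 * m + a2 * m2 = d ∧ 0 < m2 ∧ D = x * m + y * m2 ∧ x ≤ X)
    (hB : ∀ n, 0 < n → n ≤ X * d + a1 * D → n.divisors.card ≤ B)
    (hc : (X + 1) * B < G.card) : d ∣ D := by
  classical
  -- the key identity
  have key : ∀ m m2 x y : ℕ, a1 * m + a2 * m2 = d → D = x * m + y * m2 →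
      (x : ℤ) * d - a1 * D = m2 * (a2 * x - a1 * y) := by
    intro m m2 x y e1 e2
    rw [e2, ← e1]
    push_cast
    ring
  by_cases hex : ∃ m ∈ G, ∃ m2 x y, a1 * m + a2 * m2 = d ∧ 0 < m2 ∧ D = x * m + y * m2 ∧
      x * d = a1 * D
  · obtain ⟨m, -, m2, x, y, e1, hm2, e2, e3⟩ := hex
    have h3 := key m m2 x y e1 e2
    have h4 : (m2 : ℤ) * (a2 * x - a1 * y) = 0 := by
      rw [← h3]
      have : ((x * d : ℕ) : ℤ) = ((a1 * D : ℕ) : ℤ) := by rw [e3]
      push_cast at this
      linarith
    have h5 : (a2 : ℤ) * x - a1 * y = 0 := by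
      rcases mul_eq_zero.1 h4 with h | h
      · exact absurd (Int.natCast_eq_zero.1 h) hm2.ne'
      · exact h
    have h6 : a2 * x = a1 * y := by
      have : (a2 : ℤ) * x = a1 * y := by linarith
      exact_mod_cast this
    have h7 : a1 ∣ x := ha.dvd_of_dvd_mul_left (Dvd.intro _ h6.symm)
    obtain ⟨x', rfl⟩ := h7
    refine ⟨x', ?_⟩
    have h8 : a1 * (x' * d) = a1 * D := by rw [← mul_assoc]; exact e3
    have h9 := Nat.eq_of_mul_eq_mul_left h1 h8
    rw [← h9, mul_comm]
  · exfalso
    push Not at hex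
    choose! m2 x y e1 hm2 e2 hx using hG
    have hne : ∀ m ∈ G, x m * d ≠ a1 * D := fun m hm =>
      hex m hm (m2 m) (x m) (y m) (e1 m hm) (hm2 m hm) (e2 m hm)
    let S : Finset (Σ _ : ℕ, ℕ) := (Finset.range (X + 1)).sigma fun t =>
      if (t * d = a1 * D) then ∅ else ((t : ℤ) * d - a1 * D).natAbs.divisors
    have hS : S.card ≤ (X + 1) * B := by
      rw [Finset.card_sigma]
      refine (Finset.sum_le_card_nsmul _ _ B fun t ht => ?_).trans ?_
      · split_ifs with h
        · simp
        · refine hB _ ?_ ?_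
          · refine Int.natAbs_pos.2 fun h' => h ?_
            have : (t : ℤ) * d = a1 * D := by linarith
            exact_mod_cast this
          · have ht' : t ≤ X := Nat.lt_succ_iff.1 (Finset.mem_range.1 ht)
            have h1' : ((t : ℤ) * d - a1 * D).natAbs ≤ t * d + a1 * D := by
              have hA : (0 : ℤ) ≤ (t : ℤ) * d := by positivity
              have hB' : (0 : ℤ) ≤ (a1 : ℤ) * D := by positivity
              zify
              rw [abs_le]
              constructor <;> linarith
            exact h1'.trans (Nat.add_le_add_right (Nat.mul_le_mul_right d ht') _)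
      · rw [Finset.card_range, smul_eq_mul]
    have hinj : Set.InjOn (fun m => (⟨x m, m2 m⟩ : Σ _ : ℕ, ℕ)) G := by
      intro m hm m' hm' h
      simp only [Sigma.mk.injEq, heq_eq_eq] at h
      have e := e1 m hm
      have e' := e1 m' hm'
      rw [h.2] at e
      have : a1 * m = a1 * m' := by omega
      exact Nat.eq_of_mul_eq_mul_left h1 this
    have hmaps : ∀ m ∈ G, (⟨x m, m2 m⟩ : Σ _ : ℕ, ℕ) ∈ S := by
      intro m hm
      refine Finset.mem_sigma.2 ⟨Finset.mem_range.2 (Nat.lt_succ_of_le (hx m hm)), ?_⟩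
      simp only
      rw [if_neg (hne m hm)]
      refine Nat.mem_divisors.2 ⟨?_, ?_⟩
      · have := key m (m2 m) (x m) (y m) (e1 m hm) (e2 m hm)
        rw [this, Int.natAbs_mul, Int.natAbs_natCast]
        exact Dvd.intro _ rfl
      · intro h'
        have h'' := Int.natAbs_eq_zero.1 h'
        apply hne m hm
        have : (x m : ℤ) * d = a1 * D := by linarith
        exact_mod_cast this
    have := Finset.card_le_card_of_injOn _ hmaps hinj
    omega

end Pool.Agent.SmallDeg
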