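import Pool.Agent.SmallDeg.BadCount

/-!
The arithmetic without `ε`.
-/

set_option autoImplicit false

namespace Pool.Agent.SmallDeg

open Finset Pool.Agent.SmallProd54

lemma dens_good (d : ℕ) (hd : d ≠ 0) (P : Finset ℕ) (hP : ∀ p ∈ P, p.Prime ∧ p ≠ 2)
    (R : ℕ → Finset ℕ) (hR1 : ∀ q ∈ insert 2 (d.primeFactors ∪ P), q ∉ P → (R q).card ≤ 1)
    (hR2 : ∀ q ∈ P, (R q).card ≤ 2) :
    (Nat.totient d / d : ℝ) * (1 / 2) * ∏ q ∈ P, (1 - (2 : ℝ) / q) ≤
      SmallProd54.dens R (insert 2 (d.primeFactors ∪ P)) := by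
  classical
  set Q := insert 2 (d.primeFactors ∪ P) with hQ
  have hQp : ∀ q ∈ Q, q.Prime := by
    intro q hq
    rw [hQ, mem_insert, mem_union] at hq
    rcases hq with rfl | hq | hq
    · exact Nat.prime_two
    · exact Nat.prime_of_mem_primeFactors hq
    · exact (hP q hq).1
  let g1 : ℕ → ℝ := fun q => 1 - 1 / q
  let g2 : ℕ → ℝ := fun _ => 1 / 2
  let g3 : ℕ → ℝ := fun q => 1 - 2 / q
  have e1 : (Nat.totient d / d : ℝ) = ∏ q ∈ Q, (if q ∈ d.primeFactors then g1 q else 1) := by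
    rw [Finset.prod_ite_mem]
    have h1 : Q ∩ d.primeFactors = d.primeFactors := by
      refine Finset.inter_eq_right.2 fun q hq => ?_
      rw [hQ]
      exact mem_insert_of_mem (mem_union_left _ hq)
    rw [h1]
    have h2 := dens_zero d
    have h3 : (d : ℝ) ≠ 0 := by exact_mod_cast hd
    rw [div_eq_iff h3, ← h2, mul_comm, SmallProd54.dens]
    congr 1
    refine Finset.prod_congr rfl fun q _ => ?_
    rw [card_singleton, Nat.cast_one]
  have e2 : (1 / 2 : ℝ) = ∏ q ∈ Q, (if q ∈ ({2} : Finset ℕ) then g2 q else 1) := by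
    rw [Finset.prod_ite_mem]
    have h1 : Q ∩ {2} = {2} := by
      refine Finset.inter_eq_right.2 fun q hq => ?_
      rw [hQ, mem_singleton.1 hq]
      exact mem_insert_self _ _
    rw [h1, prod_singleton]
  have e3 : ∏ q ∈ P, (1 - (2 : ℝ) / q) = ∏ q ∈ Q, (if q ∈ P then g3 q else 1) := by
    rw [Finset.prod_ite_mem]
    have h1 : Q ∩ P = P := by
      refine Finset.inter_eq_right.2 fun q hq => ?_
      rw [hQ]
      exact mem_insert_of_mem (mem_union_right _ hq)
    rw [h1]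
  rw [e1, e2, e3, ← Finset.prod_mul_distrib, ← Finset.prod_mul_distrib, SmallProd54.dens]
  have hq2 : ∀ q ∈ Q, (2 : ℝ) ≤ q := fun q hq => by exact_mod_cast (hQp q hq).two_le
  have a1 : ∀ q ∈ Q, 0 ≤ (if q ∈ d.primeFactors then g1 q else 1) ∧
      (if q ∈ d.primeFactors then g1 q else 1) ≤ 1 := by
    intro q hq
    have h2 := hq2 q hq
    have h3 : (1 : ℝ) / q ≤ 1 := by rw [div_le_one (by linarith)]; linarith
    have h4 : (0 : ℝ) ≤ 1 / q := by positivity
    by_cases hqd : q ∈ d.primeFactors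
    · rw [if_pos hqd]
      exact ⟨by simp only [g1]; linarith, by simp only [g1]; linarith⟩
    · rw [if_neg hqd]
      exact ⟨zero_le_one, le_rfl⟩
  refine Finset.prod_le_prod (fun q hq => ?_) fun q hq => ?_
  · refine mul_nonneg (mul_nonneg (a1 q hq).1 ?_) ?_
    · by_cases h2 : q ∈ ({2} : Finset ℕ)
      · rw [if_pos h2]; simp only [g2]; norm_num
      · rw [if_neg h2]; exact zero_le_one
    · by_cases h2 : q ∈ P
      · rw [if_pos h2]
        have h3 : (2 : ℝ) / q ≤ 1 := by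
          have := hq2 q hq
          rw [div_le_one (by linarith)]; linarith
        simp only [g3]; linarith
      · rw [if_neg h2]; exact zero_le_one
  · have hqr := hq2 q hq
    have hq0 : (0 : ℝ) < q := by linarith
    by_cases hqP : q ∈ P
    · have hq2' : q ∉ ({2} : Finset ℕ) := fun h => (hP q hqP).2 (mem_singleton.1 h)
      rw [if_neg hq2', if_pos hqP, mul_one]
      have h1 : ((R q).card : ℝ) ≤ 2 := by exact_mod_cast hR2 q hqP
      have h2 : ((R q).card : ℝ) / q ≤ 2 / q := by gcongr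
      have h3 : (2 : ℝ) / q ≤ 1 := by rw [div_le_one hq0]; exact hqr
      have h4 : 0 ≤ g3 q := by simp only [g3]; linarith
      calc (if q ∈ d.primeFactors then g1 q else 1) * g3 q ≤ 1 * g3 q :=
            mul_le_mul_of_nonneg_right (a1 q hq).2 h4
        _ = 1 - 2 / q := one_mul _
        _ ≤ _ := by linarith
    · rw [if_neg hqP, mul_one]
      have h1 : ((R q).card : ℝ) ≤ 1 := by exact_mod_cast hR1 q hq hqP
      have h2 : ((R q).card : ℝ) / q ≤ 1 / q := by gcongr
      by_cases hq2' : q ∈ ({2} : Finset ℕ)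
      · rw [if_pos hq2']
        have h3 : q = 2 := mem_singleton.1 hq2'
        have h4 : (1 : ℝ) / q = 1 / 2 := by rw [h3]; norm_num
        calc (if q ∈ d.primeFactors then g1 q else 1) * g2 q ≤ 1 * g2 q :=
              mul_le_mul_of_nonneg_right (a1 q hq).2 (by simp only [g2]; norm_num)
          _ = 1 - 1 / 2 := by simp only [g2]; norm_num
          _ ≤ _ := by rw [h4] at h2; linarith
      · rw [if_neg hq2', mul_one]
        have hqd : q ∈ d.primeFactors := by
          rw [hQ, mem_insert, mem_union] at hq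
          rcases hq with h | h | h
          · exact absurd (mem_singleton.2 h) hq2'
          · exact h
          · exact absurd h hqP
        rw [if_pos hqd]
        simp only [g1]
        linarith

/-- **The good numbers.** -/
theorem good_count (s : ℕ) : ∃ (δ : ℝ) (d₀ : ℕ), 0 < δ ∧ ∀ (d a : ℕ) (P : Finset ℕ), d₀ ≤ d →
    (a = 1 ∨ a = 2) → Odd (a + d) → (∀ p ∈ P, p.Prime ∧ p ≠ 2) → P.card ≤ s →
    ∃ T : Finset ℕ, δ * Nat.totient d ≤ T.card ∧ ∀ t ∈ T, t < d ∧ Nat.Coprime t d ∧ Odd t ∧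
      d ≤ 8 * t ∧ ∃ μ, a * t + μ = d ∧ d ≤ 8 * μ ∧ Odd μ ∧ ∀ p ∈ P, ¬ p ∣ t ∧ ¬ p ∣ μ := by
  classical
  obtain ⟨C, hC, hsm⟩ := pow_omega_small
  have hC0 : 0 < C := by linarith
  set δ₁ : ℝ := 1 / (((s : ℝ) + 1) * (s + 2)) with hδ₁
  have hδ₁0 : 0 < δ₁ := by positivity
  set Y : ℝ := 16 * (5 ^ (s + 1) * C) / δ₁ with hY
  have hY0 : 0 < Y := by positivity
  obtain ⟨d₁, hd₁⟩ := exists_nat_ge (Y ^ 2)
  refine ⟨δ₁ / 16, d₁ + 8, by positivity, fun d a P hd ha hodd hP hPs => ?_⟩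
  have hd8 : 8 ≤ d := by omega
  have hd0 : d ≠ 0 := by omega
  have hdr : (0 : ℝ) < d := by exact_mod_cast Nat.pos_of_ne_zero hd0
  have hacop : ∀ q ∈ P, Nat.Coprime a q := by
    intro q hq
    rcases ha with rfl | rfl
    · exact Nat.coprime_one_left _
    · exact (Nat.coprime_primes Nat.prime_two (hP q hq).1).2 (fun h => (hP q hq).2 h.symm)
  set Q := insert 2 (d.primeFactors ∪ P) with hQ
  have hQp : ∀ q ∈ Q, q.Prime := by
    intro q hq
    rw [hQ, mem_insert, mem_union] at hq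
    rcases hq with rfl | hq | hq
    · exact Nat.prime_two
    · exact Nat.prime_of_mem_primeFactors hq
    · exact (hP q hq).1
  set R : ℕ → Finset ℕ := fun q => (range q).filter
    (fun ρ => ρ = 0 ∨ (q ∈ P ∧ (a * ρ) % q = d % q)) with hR
  have hR1 : ∀ q ∈ Q, q ∉ P → (R q).card ≤ 1 := by
    intro q _ hqP
    have hsub : R q ⊆ {0} := by
      intro ρ hρ
      rw [hR, mem_filter] at hρ
      rcases hρ.2 with h | h
      · exact mem_singleton.2 h
      · exact absurd h.1 hqP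
    exact (card_le_card hsub).trans (by rw [card_singleton])
  have hR2 : ∀ q ∈ P, (R q).card ≤ 2 := by
    intro q hq
    have hq0 : 0 < q := (hP q hq).1.pos
    obtain ⟨ρ0, hρ0, hρ0'⟩ : ∃ ρ0, ρ0 < q ∧ (a * ρ0) % q = d % q := by
      haveI : NeZero q := ⟨hq0.ne'⟩
      obtain ⟨u, hu⟩ := (ZMod.isUnit_iff_coprime a q).2 (hacop q hq)
      refine ⟨((u⁻¹ : (ZMod q)ˣ) * (d : ZMod q) : ZMod q).val, ZMod.val_lt _, ?_⟩
      have h1 : ((a * ((u⁻¹ : (ZMod q)ˣ) * (d : ZMod q) : ZMod q).val : ℕ) : ZMod q) =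
          (d : ZMod q) := by
        push_cast
        rw [ZMod.natCast_zmod_val, ← hu, ← mul_assoc, Units.mul_inv, one_mul]
      exact (ZMod.natCast_eq_natCast_iff _ _ _).1 h1
    have hsub : R q ⊆ {0, ρ0} := by
      intro ρ hρ
      rw [hR, mem_filter, mem_range] at hρ
      rw [mem_insert, mem_singleton]
      rcases hρ.2 with h | ⟨_, h⟩
      · exact Or.inl h
      · right
        have h3 : a * ρ ≡ a * ρ0 [MOD q] := by
          show (a * ρ) % q = (a * ρ0) % q
          rw [h, hρ0']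
        have h4 : ρ ≡ ρ0 [MOD q] := Nat.ModEq.cancel_left_of_coprime
          (Nat.coprime_comm.mp (hacop q hq)) h3
        exact Nat.ModEq.eq_of_lt_of_lt h4 hρ.1 hρ0
    exact (card_le_card hsub).trans card_le_two
  have hRle2 : ∀ q ∈ Q, (R q).card ≤ 2 := by
    intro q hq
    by_cases hqP : q ∈ P
    · exact hR2 q hqP
    · exact (hR1 q hq hqP).trans (by norm_num)
  have hRq : ∀ q ∈ Q, (R q).card ≤ q := fun q hq =>
    (hRle2 q hq).trans (hQp q hq).two_le
  have hRlt : ∀ q ∈ Q, ∀ ρ ∈ R q, ρ < q := by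
    intro q _ ρ hρ
    rw [hR, mem_filter, mem_range] at hρ
    exact hρ.1
  set c₀ := d / 8 + 1 with hc₀
  set T₀ := d / 4 with hT₀
  have hb := cnt_bound2 R Q hQp hRle2 hRq hRlt c₀ 1 T₀ (fun q _ => Nat.coprime_one_left q)
  have hdens := dens_good d hd0 P hP R hR1 hR2
  rw [← hQ] at hdens
  have hprod : 2 * δ₁ ≤ ∏ q ∈ P, (1 - (2 : ℝ) / q) := by
    have h1 := (prod_lower P (fun q hq => by
      have h2 := (hP q hq).1.two_le
      have h3 := (hP q hq).2
      omega)).1
    refine le_trans ?_ h1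
    have h2 : (P.card : ℝ) ≤ s := by exact_mod_cast hPs
    rw [hδ₁, mul_one_div]
    gcongr
  have hφ : (0 : ℝ) ≤ Nat.totient d := Nat.cast_nonneg _
  have hdens2 : (Nat.totient d / d : ℝ) * δ₁ ≤ SmallProd54.dens R Q := by
    refine le_trans ?_ hdens
    calc (Nat.totient d / d : ℝ) * δ₁ = (Nat.totient d / d : ℝ) * (1 / 2) * (2 * δ₁) := by ring
      _ ≤ _ := by gcongr
  have hT₀r : (d : ℝ) / 8 ≤ T₀ := by
    have h1 : d ≤ 8 * T₀ := by omega
    have h2 : (d : ℝ) ≤ 8 * T₀ := by exact_mod_cast h1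
    linarith
  have hmain : δ₁ / 8 * Nat.totient d ≤ T₀ * SmallProd54.dens R Q := by
    calc δ₁ / 8 * Nat.totient d = (d : ℝ) / 8 * ((Nat.totient d / d : ℝ) * δ₁) := by
          field_simp
      _ ≤ T₀ * SmallProd54.dens R Q := by gcongr
  have hQcard : Q.card ≤ d.primeFactors.card + (s + 1) := by
    rw [hQ]
    refine (card_insert_le _ _).trans ?_
    have := card_union_le d.primeFactors P
    omega
  have herr : (5 : ℝ) ^ Q.card ≤ δ₁ / 16 * Nat.totient d := by
    have h1 : (5 : ℝ) ^ Q.card ≤ 5 ^ (d.primeFactors.card + (s + 1)) :=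
      pow_le_pow_right₀ (by norm_num) hQcard
    rw [pow_add] at h1
    have h2 := hsm d hd0
    have h3 : Y ≤ (d : ℝ) ^ (1 / 2 : ℝ) := by
      have h4 : Y ^ 2 ≤ d := hd₁.trans (by exact_mod_cast (by omega : d₁ ≤ d))
      calc Y = (Y ^ 2) ^ (1 / 2 : ℝ) := by
            rw [← Real.sqrt_eq_rpow, Real.sqrt_sq hY0.le]
        _ ≤ (d : ℝ) ^ (1 / 2 : ℝ) := Real.rpow_le_rpow (by positivity) h4 (by norm_num)
    have h4 : (d : ℝ) ^ (-(1 / 2 : ℝ)) ≤ Y⁻¹ := by
      rw [Real.rpow_neg hdr.le]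
      exact inv_anti₀ hY0 h3
    calc (5 : ℝ) ^ Q.card ≤ 5 ^ d.primeFactors.card * 5 ^ (s + 1) := h1
      _ ≤ (C * Nat.totient d * (d : ℝ) ^ (-(1 / 2 : ℝ))) * 5 ^ (s + 1) := by gcongr
      _ ≤ (C * Nat.totient d * Y⁻¹) * 5 ^ (s + 1) := by gcongr
      _ = δ₁ / 16 * Nat.totient d := by
          rw [hY]
          field_simp
  have hcnt : δ₁ / 16 * Nat.totient d ≤ (cnt R Q c₀ 1 T₀ : ℝ) := by
    rw [abs_le] at hb
    have h1 : δ₁ / 16 * (Nat.totient d : ℝ) = δ₁ / 8 * Nat.totient d - δ₁ / 16 * Nat.totient d := by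
      ring
    rw [h1]
    linarith [hb.1]
  refine ⟨((range T₀).filter (fun j => ∀ q ∈ Q, (c₀ + 1 * j) % q ∉ R q)).image (fun j => c₀ + j),
    ?_, fun t ht => ?_⟩
  · rw [Finset.card_image_of_injective _ (fun x y hxy => Nat.add_left_cancel hxy)]
    exact hcnt
  · rw [mem_image] at ht
    obtain ⟨j, hj, rfl⟩ := ht
    rw [mem_filter, mem_range] at hj
    obtain ⟨hjT, hjQ⟩ := hj
    rw [one_mul] at hjQ
    have hle1 : c₀ + j ≤ d / 8 + d / 4 := by omega
    have h2Q : 2 ∈ Q := by rw [hQ]; exact mem_insert_self _ _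
    have hzero : ∀ q ∈ Q, ¬ q ∣ c₀ + j := by
      intro q hq hdvd
      apply hjQ q hq
      rw [hR, mem_filter, mem_range]
      have h1 := Nat.mod_eq_zero_of_dvd hdvd
      rw [h1]
      exact ⟨(hQp q hq).pos, Or.inl rfl⟩
    have hoddt : Odd (c₀ + j) := by
      rw [← Nat.not_even_iff_odd, even_iff_two_dvd]
      exact hzero 2 h2Q
    have hat : a * (c₀ + j) ≤ 2 * (c₀ + j) := by
      rcases ha with rfl | rfl <;> omega
    have hle2 : a * (c₀ + j) ≤ d := by omega
    refine ⟨by omega, ?_, hoddt, by omega, d - a * (c₀ + j), by omega, by omega, ?_, ?_⟩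
    · refine Nat.coprime_of_dvd fun q hq hq1 hq2 => ?_
      refine hzero q ?_ hq1
      rw [hQ]
      exact mem_insert_of_mem (mem_union_left _ (Nat.mem_primeFactors.2 ⟨hq, hq2, hd0⟩))
    · obtain ⟨x, hx⟩ := hoddt
      obtain ⟨y, hy⟩ := hodd
      rcases ha with ha | ha
      · subst ha
        rw [one_mul] at hle2 ⊢
        exact ⟨y - x - 1, by omega⟩
      · subst ha
        exact ⟨y - (c₀ + j) - 1, by omega⟩
    · intro p hp
      have hpQ : p ∈ Q := by rw [hQ]; exact mem_insert_of_mem (mem_union_right _ hp)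
      refine ⟨hzero p hpQ, fun hdvd => ?_⟩
      apply hjQ p hpQ
      rw [hR, mem_filter, mem_range]
      refine ⟨Nat.mod_lt _ (hP p hp).1.pos, Or.inr ⟨hp, ?_⟩⟩
      have h1 : a * (c₀ + j) ≡ d [MOD p] := (Nat.modEq_iff_dvd' hle2).2 hdvd
      have h2 : a * ((c₀ + j) % p) ≡ a * (c₀ + j) [MOD p] :=
        Nat.ModEq.mul_left a (Nat.mod_modEq _ _)
      exact h2.trans h1

/-- **The arithmetic.** -/
theorem al2 (s : ℕ) : ∃ (C : ℕ) (η : ℝ), 0 < C ∧ 0 < η ∧ ∀ (d : ℕ) (P E : Finset ℕ) (D : ℕ),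
    C ≤ d → (∀ p ∈ P, p.Prime ∧ p ≠ 2) → P.card ≤ s → (E.card : ℝ) ≤ η * Nat.totient d →
    C * D < d ^ 2 →
    (∀ a t μ : ℕ, (a = 1 ∨ a = 2) → a * t + μ = d → d ≤ 8 * t → d ≤ 8 * μ → Odd t → Odd μ →
      (∀ p ∈ P, ¬ p ∣ t ∧ ¬ p ∣ μ) → t ∉ E → μ ∉ E → ∃ x y : ℕ, D = x * t + y * μ) → d ∣ D := by
  classical
  obtain ⟨δ, d₀, hδ, hgood⟩ := good_count s
  obtain ⟨κ, hκ0, hκ1, hbad⟩ := bad_count (δ / 8) (by positivity)
  obtain ⟨K, hK⟩ := exists_nat_ge (16 / κ)
  refine ⟨d₀ + K + 1, δ / 8, by omega, by positivity, ?_⟩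
  intro d P E D hd hP hPs hE hD hU
  obtain ⟨a, ha, hodd⟩ : ∃ a : ℕ, (a = 1 ∨ a = 2) ∧ Odd (a + d) := by
    rcases Nat.even_or_odd d with h | h
    · exact ⟨1, Or.inl rfl, odd_one.add_even h⟩
    · exact ⟨2, Or.inr rfl, even_two.add_odd h⟩
  have hd1 : 0 < d := by omega
  have hdr : (0 : ℝ) < d := by exact_mod_cast hd1
  have hφ : (0 : ℝ) < Nat.totient d := by exact_mod_cast Nat.totient_pos.2 hd1
  obtain ⟨T, hTcard, hT⟩ := hgood d a P (by omega) ha hodd hP hPs
  by_contra hnot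
  -- the exceptional elements of `T`
  set T₁ := T.filter (fun t => t ∉ E ∧ d - a * t ∉ E) with hT₁
  have hcard1 : (T.card : ℝ) ≤ T₁.card + 2 * E.card := by
    have h1 : T ⊆ T₁ ∪ (E ∪ T.filter (fun t => d - a * t ∈ E)) := by
      intro t ht
      rw [mem_union, mem_union]
      by_cases h2 : t ∈ E
      · exact Or.inr (Or.inl h2)
      · by_cases h3 : d - a * t ∈ E
        · exact Or.inr (Or.inr (mem_filter.2 ⟨ht, h3⟩))
        · exact Or.inl (mem_filter.2 ⟨ht, h2, h3⟩)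
    have h2 : (T.filter (fun t => d - a * t ∈ E)).card ≤ E.card := by
      refine card_le_card_of_injOn (fun t => d - a * t) (fun t ht => ?_) fun t ht t' ht' htt => ?_
      · exact (mem_filter.1 ht).2
      · obtain ⟨_, _, _, _, μ, h3, _⟩ := hT t (mem_filter.1 ht).1
        obtain ⟨_, _, _, _, μ', h4, _⟩ := hT t' (mem_filter.1 ht').1
        have h5 : d - a * t = d - a * t' := htt
        have h6 : a * t = a * t' := by omega
        exact Nat.eq_of_mul_eq_mul_left (by rcases ha with rfl | rfl <;> norm_num) h6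
    have h3 := card_le_card h1
    have h4 := card_union_le T₁ (E ∪ T.filter (fun t => d - a * t ∈ E))
    have h5 := card_union_le E (T.filter (fun t => d - a * t ∈ E))
    have h6 : T.card ≤ T₁.card + 2 * E.card := by omega
    exact_mod_cast h6
  have hcard2 : (T₁.card : ℝ) ≤ 2 * (δ / 8) * Nat.totient d := by
    refine hbad d D T₁ hd1 fun t ht => ?_
    obtain ⟨htT, htE, htE'⟩ := mem_filter.1 ht
    obtain ⟨h1, h2, h3, h4, μ, h5, h6, h7, h8⟩ := hT t htT
    refine ⟨h1, h2, ?_⟩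
    have hμ : d - a * t = μ := by omega
    rw [hμ] at htE'
    obtain ⟨x, y, hxy⟩ := hU a t μ ha h5 h4 h6 h3 h7 h8 htE htE'
    refine ⟨(a : ℤ) * y - x, ?_, ?_, ?_⟩
    · intro h0
      apply hnot
      have h9 : x = a * y := by
        have : (x : ℤ) = a * y := by linarith
        exact_mod_cast this
      refine ⟨y, ?_⟩
      rw [hxy, h9, ← h5]
      ring
    · have ha2 : a ≤ 2 := by rcases ha with rfl | rfl <;> norm_num
      have h9 : ((a : ℤ) * y - x).natAbs ≤ max (a * y) x := by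
        have h10 : ((a : ℤ) * y - x) = ((a * y : ℕ) : ℤ) - (x : ℤ) := by push_cast; ring
        rw [h10]
        omega
      have h10 : d * max (a * y) x ≤ 16 * D := by
        have h11 : d * x ≤ 16 * D := by
          calc d * x ≤ 8 * t * x := Nat.mul_le_mul_right _ h4
            _ = 8 * (x * t) := by ring
            _ ≤ 16 * D := by
                have : x * t ≤ D := by rw [hxy]; exact Nat.le_add_right _ _
                omega
        have h12 : d * (a * y) ≤ 16 * D := by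
          calc d * (a * y) ≤ 8 * μ * (2 * y) :=
                Nat.mul_le_mul h6 (Nat.mul_le_mul_right _ ha2)
            _ = 16 * (y * μ) := by ring
            _ ≤ 16 * D := by
                have : y * μ ≤ D := by rw [hxy]; exact Nat.le_add_left _ _
                omega
        rcases le_total (a * y) x with h13 | h13
        · rw [max_eq_right h13]; exact h11
        · rw [max_eq_left h13]; exact h12
      have h13 : d * ((a : ℤ) * y - x).natAbs ≤ 16 * D := (Nat.mul_le_mul_left d h9).trans h10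
      have h14 : (d : ℝ) * (((a : ℤ) * y - x).natAbs : ℝ) ≤ 16 * D := by exact_mod_cast h13
      have h15 : ((d₀ + K + 1 : ℕ) : ℝ) * D ≤ (d : ℝ) ^ 2 := by
        have : (d₀ + K + 1) * D ≤ d ^ 2 := hD.le
        exact_mod_cast this
      have h16 : 16 / κ ≤ ((d₀ + K + 1 : ℕ) : ℝ) := by
        push_cast
        have : (0 : ℝ) ≤ d₀ := Nat.cast_nonneg _
        linarith
      have h17 : 16 / κ * D ≤ (d : ℝ) ^ 2 := (mul_le_mul_of_nonneg_right h16
        (Nat.cast_nonneg D)).trans h15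
      have h18 : 16 * (D : ℝ) ≤ κ * (d : ℝ) ^ 2 := by
        rw [div_mul_eq_mul_div, div_le_iff₀ hκ0] at h17
        linarith
      refine le_of_mul_le_mul_left ?_ hdr
      calc (d : ℝ) * (((a : ℤ) * y - x).natAbs : ℝ) ≤ 16 * D := h14
        _ ≤ κ * (d : ℝ) ^ 2 := h18
        _ = d * (κ * d) := by ring
    · refine ⟨y, ?_⟩
      have h9 : (D : ℤ) = x * t + y * μ := by exact_mod_cast hxy
      have h10 : (d : ℤ) = a * t + μ := by exact_mod_cast h5.symm
      rw [h9, h10]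
      ring
  have h1 : δ * Nat.totient d ≤ δ / 4 * Nat.totient d + 2 * (δ / 8 * Nat.totient d) := by
    calc δ * Nat.totient d ≤ T.card := hTcard
      _ ≤ T₁.card + 2 * E.card := hcard1
      _ ≤ 2 * (δ / 8) * Nat.totient d + 2 * (δ / 8 * Nat.totient d) := by linarith
      _ = _ := by ring
  have h2 : 0 < δ * Nat.totient d := mul_pos hδ hφ
  linarith

end Pool.Agent.SmallDeg
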