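import Mathlib

/-!
The arithmetic: a number `D` which is small compared with `d ^ 2` and lies in the semigroups
generated by `m₁` and `m₂` for all decompositions `a₁ m₁ + a₂ m₂ = d`.
-/

set_option autoImplicit false

namespace Pool.Agent.SmallDeg

/-- `D` is in all the semigroups of the decompositions of `d`. -/
def InSemi (c d D : ℕ) : Prop :=
  ∀ a₁ a₂ m₁ m₂ : ℕ, c ≤ a₁ → c ≤ a₂ → 0 < m₁ → 0 < m₂ → a₁ * m₁ + a₂ * m₂ = d →
    ∃ x y : ℕ, D = x * m₁ + y * m₂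

/-- The integer version. -/
lemma InSemi.int {c d D : ℕ} (h : InSemi c d D) {a₁ a₂ : ℕ} {m₁ m₂ : ℤ} (ha₁ : c ≤ a₁)
    (ha₂ : c ≤ a₂) (hm₁ : 0 < m₁) (hm₂ : 0 < m₂) (hd : (a₁ : ℤ) * m₁ + a₂ * m₂ = d) :
    ∃ x y : ℤ, 0 ≤ x ∧ 0 ≤ y ∧ (D : ℤ) = x * m₁ + y * m₂ := by
  obtain ⟨k₁, rfl⟩ := Int.eq_ofNat_of_zero_le hm₁.le
  obtain ⟨k₂, rfl⟩ := Int.eq_ofNat_of_zero_le hm₂.le
  obtain ⟨x, y, hxy⟩ := h a₁ a₂ k₁ k₂ ha₁ ha₂ (by exact_mod_cast hm₁) (by exact_mod_cast hm₂)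
    (by exact_mod_cast hd)
  exact ⟨x, y, by positivity, by positivity, by exact_mod_cast hxy⟩

/-- Step 1: the near diagonal decomposition. -/
lemma step_one {c d D : ℕ} (hc : 1 ≤ c) (hd : 2 * c * (c + 1) ≤ d) (h : InSemi c d D) :
    ∃ w κ : ℤ, 0 ≤ w ∧ (2 * c + 1 : ℤ) * D = w * d + κ ∧ w * d ≤ 4 * (2 * c + 1) * D ∧
      |κ| * d ≤ 2 * (2 * c + 1) * c * (c + 1) * D := by
  have hb : (0 : ℤ) < 2 * c + 1 := by positivity
  have hc' : (1 : ℤ) ≤ c := by exact_mod_cast hc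
  have hd' : (2 * c * (c + 1) : ℤ) ≤ d := by exact_mod_cast hd
  obtain ⟨t, ht⟩ : ∃ t : ℤ, |2 * (d : ℤ) - (2 * c + 1) * t| ≤ c := by
    have h1 := Int.emod_nonneg (2 * (d : ℤ)) hb.ne'
    have h2 := Int.emod_lt_of_pos (2 * (d : ℤ)) hb
    have h3 := Int.emod_add_mul_ediv (2 * (d : ℤ)) (2 * c + 1)
    by_cases hr : (2 * (d : ℤ)) % (2 * c + 1) ≤ c
    · refine ⟨(2 * (d : ℤ)) / (2 * c + 1), ?_⟩
      rw [abs_le]
      constructor <;> linarith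
    · refine ⟨(2 * (d : ℤ)) / (2 * c + 1) + 1, ?_⟩
      rw [abs_le]
      constructor <;> nlinarith
  obtain ⟨ht1, ht2⟩ := abs_le.1 ht
  set m₁ : ℤ := (c + 1) * t - d with hm₁
  set m₂ : ℤ := d - c * t with hm₂
  have hdiff : m₂ - m₁ = 2 * (d : ℤ) - (2 * c + 1) * t := by rw [hm₁, hm₂]; ring
  have hb1 : (d : ℤ) ≤ 2 * (2 * c + 1) * m₁ := by
    have h1 : (2 * c + 1) * m₁ = d - (c + 1) * (2 * (d : ℤ) - (2 * c + 1) * t) := by
      rw [hm₁]; ring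
    have h2 : (c + 1) * (2 * (d : ℤ) - (2 * c + 1) * t) ≤ (c + 1) * c :=
      mul_le_mul_of_nonneg_left ht2 (by positivity)
    nlinarith
  have hb2 : (d : ℤ) ≤ 2 * (2 * c + 1) * m₂ := by
    have h1 : (2 * c + 1) * m₂ = d + c * (2 * (d : ℤ) - (2 * c + 1) * t) := by
      rw [hm₂]; ring
    have h2 : c * (-(c : ℤ)) ≤ c * (2 * (d : ℤ) - (2 * c + 1) * t) :=
      mul_le_mul_of_nonneg_left ht1 (by positivity)
    nlinarith
  have hdpos : (0 : ℤ) < d := lt_of_lt_of_le (by positivity) hd'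
  have hm₁0 : 0 < m₁ := by
    by_contra hc0
    push Not at hc0
    nlinarith
  have hm₂0 : 0 < m₂ := by
    by_contra hc0
    push Not at hc0
    nlinarith
  obtain ⟨x, y, hx, hy, hxy⟩ := h.int (a₁ := c) (a₂ := c + 1) le_rfl (Nat.le_succ c) hm₁0 hm₂0
    (by rw [hm₁, hm₂]; push_cast; ring)
  have hxd : x * d ≤ 2 * (2 * c + 1) * D := by
    have h1 : x * d ≤ x * (2 * (2 * c + 1) * m₁) := mul_le_mul_of_nonneg_left hb1 hx
    have h2 : 0 ≤ y * m₂ := mul_nonneg hy hm₂0.le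
    have h3 : x * m₁ ≤ D := by linarith
    have h4 : 2 * (2 * c + 1) * (x * m₁) ≤ 2 * (2 * c + 1) * (D : ℤ) :=
      mul_le_mul_of_nonneg_left h3 (by positivity)
    nlinarith
  have hyd : y * d ≤ 2 * (2 * c + 1) * D := by
    have h1 : y * d ≤ y * (2 * (2 * c + 1) * m₂) := mul_le_mul_of_nonneg_left hb2 hy
    have h2 : 0 ≤ x * m₁ := mul_nonneg hx hm₁0.le
    have h3 : y * m₂ ≤ D := by linarith
    have h4 : 2 * (2 * c + 1) * (y * m₂) ≤ 2 * (2 * c + 1) * (D : ℤ) :=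
      mul_le_mul_of_nonneg_left h3 (by positivity)
    nlinarith
  refine ⟨x + y, (m₂ - m₁) * (c * y - (c + 1) * x), add_nonneg hx hy, ?_, ?_, ?_⟩
  · rw [hxy, hm₁, hm₂]; ring
  · nlinarith
  · rw [abs_mul, hdiff]
    have h1 : |(c : ℤ) * y - (c + 1) * x| * d ≤ (c + 1) * (2 * (2 * c + 1) * D) := by
      have h2 : |(c : ℤ) * y - (c + 1) * x| * d = |((c : ℤ) * y - (c + 1) * x) * d| := by
        rw [abs_mul, abs_of_pos hdpos]
      rw [h2, abs_le]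
      have hD0 : (0 : ℤ) ≤ 2 * (2 * c + 1) * D := by positivity
      have hxd0 : 0 ≤ x * d := mul_nonneg hx hdpos.le
      have hyd0 : 0 ≤ y * d := mul_nonneg hy hdpos.le
      constructor
      · have : (c + 1 : ℤ) * (x * d) ≤ (c + 1) * (2 * (2 * c + 1) * D) :=
          mul_le_mul_of_nonneg_left hxd (by positivity)
        nlinarith [mul_nonneg (show (0 : ℤ) ≤ c by positivity) hyd0]
      · have : (c : ℤ) * (y * d) ≤ c * (2 * (2 * c + 1) * D) :=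
          mul_le_mul_of_nonneg_left hyd (by positivity)
        nlinarith [mul_nonneg (show (0 : ℤ) ≤ c + 1 by positivity) hxd0]
    calc |2 * (d : ℤ) - (2 * c + 1) * t| * |(c : ℤ) * y - (c + 1) * x| * d
        = |2 * (d : ℤ) - (2 * c + 1) * t| * (|(c : ℤ) * y - (c + 1) * x| * d) := by ring
      _ ≤ c * ((c + 1) * (2 * (2 * c + 1) * D)) :=
          mul_le_mul ht h1 (by positivity) (by positivity)
      _ = _ := by ring

end Pool.Agent.SmallDeg
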