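import Pool.Agent.SmallDeg.Arith

/-!
The arithmetic, step 2.
-/

set_option autoImplicit false

namespace Pool.Agent.SmallDeg

/-- The multiplier `θ`. -/
lemma exists_theta {l : ℕ} (hl : l.Prime) {u d : ℤ} (hu : ¬ (l : ℤ) ∣ u) (hd : ¬ (l : ℤ) ∣ d) :
    ∃ θ : ℤ, 2 ≤ θ ∧ θ ≤ l + 1 ∧ ¬ (l : ℤ) ∣ θ ∧ (l : ℤ) ∣ d - u * θ := by
  have hlp : Prime (l : ℤ) := Nat.prime_iff_prime_int.1 hl
  have hcop : IsCoprime u (l : ℤ) := by
    rcases Int.isCoprime_iff_gcd_eq_one.2 (by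
      have h1 : Nat.Coprime l u.natAbs := (Nat.Prime.coprime_iff_not_dvd hl).2 fun h =>
        hu (Int.natCast_dvd.2 h)
      rw [Int.gcd_comm]
      exact h1 : Int.gcd u (l : ℤ) = 1) with h
    exact h
  obtain ⟨a, b, hab⟩ := hcop
  -- `a u = 1 - b l`
  have hlpos : (0 : ℤ) < l := by exact_mod_cast hl.pos
  set θ₀ := (a * d) % l with hθ₀
  have h1 := Int.emod_nonneg (a * d) hlpos.ne'
  have h2 := Int.emod_lt_of_pos (a * d) hlpos
  have h3 : (l : ℤ) ∣ d - u * θ₀ := by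
    have h4 : θ₀ = a * d - l * ((a * d) / l) := by
      rw [hθ₀, Int.emod_def]
    rw [h4]
    refine ⟨b * d + u * ((a * d) / l), ?_⟩
    have h5 : d = (a * u + b * l) * d := by rw [hab, one_mul]
    linear_combination h5
  have hne : ¬ (l : ℤ) ∣ θ₀ := by
    intro h
    apply hd
    have := dvd_add h3 (h.mul_left u)
    rwa [sub_add_cancel] at this
  have h0 : θ₀ ≠ 0 := by
    intro h
    apply hne
    rw [h]; exact dvd_zero _
  by_cases hone : θ₀ = 1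
  · refine ⟨l + 1, ?_, le_rfl, ?_, ?_⟩
    · have := hl.two_le
      have h4 : (2 : ℤ) ≤ l := by exact_mod_cast this
      linarith
    · intro h
      apply hne
      rw [hone]
      have := dvd_sub h (dvd_refl (l : ℤ))
      rwa [add_sub_cancel_left] at this
    · have h4 : d - u * (l + 1) = d - u * θ₀ - l * u := by rw [hone]; ring
      rw [h4]
      exact dvd_sub h3 (dvd_mul_right _ _)
  · refine ⟨θ₀, ?_, by linarith, hne, h3⟩
    omega

/-- Step 2. -/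
lemma step_two {c d D l p s a : ℕ} (hc : 1 ≤ c) (hl : l.Prime) (hcl : 2 * c < l) (hp : p.Prime)
    (hlp : l + 1 < p) (hds : d = s * p ^ a) (hs : 0 < s) (hsc : s ≤ c) (h : InSemi c d D)
    {w κ : ℤ} (hw : 0 ≤ w) (hκ0 : κ ≠ 0) (h1 : (2 * c + 1 : ℤ) * D = w * d + κ)
    (h2 : w * d ≤ 4 * (2 * c + 1) * D) (h3 : |κ| * d ≤ 2 * (2 * c + 1) * c * (c + 1) * D)
    (hsmall : 4 * (l : ℤ) * (l + 1) * |κ| ≤ d) :
    (d : ℤ) ^ 2 ≤ 2 * l * c * (2 * (2 * c + 1) * c * (c + 1) +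
      (l + 1) * (2 * l * (2 * c + 1) + 4 * (2 * c + 1) * c)) * D := by
  have hlpr : Prime (l : ℤ) := Nat.prime_iff_prime_int.1 hl
  have hppr : Prime (p : ℤ) := Nat.prime_iff_prime_int.1 hp
  have hc' : (1 : ℤ) ≤ c := by exact_mod_cast hc
  have hl' : (2 * c : ℤ) < l := by exact_mod_cast hcl
  have hdnat : 0 < d := by rw [hds]; exact Nat.mul_pos hs (pow_pos hp.pos a)
  have hdpos : (0 : ℤ) < d := by exact_mod_cast hdnat
  -- the prime `l` does not divide `d`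
  have hld : ¬ (l : ℤ) ∣ (d : ℤ) := by
    intro hdiv
    have h4 : l ∣ d := by exact_mod_cast hdiv
    rw [hds] at h4
    rcases hl.dvd_mul.1 h4 with h5 | h5
    · have := Nat.le_of_dvd hs h5
      omega
    · have h6 := (Nat.prime_dvd_prime_iff_eq hl hp).1 (hl.dvd_of_dvd_pow h5)
      omega
  -- the decomposition of `κ`
  obtain ⟨L, κ₁, hL, hκ, hpκ, hlκ, hLp⟩ : ∃ L κ₁ : ℤ, 0 < L ∧ κ = κ₁ * L ∧ ¬ (p : ℤ) ∣ κ₁ ∧
      ¬ (l : ℤ) ∣ κ₁ ∧ ∀ θ : ℤ, ¬ (p : ℤ) ∣ θ → ¬ (l : ℤ) ∣ θ → θ ∣ L → IsUnit θ := by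
    have hv : κ.natAbs ≠ 0 := Int.natAbs_ne_zero.2 hκ0
    obtain ⟨i, n₁, hn₁, e₁⟩ := Nat.exists_eq_pow_mul_and_not_dvd hv p hp.one_lt.ne'
    have hn₁0 : n₁ ≠ 0 := by
      rintro rfl
      exact hn₁ (dvd_zero _)
    obtain ⟨j, n₂, hn₂, e₂⟩ := Nat.exists_eq_pow_mul_and_not_dvd hn₁0 l hl.one_lt.ne'
    refine ⟨(p : ℤ) ^ i * (l : ℤ) ^ j, κ.sign * n₂, ?_, ?_, ?_, ?_, ?_⟩
    · have h5 : (0 : ℤ) < p := by exact_mod_cast hp.pos
      have h6 : (0 : ℤ) < l := by exact_mod_cast hl.pos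
      positivity
    · have h5 : κ = κ.sign * (κ.natAbs : ℤ) := (Int.sign_mul_natAbs κ).symm
      calc κ = κ.sign * (κ.natAbs : ℤ) := h5
        _ = κ.sign * (((p ^ i * (l ^ j * n₂) : ℕ)) : ℤ) := by rw [← e₂, ← e₁]
        _ = _ := by push_cast; ring
    · intro h5
      rcases hppr.dvd_or_dvd h5 with h6 | h6
      · have h7 : IsUnit κ.sign := by
          rcases lt_or_gt_of_ne hκ0 with h8 | h8
          · rw [Int.sign_eq_neg_one_of_neg h8]; exact isUnit_one.neg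
          · rw [Int.sign_eq_one_of_pos h8]; exact isUnit_one
        exact hppr.not_isUnit (isUnit_of_dvd_unit h6 h7)
      · have h7 : p ∣ n₂ := by exact_mod_cast h6
        exact hn₁ (e₂ ▸ h7.mul_left _)
    · intro h5
      rcases hlpr.dvd_or_dvd h5 with h6 | h6
      · have h7 : IsUnit κ.sign := by
          rcases lt_or_gt_of_ne hκ0 with h8 | h8
          · rw [Int.sign_eq_neg_one_of_neg h8]; exact isUnit_one.neg
          · rw [Int.sign_eq_one_of_pos h8]; exact isUnit_one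
        exact hlpr.not_isUnit (isUnit_of_dvd_unit h6 h7)
      · have h7 : l ∣ n₂ := by exact_mod_cast h6
        exact hn₂ h7
    · intro θ hθp hθl hθ
      have h5 : IsCoprime θ ((p : ℤ) ^ i * (l : ℤ) ^ j) := by
        refine IsCoprime.mul_right (IsCoprime.pow_right ?_) (IsCoprime.pow_right ?_)
        · exact ((hppr.irreducible.coprime_iff_not_dvd).2 hθp).symm
        · exact ((hlpr.irreducible.coprime_iff_not_dvd).2 hθl).symm
      exact h5.isUnit_of_dvd' dvd_rfl hθ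
  have hκ₁0 : κ₁ ≠ 0 := by
    rintro rfl
    exact hpκ (dvd_zero _)
  have hκ₁1 : 1 ≤ |κ₁| := Int.one_le_abs hκ₁0
  have habs : |κ| = |κ₁| * L := by rw [hκ, abs_mul, abs_of_pos hL]
  have hLκ : L ≤ |κ| := by rw [habs]; nlinarith
  have hκ₁κ : |κ₁| ≤ |κ| := by
    rw [habs]
    nlinarith [abs_nonneg κ₁]
  -- the multiplier
  have hlc : ¬ (l : ℤ) ∣ (c : ℤ) * κ₁ := by
    intro h5
    rcases hlpr.dvd_or_dvd h5 with h6 | h6
    · have h7 : l ∣ c := by exact_mod_cast h6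
      have := Nat.le_of_dvd hc h7
      omega
    · exact hlκ h6
  obtain ⟨θ, hθ2, hθl, hθn, hθd⟩ := exists_theta hl hlc hld
  obtain ⟨m₂, hm₂⟩ := hθd
  set m₁ : ℤ := m₂ + θ * κ₁ with hm₁
  have hθpos : 0 ≤ θ := by linarith
  have hlpos : (0 : ℤ) < l := by exact_mod_cast hl.pos
  have hθκ : |θ * κ₁| ≤ (l + 1) * |κ| := by
    rw [abs_mul, abs_of_nonneg hθpos]
    exact mul_le_mul hθl hκ₁κ (abs_nonneg _) (by linarith)
  obtain ⟨hθκ1, hθκ2⟩ := abs_le.1 hθκ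
  have hκnn : 0 ≤ |κ| := abs_nonneg κ
  -- lower bounds for `m₁` and `m₂`
  have hb2 : (d : ℤ) ≤ 2 * l * m₂ := by
    have h5 : (l : ℤ) * m₂ = d - c * (θ * κ₁) := by rw [← hm₂]; ring
    have h6 : (c : ℤ) * (θ * κ₁) ≤ c * ((l + 1) * |κ|) :=
      mul_le_mul_of_nonneg_left hθκ2 (by positivity)
    have h7 : (c : ℤ) * ((l + 1) * |κ|) ≤ l * ((l + 1) * |κ|) :=
      mul_le_mul_of_nonneg_right (by linarith) (by positivity)
    nlinarith
  have hb1 : (d : ℤ) ≤ 2 * l * m₁ := by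
    have h5 : (l : ℤ) * m₁ = d + (l - c) * (θ * κ₁) := by
      rw [hm₁, mul_add, ← hm₂]; ring
    have h6 : ((l : ℤ) - c) * (-((l + 1) * |κ|)) ≤ (l - c) * (θ * κ₁) :=
      mul_le_mul_of_nonneg_left hθκ1 (by linarith)
    have h7 : ((l : ℤ) - c) * ((l + 1) * |κ|) ≤ l * ((l + 1) * |κ|) :=
      mul_le_mul_of_nonneg_right (by linarith) (by positivity)
    nlinarith
  have hm₂0 : 0 < m₂ := by
    by_contra h5
    push Not at h5
    nlinarith
  have hm₁0 : 0 < m₁ := by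
    by_contra h5
    push Not at h5
    nlinarith
  have hdec : (c : ℤ) * m₁ + ((l - c : ℕ) : ℤ) * m₂ = d := by
    rw [Nat.cast_sub (by omega), hm₁]
    linear_combination -hm₂
  obtain ⟨x, y, hx, hy, hxy⟩ := h.int (a₁ := c) (a₂ := l - c) le_rfl (by omega) hm₁0 hm₂0 hdec
  rw [Nat.cast_sub (by omega)] at hdec
  set X : ℤ := (2 * c + 1) * x - w * c with hX
  set Y : ℤ := (2 * c + 1) * y - w * (l - c) with hY
  have hXY : X * m₁ + Y * m₂ = κ := by
    have h5 : κ = (2 * c + 1 : ℤ) * D - w * d := by rw [h1]; ring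
    rw [h5, hxy, ← hdec, hX, hY]; ring
  have hkey : (X + Y) * m₂ = κ₁ * (L - θ * X) := by
    have h5 : (X + Y) * m₂ = X * m₁ + Y * m₂ - θ * κ₁ * X := by rw [hm₁]; ring
    rw [h5, hXY, hκ]; ring
  -- the gcd of `m₂` and `κ₁` divides `s`
  have hgs : ((Int.gcd m₂ κ₁ : ℕ) : ℤ) ∣ (s : ℤ) := by
    have h5 : ((Int.gcd m₂ κ₁ : ℕ) : ℤ) ∣ (d : ℤ) := by
      have h6 : (d : ℤ) = l * m₂ + κ₁ * (c * θ) := by rw [← hm₂]; ring
      rw [h6]
      exact dvd_add ((Int.gcd_dvd_left _ _).mul_left _) ((Int.gcd_dvd_right _ _).mul_right _)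
    have h6 : IsCoprime ((Int.gcd m₂ κ₁ : ℕ) : ℤ) ((p : ℤ) ^ a) := by
      refine IsCoprime.pow_right ?_
      refine ((hppr.irreducible.coprime_iff_not_dvd).2 ?_).symm
      intro h7
      exact hpκ (h7.trans (Int.gcd_dvd_right _ _))
    have h7 : (d : ℤ) = s * (p : ℤ) ^ a := by rw [hds]; push_cast; ring
    rw [h7] at h5
    exact h6.dvd_of_dvd_mul_right h5
  have hdvd : m₂ ∣ s * (L - θ * X) := by
    have h5 : m₂.natAbs ∣ κ₁.natAbs * (L - θ * X).natAbs := by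
      rw [← Int.natAbs_mul, ← hkey, Int.natAbs_mul]
      exact dvd_mul_left _ _
    have h6 : m₂.natAbs ∣ Nat.gcd m₂.natAbs κ₁.natAbs * (L - θ * X).natAbs :=
      dvd_gcd_mul_of_dvd_mul h5
    have h7 : m₂ ∣ ((Int.gcd m₂ κ₁ : ℕ) : ℤ) * (L - θ * X) := by
      rw [← Int.natAbs_dvd_natAbs, Int.natAbs_mul, Int.natAbs_natCast]
      exact h6
    exact h7.trans (mul_dvd_mul_right hgs _)
  have hpθ : ¬ (p : ℤ) ∣ θ := by
    intro h5
    have h6 := Int.le_of_dvd (by linarith) h5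
    have h7 : ((l : ℤ) + 1) < p := by exact_mod_cast hlp
    linarith
  have hne : L - θ * X ≠ 0 := by
    intro h5
    have h6 : θ ∣ L := ⟨X, by linarith⟩
    have h7 := hLp θ hpθ hθn h6
    have h8 := Int.isUnit_iff.1 h7
    rcases h8 with h9 | h9 <;> linarith
  have hspos : (0 : ℤ) < s := by exact_mod_cast hs
  have hle : m₂ ≤ c * (|κ| + (l + 1) * |X|) := by
    have h5 : m₂ ≤ |(s : ℤ) * (L - θ * X)| :=
      Int.le_of_dvd (abs_pos.2 (mul_ne_zero hspos.ne' hne)) ((dvd_abs _ _).2 hdvd)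
    have h6 : |(s : ℤ) * (L - θ * X)| ≤ c * (|κ| + (l + 1) * |X|) := by
      rw [abs_mul, abs_of_pos hspos]
      have h7 : |L - θ * X| ≤ |κ| + (l + 1) * |X| := by
        calc |L - θ * X| ≤ |L| + |θ * X| := abs_sub _ _
          _ = L + θ * |X| := by rw [abs_of_pos hL, abs_mul, abs_of_nonneg hθpos]
          _ ≤ _ := by nlinarith [abs_nonneg X]
      exact mul_le_mul (by exact_mod_cast hsc) h7 (abs_nonneg _) (by positivity)
    exact h5.trans h6
  have hD0 : (0 : ℤ) ≤ D := by positivity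
  have hXd : |X| * d ≤ (2 * l * (2 * c + 1) + 4 * (2 * c + 1) * c) * D := by
    have h5 : |X| ≤ (2 * c + 1) * x + w * c := by
      rw [hX, abs_le]
      constructor <;> nlinarith [mul_nonneg hw (show (0 : ℤ) ≤ c by positivity),
        mul_nonneg (show (0 : ℤ) ≤ 2 * c + 1 by positivity) hx]
    have h6 : x * d ≤ 2 * l * D := by
      have h7 : x * d ≤ x * (2 * l * m₁) := mul_le_mul_of_nonneg_left hb1 hx
      have h8 : 0 ≤ y * m₂ := mul_nonneg hy hm₂0.le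
      have h9 : x * m₁ ≤ D := by linarith
      have h10 : 2 * l * (x * m₁) ≤ 2 * l * (D : ℤ) :=
        mul_le_mul_of_nonneg_left h9 (by positivity)
      nlinarith
    calc |X| * d ≤ ((2 * c + 1) * x + w * c) * d := mul_le_mul_of_nonneg_right h5 hdpos.le
      _ = (2 * c + 1) * (x * d) + c * (w * d) := by ring
      _ ≤ (2 * c + 1) * (2 * l * D) + c * (4 * (2 * c + 1) * D) :=
          add_le_add (mul_le_mul_of_nonneg_left h6 (by positivity))
            (mul_le_mul_of_nonneg_left h2 (by positivity))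
      _ = _ := by ring
  calc (d : ℤ) ^ 2 = d * d := by ring
    _ ≤ 2 * l * m₂ * d := mul_le_mul_of_nonneg_right hb2 hdpos.le
    _ ≤ 2 * l * (c * (|κ| + (l + 1) * |X|)) * d :=
        mul_le_mul_of_nonneg_right (mul_le_mul_of_nonneg_left hle (by positivity)) hdpos.le
    _ = 2 * l * c * (|κ| * d + (l + 1) * (|X| * d)) := by ring
    _ ≤ 2 * l * c * (2 * (2 * c + 1) * c * (c + 1) * D +
          (l + 1) * ((2 * l * (2 * c + 1) + 4 * (2 * c + 1) * c) * D)) := by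
        refine mul_le_mul_of_nonneg_left (add_le_add h3 ?_) (by positivity)
        exact mul_le_mul_of_nonneg_left hXd (by positivity)
    _ = _ := by ring

end Pool.Agent.SmallDeg
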