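import Pool.Agent.SmallDeg.Arith2

/-!
The arithmetic, conclusion.
-/

set_option autoImplicit false

namespace Pool.Agent.SmallDeg

/-- A power of `p` between `c` and `c p`. -/
lemma exists_pow_between {c p : ℕ} (hc : 1 ≤ c) (hp : 2 ≤ p) : ∃ j : ℕ, c ≤ p ^ j ∧ p ^ j ≤ c * p := by
  refine ⟨Nat.clog p c, Nat.le_pow_clog hp c, ?_⟩
  rcases Nat.lt_or_ge 1 c with h | h
  · have h1 : p ^ (Nat.clog p c - 1) < c := Nat.pow_pred_clog_lt_self hp h
    have h2 : 0 < Nat.clog p c := Nat.clog_pos hp h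
    obtain ⟨k, hk⟩ := Nat.exists_eq_succ_of_ne_zero h2.ne'
    rw [hk] at h1 ⊢
    rw [Nat.succ_sub_one] at h1
    rw [Nat.succ_eq_add_one, pow_succ]
    exact Nat.mul_le_mul_right p h1.le
  · have h1 : c = 1 := by omega
    subst h1
    rw [Nat.clog_one_right, pow_zero]
    omega

/-- **The arithmetic.** -/
theorem arith (c : ℕ) (hc : 1 ≤ c) : ∃ C : ℕ, 0 < C ∧ ∀ d D : ℕ,
    (∀ m : ℕ, 0 < m → m ∣ d → c * m ≤ d → m ∣ D) → InSemi c d D → C * D < d ^ 2 → d ∣ C * D := by
  obtain ⟨l, hl2, hl⟩ := Nat.exists_infinite_primes (2 * c + 1)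
  set A : ℕ := 2 * (2 * c + 1) * c * (c + 1) with hA
  set B : ℕ := 2 * l * c * (A + (l + 1) * (2 * l * (2 * c + 1) + 4 * (2 * c + 1) * c)) with hB
  set E : ℕ := 4 * l * (l + 1) * A with hE
  set C₁ : ℕ := (2 * c * (c + 1)) ^ 2 + B + E + 1 with hC₁
  set G : ℕ := Nat.factorial (c * (l + 1)) with hG
  have hGpos : 0 < G := Nat.factorial_pos _
  refine ⟨C₁ * (2 * c + 1) * G, by positivity, fun d D hT hU hlt => ?_⟩
  have hC₁le : C₁ ≤ C₁ * (2 * c + 1) * G := by
    calc C₁ ≤ C₁ * ((2 * c + 1) * G) := Nat.le_mul_of_pos_right _ (by positivity)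
      _ = _ := by ring
  have hlt1 : C₁ * D < d ^ 2 := lt_of_le_of_lt (Nat.mul_le_mul_right D hC₁le) hlt
  rcases Nat.eq_zero_or_pos D with hD0 | hDpos
  · rw [hD0, mul_zero]; exact dvd_zero _
  have hdpos : 0 < d := by
    rcases Nat.eq_zero_or_pos d with h | h
    · rw [h] at hlt1; omega
    · exact h
  have hdbig : 2 * c * (c + 1) ≤ d := by
    by_contra h
    push Not at h
    have h1 : d ^ 2 < (2 * c * (c + 1)) ^ 2 := Nat.pow_lt_pow_left h two_ne_zero
    have h2 : C₁ * 1 ≤ C₁ * D := Nat.mul_le_mul_left C₁ hDpos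
    omega
  rw [Nat.dvd_iff_prime_pow_dvd_dvd]
  intro p k hp hpk
  have hpk0 : 0 < p ^ k := pow_pos hp.pos k
  by_cases hpl : p ≤ l + 1
  · -- a small prime
    obtain ⟨j, hj1, hj2⟩ := exists_pow_between hc hp.two_le
    have hjG : p ^ j ∣ G := by
      refine Nat.dvd_factorial (pow_pos hp.pos j) ?_
      exact hj2.trans (Nat.mul_le_mul_left c hpl)
    rcases Nat.lt_or_ge k j with hkj | hkj
    · have h1 : p ^ k ∣ p ^ j := pow_dvd_pow p hkj.le
      exact (h1.trans hjG).trans (Dvd.intro_left (C₁ * (2 * c + 1)) rfl |>.mul_right D)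
    · have h1 : p ^ (k - j) ∣ D := by
        refine hT _ (pow_pos hp.pos _) ((pow_dvd_pow p (Nat.sub_le k j)).trans hpk) ?_
        calc c * p ^ (k - j) ≤ p ^ j * p ^ (k - j) := Nat.mul_le_mul_right _ hj1
          _ = p ^ k := by rw [← pow_add]; congr 1; omega
          _ ≤ d := Nat.le_of_dvd hdpos hpk
      have h2 : p ^ k = p ^ j * p ^ (k - j) := by rw [← pow_add]; congr 1; omega
      rw [h2]
      refine (mul_dvd_mul hjG h1).trans ⟨C₁ * (2 * c + 1), ?_⟩
      ring
  · push Not at hpl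
    by_cases hck : c * p ^ k ≤ d
    · exact (hT _ hpk0 hpk hck).mul_left _
    · push Not at hck
      obtain ⟨s, hs⟩ := hpk
      have hs0 : 0 < s := by
        rcases Nat.eq_zero_or_pos s with h | h
        · rw [h, mul_zero] at hs; omega
        · exact h
      have hsc : s ≤ c := by
        rw [hs, mul_comm c] at hck
        exact (Nat.lt_of_mul_lt_mul_left hck).le
      obtain ⟨w, κ, hw, h1, h2, h3⟩ := step_one hc hdbig hU
      by_cases hκ : κ = 0
      · -- the good case
        have h4 : (d : ℤ) ∣ ((2 * c + 1) * D : ℕ) := by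
          refine ⟨w, ?_⟩
          push_cast
          rw [h1, hκ]; ring
        have h5 : d ∣ (2 * c + 1) * D := by exact_mod_cast h4
        have h6 : p ^ k ∣ (2 * c + 1) * D := (Dvd.intro s hs.symm).trans h5
        refine h6.trans ⟨C₁ * G, ?_⟩
        ring
      · exfalso
        have hdpos' : (0 : ℤ) < d := by exact_mod_cast hdpos
        have hsmall : 4 * (l : ℤ) * (l + 1) * |κ| ≤ d := by
          have h4 : (E : ℤ) * D < d ^ 2 := by
            have h5 : E * D < d ^ 2 := by
              refine lt_of_le_of_lt (Nat.mul_le_mul_right D ?_) hlt1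
              omega
            exact_mod_cast h5
          have h5 : |κ| * d ≤ A * D := by
            rw [hA]; push_cast; exact h3
          have h6 : (4 * (l : ℤ) * (l + 1) * |κ|) * d ≤ d * d := by
            calc (4 * (l : ℤ) * (l + 1) * |κ|) * d = 4 * l * (l + 1) * (|κ| * d) := by ring
              _ ≤ 4 * l * (l + 1) * (A * D) := mul_le_mul_of_nonneg_left h5 (by positivity)
              _ = E * D := by rw [hE]; push_cast; ring
              _ ≤ d * d := by rw [← pow_two]; exact h4.le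
          exact le_of_mul_le_mul_right h6 hdpos'
        have h4 := step_two (s := s) (a := k) hc hl (by omega) hp hpl (by rw [hs]; ring) hs0 hsc hU hw hκ h1 h2 h3
          hsmall
        have h5 : (B : ℤ) * D < d ^ 2 := by
          have h6 : B * D < d ^ 2 := by
            refine lt_of_le_of_lt (Nat.mul_le_mul_right D ?_) hlt1
            omega
          exact_mod_cast h6
        have h6 : (B : ℤ) = 2 * l * c * (2 * (2 * c + 1) * c * (c + 1) +
            (l + 1) * (2 * l * (2 * c + 1) + 4 * (2 * c + 1) * c)) := by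
          rw [hB, hA]; push_cast; ring
        rw [← h6] at h4
        linarith

end Pool.Agent.SmallDeg
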