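import Mathlib

/-!
From divisibility up to a bounded factor to divisibility.
-/

set_option autoImplicit false

namespace Pool.Agent.SmallDeg

/-- The largest number up to `M` in a residue class. -/
lemma exists_class (N M s : ℕ) (hN : 0 < N) (hM : N ≤ M) :
    ∃ m : ℕ, m ≤ M ∧ M < m + N ∧ m ≡ s [MOD N] := by
  obtain ⟨K, hK⟩ : ∃ K, N = K + 1 := ⟨N - 1, by omega⟩
  set t := (M + K * s) % N with ht
  have h1 : t < N := Nat.mod_lt _ hN
  refine ⟨M - t, Nat.sub_le _ _, by omega, ?_⟩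
  have h2 : M - t + t = M := Nat.sub_add_cancel (by omega)
  have h3 : t ≡ M + K * s [MOD N] := Nat.mod_modEq _ _
  have h4 : M - t + (M + K * s) ≡ M [MOD N] := by
    calc M - t + (M + K * s) ≡ M - t + t [MOD N] := Nat.ModEq.add_left _ h3.symm
      _ = M := h2
  have h5 : M + (M - t + K * s) ≡ M + 0 [MOD N] := by
    rw [add_zero]
    calc M + (M - t + K * s) = M - t + (M + K * s) := by ring
      _ ≡ M [MOD N] := h4
  have h6 : M - t + K * s ≡ 0 [MOD N] := Nat.ModEq.add_left_cancel' M h5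
  have h7 : M - t + K * s + s ≡ 0 + s [MOD N] := Nat.ModEq.add_right s h6
  have h8 : M - t + N * s ≡ s [MOD N] := by
    calc M - t + N * s = M - t + K * s + s := by rw [hK]; ring
      _ ≡ 0 + s [MOD N] := h7
      _ = s := zero_add s
  calc M - t = M - t + N * 0 := by ring
    _ ≡ M - t + N * s [MOD N] := by
        refine Nat.ModEq.add_left _ ?_
        rw [mul_zero]
        exact (Nat.modEq_zero_iff_dvd.2 (dvd_mul_right N s)).symm
    _ ≡ s [MOD N] := h8

/-- A decomposition near the diagonal with both parts prime to `c`. -/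
lemma exists_diag (c : ℕ) (hc : 1 ≤ c) (d : ℕ) (hd : 4 * (3 * c ^ 2 + c) * (c * (c + 1)) ≤ d) :
    ∃ a₁ b m h : ℕ, c ≤ a₁ ∧ a₁ + (c + 1) = b ∧ b ≤ 3 * c ^ 2 + c ∧ Nat.Coprime a₁ (c + 1) ∧
      0 < h ∧ h ≤ b ∧ b * m + c * (c + 1) * h = d ∧ d ≤ 2 * b * m ∧ Nat.Coprime m c := by
  set ρ := d % c with hρ
  have hρc : ρ < c := Nat.mod_lt _ hc
  obtain ⟨k, hk⟩ : ∃ k, c = k + 1 := ⟨c - 1, by omega⟩
  set b := ρ * (c + 1) + 2 * c ^ 2 + c with hb
  set N := c * (c + 1) with hN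
  have hNpos : 0 < N := by positivity
  have hbpos : 0 < b := by omega
  have hble : b ≤ 3 * c ^ 2 + c := by
    have h1 : ρ * (c + 1) ≤ k * (c + 1) := Nat.mul_le_mul_right _ (by omega)
    have h2 : k * (c + 1) ≤ c ^ 2 := by rw [hk]; nlinarith
    omega
  have hcc : c ≤ c ^ 2 := by nlinarith
  obtain ⟨a₁, ha₁⟩ : ∃ a₁, b = a₁ + (c + 1) := ⟨b - (c + 1), by omega⟩
  have hb1 : b = 1 + (c + 1) * (ρ + 2 * k + 1) := by
    rw [hb, hk]; ring
  have hbc1 : Nat.Coprime b (c + 1) := by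
    rw [hb1]
    exact (Nat.coprime_add_mul_left_left 1 (c + 1) _).2 (Nat.coprime_one_left _)
  have ha₁c : Nat.Coprime a₁ (c + 1) := by
    rw [ha₁] at hbc1
    exact (Nat.coprime_add_self_left).1 hbc1
  set M' := (d - 1) / b with hM'
  have hbN : 4 * b * N ≤ d := by
    refine le_trans ?_ hd
    exact Nat.mul_le_mul_right _ (Nat.mul_le_mul_left _ hble)
  have hdpos : 0 < d := lt_of_lt_of_le (by positivity) hbN
  have hM'N : N ≤ M' := by
    rw [hM', Nat.le_div_iff_mul_le hbpos]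
    have h1 : N * b + N * b ≤ d := by nlinarith
    have h2 : 1 ≤ N * b := Nat.mul_pos hNpos hbpos
    omega
  obtain ⟨m, hm1, hm2, hm3⟩ := exists_class N M' (c + 1 + c ^ 2 * d) hNpos hM'N
  have hbm : b * m < d := by
    have h1 : b * M' ≤ d - 1 := Nat.mul_div_le _ _
    have h2 : b * m ≤ b * M' := Nat.mul_le_mul_left _ hm1
    omega
  have hbm2 : d ≤ b * (m + N) := by
    have h1 : d - 1 < b * (M' + 1) := by
      rw [hM']
      exact Nat.lt_mul_div_succ _ hbpos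
    have h2 : b * (M' + 1) ≤ b * (m + N) := Nat.mul_le_mul_left _ hm2
    omega
  have hmc : m ≡ 1 [MOD c] := by
    have h1 : m ≡ c + 1 + c ^ 2 * d [MOD c] := hm3.of_mul_right _
    refine h1.trans ?_
    have h2 : c + 1 + c ^ 2 * d = 1 + c * (1 + c * d) := by ring
    rw [h2]
    calc 1 + c * (1 + c * d) ≡ 1 + 0 [MOD c] :=
          Nat.ModEq.add_left _ (Nat.modEq_zero_iff_dvd.2 (dvd_mul_right _ _))
      _ = 1 := rfl
  have hmc1 : m ≡ d [MOD (c + 1)] := by
    have h1 : m ≡ c + 1 + c ^ 2 * d [MOD (c + 1)] := hm3.of_mul_left _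
    refine h1.trans ?_
    have h2 : c + 1 + c ^ 2 * d = d + (c + 1) * (1 + k * d) := by rw [hk]; ring
    rw [h2]
    calc d + (c + 1) * (1 + k * d) ≡ d + 0 [MOD (c + 1)] :=
          Nat.ModEq.add_left _ (Nat.modEq_zero_iff_dvd.2 (dvd_mul_right _ _))
      _ = d := rfl
  have hdvd1 : c ∣ d - b * m := by
    refine (Nat.modEq_iff_dvd' hbm.le).1 ?_
    have h1 : b ≡ ρ [MOD c] := by
      have h2 : b = ρ + c * (ρ + 2 * c + 1) := by rw [hb]; ring
      rw [h2]
      calc ρ + c * (ρ + 2 * c + 1) ≡ ρ + 0 [MOD c] :=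
            Nat.ModEq.add_left _ (Nat.modEq_zero_iff_dvd.2 (dvd_mul_right _ _))
        _ = ρ := rfl
    calc b * m ≡ ρ * 1 [MOD c] := h1.mul hmc
      _ = ρ := mul_one _
      _ ≡ d [MOD c] := Nat.mod_modEq _ _
  have hdvd2 : (c + 1) ∣ d - b * m := by
    refine (Nat.modEq_iff_dvd' hbm.le).1 ?_
    have h1 : b ≡ 1 [MOD (c + 1)] := by
      rw [hb1]
      calc 1 + (c + 1) * (ρ + 2 * k + 1) ≡ 1 + 0 [MOD (c + 1)] :=
            Nat.ModEq.add_left _ (Nat.modEq_zero_iff_dvd.2 (dvd_mul_right _ _))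
        _ = 1 := rfl
    calc b * m ≡ 1 * d [MOD (c + 1)] := h1.mul hmc1
      _ = d := one_mul _
  obtain ⟨h, hh⟩ : N ∣ d - b * m :=
    Nat.Coprime.mul_dvd_of_dvd_of_dvd (by simp) hdvd1 hdvd2
  have hsum : b * m + N * h = d := by omega
  refine ⟨a₁, b, m, h, by omega, ha₁.symm, hble, ha₁c, ?_, ?_, hsum, ?_, ?_⟩
  · rcases Nat.eq_zero_or_pos h with h0 | h0
    · rw [h0, mul_zero] at hsum; omega
    · exact h0
  · have h1 : N * h ≤ N * b := by nlinarith
    exact Nat.le_of_mul_le_mul_left h1 hNpos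
  · have h1 : N * h ≤ b * N := by nlinarith
    nlinarith
  · have h1 := hmc.gcd_eq
    rw [Nat.gcd_one_left] at h1
    exact h1

/-- From divisibility up to a bounded factor to divisibility. -/
theorem exact_arith (c C₁ : ℕ) (hc : 1 ≤ c) (hC₁ : 1 ≤ C₁) : ∃ C : ℕ, 0 < C ∧ ∀ d D : ℕ,
    d ∣ C₁ * D → C * D < d ^ 2 →
    (∀ a₁ a₂ m₁ m₂ : ℕ, c ≤ a₁ → c ≤ a₂ → 0 < m₁ → 0 < m₂ → a₁ * m₁ + a₂ * m₂ = d →
      Nat.Coprime m₁ c → Nat.Coprime m₂ c → ∃ x y : ℕ, D = x * m₁ + y * m₂) → d ∣ D := by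
  set B := 3 * c ^ 2 + c with hB
  set N := c * (c + 1) with hN
  have hBpos : 0 < B := by positivity
  have hNpos : 0 < N := by positivity
  set E := 4 * B * N with hE
  refine ⟨4 * B ^ 3 * N * C₁ * (c + 2) + E ^ 2 + 1, by positivity, ?_⟩
  intro d D hdvd hlt hU
  have hlt1 : 4 * B ^ 3 * N * C₁ * (c + 2) * D < d ^ 2 := by
    refine lt_of_le_of_lt (Nat.mul_le_mul_right _ ?_) hlt
    omega
  have hlt2 : E ^ 2 * D < d ^ 2 := by
    refine lt_of_le_of_lt (Nat.mul_le_mul_right _ ?_) hlt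
    omega
  rcases Nat.lt_or_ge d E with hsm | hl
  · -- small `d`
    rcases Nat.eq_zero_or_pos D with h0 | h0
    · rw [h0]; exact dvd_zero _
    · exfalso
      have h1 : d ^ 2 ≤ E ^ 2 := Nat.pow_le_pow_left hsm.le 2
      have h2 : E ^ 2 ≤ E ^ 2 * D := Nat.le_mul_of_pos_right _ h0
      omega
  obtain ⟨a₁, b, m, h, ha₁, hab, hbB, hcop, hh0, hhb, hsum, hd2, hmc⟩ := exists_diag c hc d hl
  have hEpos : 0 < E := by positivity
  have hdpos : 0 < d := lt_of_lt_of_le hEpos hl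
  have hmpos : 0 < m := by
    rcases Nat.eq_zero_or_pos m with h0 | h0
    · rw [h0, mul_zero] at hd2; omega
    · exact h0
  obtain ⟨x, y, hxy⟩ := hU a₁ (c + 1) m (m + c * h) ha₁ (by omega) hmpos (by omega)
    (by rw [← hsum, ← hab]; ring) hmc
    ((Nat.coprime_add_mul_left_left m c h).2 hmc)
  obtain ⟨k, hk⟩ := hdvd
  -- the integers
  have e1 : ((c : ℤ) + 1) * D = y * d - (a₁ * y - (c + 1) * x) * m := by
    have h1 : (D : ℤ) = x * m + y * (m + c * h) := by exact_mod_cast hxy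
    have h2 : (d : ℤ) = (a₁ + (c + 1)) * m + c * (c + 1) * h := by
      rw [← hsum, ← hab]; push_cast; ring
    rw [h1, h2]; ring
  have e2 : (C₁ : ℤ) * D = d * k := by exact_mod_cast hk
  have e3 : (C₁ : ℤ) * (a₁ * y - (c + 1) * x) * m = d * (C₁ * y - (c + 1) * k) := by
    have h1 : (C₁ : ℤ) * (((c : ℤ) + 1) * D) = (c + 1) * (d * k) := by rw [← e2]; ring
    rw [e1] at h1
    linear_combination -h1
  have e4 : (d : ℤ) = b * m + N * h := by exact_mod_cast hsum.symm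
  have e5 : (m : ℤ) ∣ N * h * (C₁ * y - (c + 1) * k) := by
    refine ⟨C₁ * (a₁ * y - (c + 1) * x) - b * (C₁ * y - (c + 1) * k), ?_⟩
    rw [e4] at e3
    linear_combination -e3
  -- sizes
  have s1 : y * m ≤ D := by
    rw [hxy]
    have : y * m ≤ y * (m + c * h) := Nat.mul_le_mul_left _ (by omega)
    omega
  have hmd : m ≤ d := by
    have h1 : m ≤ b * m := Nat.le_mul_of_pos_left _ (by omega)
    omega
  have s2 : k * m ≤ C₁ * D := by
    rw [hk, mul_comm d k]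
    exact Nat.mul_le_mul_left _ hmd
  have hw : (C₁ : ℤ) * y - (c + 1) * k = 0 := by
    by_contra hne
    have h1 : (N : ℤ) * h * (C₁ * y - (c + 1) * k) ≠ 0 := by
      refine mul_ne_zero (mul_ne_zero ?_ ?_) hne
      · exact_mod_cast hNpos.ne'
      · exact_mod_cast hh0.ne'
    have h2 := Int.natAbs_dvd_natAbs.2 e5
    have h3 := Nat.le_of_dvd (Int.natAbs_pos.2 h1) h2
    rw [Int.natAbs_natCast, Int.natAbs_mul, ← Nat.cast_mul, Int.natAbs_natCast] at h3
    have h4 : ((C₁ : ℤ) * y - (c + 1) * k).natAbs ≤ C₁ * y + (c + 1) * k := by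
      have h5 : ((C₁ : ℤ) * y - (c + 1) * k) = ((C₁ * y : ℕ) : ℤ) - (((c + 1) * k : ℕ) : ℤ) := by
        push_cast; ring
      rw [h5]
      omega
    have h5 : m ≤ N * B * (C₁ * y + (c + 1) * k) := by
      refine h3.trans (Nat.mul_le_mul (Nat.mul_le_mul_left _ (hhb.trans hbB)) h4)
    have h6 : m * m ≤ N * B * (C₁ * (c + 2) * D) := by
      calc m * m ≤ N * B * (C₁ * y + (c + 1) * k) * m := Nat.mul_le_mul_right _ h5
        _ = N * B * (C₁ * (y * m) + (c + 1) * (k * m)) := by ring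
        _ ≤ N * B * (C₁ * D + (c + 1) * (C₁ * D)) := by
            refine Nat.mul_le_mul_left _ (Nat.add_le_add (Nat.mul_le_mul_left _ s1)
              (Nat.mul_le_mul_left _ s2))
        _ = N * B * (C₁ * (c + 2) * D) := by ring
    have h7 : d ≤ 2 * B * m := hd2.trans (Nat.mul_le_mul_right _ (Nat.mul_le_mul_left _ hbB))
    have h8 : d ^ 2 ≤ 4 * B ^ 3 * N * C₁ * (c + 2) * D := by
      calc d ^ 2 ≤ (2 * B * m) ^ 2 := Nat.pow_le_pow_left h7 2
        _ = 4 * B ^ 2 * (m * m) := by ring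
        _ ≤ 4 * B ^ 2 * (N * B * (C₁ * (c + 2) * D)) := Nat.mul_le_mul_left _ h6
        _ = _ := by ring
    omega
  rw [hw, mul_zero] at e3
  have hu : (a₁ : ℤ) * y - (c + 1) * x = 0 := by
    have h1 : (m : ℤ) ≠ 0 := by exact_mod_cast hmpos.ne'
    have h2 : (C₁ : ℤ) ≠ 0 := by exact_mod_cast (by omega : C₁ ≠ 0)
    rcases mul_eq_zero.1 e3 with h3 | h3
    · rcases mul_eq_zero.1 h3 with h4 | h4
      · exact absurd h4 h2
      · exact h4
    · exact absurd h3 h1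
  have hu' : a₁ * y = (c + 1) * x := by
    have : (a₁ : ℤ) * y = (c + 1) * x := by linarith
    exact_mod_cast this
  obtain ⟨z, hz⟩ : (c + 1) ∣ y := by
    refine Nat.Coprime.dvd_of_dvd_mul_left hcop.symm ?_
    exact ⟨x, hu'⟩
  have hx : x = a₁ * z := by
    rw [hz] at hu'
    have h1 : (c + 1) * (a₁ * z) = (c + 1) * x := by rw [← hu']; ring
    exact (Nat.eq_of_mul_eq_mul_left (by omega) h1).symm
  refine ⟨z, ?_⟩
  rw [hxy, hx, hz, ← hsum, ← hab]
  ring

end Pool.Agent.SmallDeg
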