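import Pool.Agent.SmallDeg.CopCount

/-!
Counting the solutions of `u t ≡ -D` with small `u`.
-/

set_option autoImplicit false

namespace Pool.Agent.SmallDeg

open Finset

/-- Numbers prime to `d` in one class mod `h`. -/
lemma class_count (d h : ℕ) (hd : 0 < d) (hh : h ∣ d) (T : Finset ℕ)
    (hT : ∀ t ∈ T, t < d ∧ Nat.Coprime t d)
    (hT2 : ∀ t ∈ T, ∀ t' ∈ T, t ≡ t' [MOD h]) : T.card * Nat.totient h ≤ Nat.totient d := by
  classical
  haveI : NeZero d := ⟨hd.ne'⟩
  haveI : NeZero h := ⟨fun h0 => hd.ne' (by rw [h0] at hh; exact Nat.eq_zero_of_zero_dvd hh)⟩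
  rcases T.eq_empty_or_nonempty with rfl | ⟨t₀, ht₀⟩
  · rw [card_empty, zero_mul]
    exact Nat.zero_le _
  set f := ZMod.unitsMap hh with hf
  have hsurj : Function.Surjective f := ZMod.unitsMap_surjective hh
  set x : (ZMod h)ˣ := f (ZMod.unitOfCoprime t₀ (hT t₀ ht₀).2) with hx
  have hfib : ∀ y : (ZMod h)ˣ, (univ.filter fun g => f g = y).card =
      (univ.filter fun g => f g = x).card := fun y =>
    MonoidHom.card_fiber_eq_of_mem_range f (hsurj y) (hsurj x)
  have hsum : Nat.totient d = Nat.totient h * (univ.filter fun g => f g = x).card := by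
    rw [← ZMod.card_units_eq_totient d, ← ZMod.card_units_eq_totient h, ← Finset.card_univ,
      ← Finset.card_univ (α := (ZMod h)ˣ),
      Finset.card_eq_sum_card_fiberwise (f := f) (t := univ) (fun _ _ => mem_univ _),
      Finset.sum_congr rfl (fun y _ => hfib y), Finset.sum_const, smul_eq_mul]
  have hle : T.card ≤ (univ.filter fun g => f g = x).card := by
    let F : ℕ → (ZMod d)ˣ := fun t => if ht : Nat.Coprime t d then ZMod.unitOfCoprime t ht else 1
    have hF : ∀ t (hc : Nat.Coprime t d), F t = ZMod.unitOfCoprime t hc := fun t hc => dif_pos hc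
    refine Finset.card_le_card_of_injOn F ?_ ?_
    · intro t ht
      have ht' : t ∈ T := ht
      have hc := (hT t ht').2
      rw [coe_filter]
      refine ⟨mem_univ _, ?_⟩
      rw [hF t hc, hx]
      ext
      rw [hf, ZMod.unitsMap_val, ZMod.unitsMap_val, ZMod.coe_unitOfCoprime, ZMod.coe_unitOfCoprime,
        ZMod.cast_natCast hh, ZMod.cast_natCast hh]
      exact (ZMod.natCast_eq_natCast_iff _ _ _).2 (hT2 t ht' t₀ ht₀)
    · intro t ht t' ht' htt
      have h1 : t ∈ T := ht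
      have h2 : t' ∈ T := ht'
      rw [hF t (hT t h1).2, hF t' (hT t' h2).2] at htt
      have h3 := congrArg (fun g : (ZMod d)ˣ => (g : ZMod d)) htt
      simp only [ZMod.coe_unitOfCoprime] at h3
      have h4 := (ZMod.natCast_eq_natCast_iff _ _ _).1 h3
      exact Nat.ModEq.eq_of_lt_of_lt h4 (hT t h1).1 (hT t' h2).1
  rw [hsum, mul_comm]
  exact Nat.mul_le_mul_left _ hle

/-- **The bad numbers.** -/
theorem bad_count (η : ℝ) (hη : 0 < η) : ∃ κ : ℝ, 0 < κ ∧ κ ≤ 1 ∧ ∀ (d D : ℕ) (T : Finset ℕ),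
    0 < d →
    (∀ t ∈ T, t < d ∧ Nat.Coprime t d ∧ ∃ u : ℤ, u ≠ 0 ∧ ((u.natAbs : ℕ) : ℝ) ≤ κ * d ∧
      (d : ℤ) ∣ D + u * t) → (T.card : ℝ) ≤ 2 * η * Nat.totient d := by
  classical
  obtain ⟨κ, hκ0, hκ1, hshort⟩ := coprime_short η hη
  refine ⟨κ, hκ0, hκ1, fun d D T hd hT => ?_⟩
  set G := Nat.gcd D d with hG
  have hG0 : 0 < G := Nat.gcd_pos_of_pos_right _ hd
  obtain ⟨D', hD'⟩ : G ∣ D := Nat.gcd_dvd_left _ _
  obtain ⟨h, hh⟩ : G ∣ d := Nat.gcd_dvd_right _ _
  have hcop : Nat.Coprime D' h := by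
    have h1 := Nat.coprime_div_gcd_div_gcd hG0
    rw [← hG] at h1
    have h2 : D / G = D' := by rw [hD', Nat.mul_div_cancel_left _ hG0]
    have h3 : d / G = h := by rw [hh, Nat.mul_div_cancel_left _ hG0]
    rwa [h2, h3] at h1
  have hh0 : 0 < h := by
    rcases Nat.eq_zero_or_pos h with h0 | h0
    · rw [h0, mul_zero] at hh; omega
    · exact h0
  have hhd : h ∣ d := ⟨G, by rw [hh, mul_comm]⟩
  have hφh : (0 : ℝ) < Nat.totient h := by exact_mod_cast Nat.totient_pos.2 hh0
  set X : ℕ := ⌊κ * h⌋₊ with hX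
  have hX1 : (X : ℝ) ≤ κ * h := Nat.floor_le (by positivity)
  set S := (range X).filter (fun s => Nat.Coprime (1 + s) h) with hS
  let W : ℕ → ℤ → Finset ℕ := fun s b => T.filter (fun t => (h : ℤ) ∣ D' + b * (1 + s) * t)
  have hW : ∀ s ∈ S, ∀ b : ℤ, (b = 1 ∨ b = -1) → (W s b).card * Nat.totient h ≤ Nat.totient d := by
    intro s hs b hb
    refine class_count d h hd hhd _ (fun t ht => ?_) fun t ht t' ht' => ?_
    · exact ⟨(hT t (mem_filter.1 ht).1).1, (hT t (mem_filter.1 ht).1).2.1⟩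
    · have h1 := (mem_filter.1 ht).2
      have h2 := (mem_filter.1 ht').2
      have h3 : (h : ℤ) ∣ (b * (1 + s)) * ((t' : ℤ) - t) := by
        have h4 := dvd_sub h2 h1
        have h5 : (D' : ℤ) + b * (1 + s) * t' - (D' + b * (1 + s) * t) =
            (b * (1 + s)) * ((t' : ℤ) - t) := by ring
        rwa [h5] at h4
      have h4 : (h : ℤ) ∣ ((1 + s : ℕ) : ℤ) * ((t' : ℤ) - t) := by
        push_cast
        rcases hb with hb | hb
        · rw [hb, one_mul] at h3; exact h3
        · rw [hb] at h3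
          have h5 : (-1 : ℤ) * (1 + s) * ((t' : ℤ) - t) = -((1 + s) * ((t' : ℤ) - t)) := by ring
          rw [h5, dvd_neg] at h3
          exact h3
      have h5 : IsCoprime (h : ℤ) ((1 + s : ℕ) : ℤ) :=
        Nat.isCoprime_iff_coprime.2 (mem_filter.1 hs).2.symm
      have h6 : (h : ℤ) ∣ (t' : ℤ) - t := h5.dvd_of_dvd_mul_left h4
      exact (Nat.modEq_iff_dvd).2 h6
  have hsub : T ⊆ S.biUnion (fun s => W s 1 ∪ W s (-1)) := by
    intro t ht
    obtain ⟨htd, htc, u, hu0, huκ, hdvd⟩ := hT t ht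
    -- `G ∣ u`
    have hGu : (G : ℤ) ∣ u := by
      have h1 : (G : ℤ) ∣ D + u * t := (Int.natCast_dvd_natCast.2 ⟨h, hh⟩).trans hdvd
      have h2 : (G : ℤ) ∣ (D : ℤ) := Int.natCast_dvd_natCast.2 ⟨D', hD'⟩
      have h3 : (G : ℤ) ∣ u * t := (dvd_add_right h2).1 h1
      have h4 : IsCoprime (G : ℤ) (t : ℤ) :=
        Nat.isCoprime_iff_coprime.2 (Nat.Coprime.coprime_dvd_left ⟨h, hh⟩ htc.symm)
      exact h4.dvd_of_dvd_mul_right h3
    obtain ⟨u', hu'⟩ := hGu
    have hu'0 : u' ≠ 0 := by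
      rintro rfl
      exact hu0 (by rw [hu', mul_zero])
    have hdvd' : (h : ℤ) ∣ D' + u' * t := by
      have h1 : ((G : ℤ) * h) ∣ (G : ℤ) * (D' + u' * t) := by
        have h2 : (D : ℤ) + u * t = (G : ℤ) * (D' + u' * t) := by
          rw [hu', hD']; push_cast; ring
        have h3 : (d : ℤ) = (G : ℤ) * h := by rw [hh]; push_cast; ring
        rw [← h2, ← h3]
        exact hdvd
      exact (mul_dvd_mul_iff_left (by exact_mod_cast hG0.ne')).1 h1
    have hcu : Nat.Coprime u'.natAbs h := by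
      refine Nat.coprime_of_dvd fun q hq hq1 hq2 => ?_
      have h1 : (q : ℤ) ∣ D' + u' * t := (Int.natCast_dvd_natCast.2 hq2).trans hdvd'
      have h2 : (q : ℤ) ∣ u' := Int.natCast_dvd.2 hq1
      have h3 : (q : ℤ) ∣ D' := (dvd_add_left (h2.mul_right _)).1 h1
      have h4 : q ∣ D' := Int.natCast_dvd_natCast.1 h3
      have h5 : q ∣ Nat.gcd D' h := Nat.dvd_gcd h4 hq2
      rw [hcop] at h5
      exact hq.one_lt.not_ge (Nat.le_of_dvd one_pos h5)
    have hpos : 0 < u'.natAbs := Int.natAbs_pos.2 hu'0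
    have huX : u'.natAbs ≤ X := by
      refine Nat.le_floor ?_
      have h1 : u.natAbs = G * u'.natAbs := by rw [hu', Int.natAbs_mul, Int.natAbs_natCast]
      rw [h1] at huκ
      push_cast at huκ
      have h2 : (d : ℝ) = G * h := by rw [hh]; push_cast; ring
      rw [h2] at huκ
      have h3 : (0 : ℝ) < G := by exact_mod_cast hG0
      refine le_of_mul_le_mul_left ?_ h3
      calc (G : ℝ) * (u'.natAbs : ℝ) ≤ κ * (G * h) := huκ
        _ = G * (κ * h) := by ring
    obtain ⟨s, hs⟩ : ∃ s, u'.natAbs = 1 + s := ⟨u'.natAbs - 1, by omega⟩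
    rw [mem_biUnion]
    refine ⟨s, mem_filter.2 ⟨mem_range.2 (by omega), by rw [← hs]; exact hcu⟩, ?_⟩
    rw [mem_union]
    rcases Int.natAbs_eq u' with h1 | h1
    · left
      refine mem_filter.2 ⟨ht, ?_⟩
      rw [hs] at h1
      rw [h1] at hdvd'
      push_cast at hdvd'
      rw [one_mul]
      exact hdvd'
    · right
      refine mem_filter.2 ⟨ht, ?_⟩
      rw [hs] at h1
      rw [h1] at hdvd'
      push_cast at hdvd'
      have h2 : (-1 : ℤ) * (1 + s) * t = -(1 + s) * t := by ring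
      rw [h2]
      exact hdvd'
  have hcard : T.card * Nat.totient h ≤ S.card * (2 * Nat.totient d) := by
    calc T.card * Nat.totient h ≤ (S.biUnion (fun s => W s 1 ∪ W s (-1))).card * Nat.totient h :=
          Nat.mul_le_mul_right _ (card_le_card hsub)
      _ ≤ (∑ s ∈ S, (W s 1 ∪ W s (-1)).card) * Nat.totient h :=
          Nat.mul_le_mul_right _ card_biUnion_le
      _ = ∑ s ∈ S, (W s 1 ∪ W s (-1)).card * Nat.totient h := by rw [Finset.sum_mul]
      _ ≤ ∑ _s ∈ S, 2 * Nat.totient d := by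
          refine Finset.sum_le_sum fun s hs => ?_
          calc (W s 1 ∪ W s (-1)).card * Nat.totient h
              ≤ ((W s 1).card + (W s (-1)).card) * Nat.totient h :=
                Nat.mul_le_mul_right _ (card_union_le _ _)
            _ = (W s 1).card * Nat.totient h + (W s (-1)).card * Nat.totient h := by ring
            _ ≤ Nat.totient d + Nat.totient d :=
                Nat.add_le_add (hW s hs 1 (Or.inl rfl)) (hW s hs (-1) (Or.inr rfl))
            _ = 2 * Nat.totient d := by ring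
      _ = S.card * (2 * Nat.totient d) := by rw [Finset.sum_const, smul_eq_mul]
  have h1 : (T.card : ℝ) * Nat.totient h ≤ S.card * (2 * Nat.totient d) := by exact_mod_cast hcard
  have h2 : (S.card : ℝ) ≤ η * Nat.totient h := hshort h X hh0 hX1
  refine le_of_mul_le_mul_right ?_ hφh
  calc (T.card : ℝ) * Nat.totient h ≤ S.card * (2 * Nat.totient d) := h1
    _ ≤ η * Nat.totient h * (2 * Nat.totient d) := by gcongr
    _ = 2 * η * Nat.totient d * Nat.totient h := by ring

end Pool.Agent.SmallDeg
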