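import Pool.Agent.SmallDeg.ProdGeom
import Pool.Agent.MultiSpec.AsFinal

/-!
The beginning of the induction, with common prime factors.
-/

set_option autoImplicit false

namespace Pool.Agent.SmallDeg

open MvPolynomial Pool.Agent.CurveDeg

/-- Divisors with common prime factors: a prime dividing several of the `m i` needs the stronger
condition of `MultiSpec`. -/
theorem hasSp_base2 {n c : ℕ} (hc : 1 ≤ c) (hc2 : 2 ∣ c) (hcn : n.factorial ∣ c)
    (hT : ∀ (r : ℕ) (d : Fin r → ℕ) (k : Fin r) (p a : ℕ), p.Prime → p ^ a ∣ d k →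
      c * p ^ a ≤ d k → HasSpecial n r d (p ^ a / Nat.gcd (p ^ a) c))
    {r : ℕ} (e m : Fin r → ℕ) (h1 : ∀ i, 1 ≤ m i) (h2 : ∀ i, m i ∣ e i)
    (h3 : ∀ i, Nat.Coprime (m i) c)
    (h4 : ∀ i p, Nat.Prime p → p ∣ m i → c * p ^ (m i).factorization p ≤ e i)
    (h5 : ∀ i k p, i ≠ k → Nat.Prime p → p ∣ m i → p ∣ m k →
      2 ^ n * n.factorial * (p ^ (m i).factorization p) ^ n ≤ e i) :
    HasSp n r e (mult 1 (∏ i, m i)) := by
  classical
  have hm0 : ∀ i, m i ≠ 0 := fun i => Nat.one_le_iff_ne_zero.1 (h1 i)
  have hM : (∏ i, m i) ≠ 0 := Finset.prod_ne_zero_iff.2 fun i _ => hm0 i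
  have hfac : ∀ p, (∏ i, m i).factorization p = ∑ i, (m i).factorization p := by
    intro p
    rw [Nat.factorization_prod fun i _ => hm0 i, Finsupp.finset_sum_apply]
  have key : ∀ p ∈ (∏ i, m i).primeFactors,
      HasSp n r e (mult 1 (p ^ (∏ i, m i).factorization p)) := by
    intro p hp
    have hpp := Nat.prime_of_mem_primeFactors hp
    obtain ⟨i, -, hi⟩ := (Prime.dvd_finset_prod_iff hpp.prime _).1 (Nat.dvd_of_mem_primeFactors hp)
    have hpc : Nat.Coprime p c := (h3 i).coprime_dvd_left hi
    by_cases hu : ∃ k, k ≠ i ∧ p ∣ m k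
    · obtain ⟨k, hki, hk⟩ := hu
      have hp2 : p ≠ 2 := by
        rintro rfl
        exact (Nat.Prime.coprime_iff_not_dvd hpp).1 hpc hc2
      have hnp : n < p := by
        by_contra hle
        exact (Nat.Prime.coprime_iff_not_dvd hpp).1 hpc
          (((Nat.Prime.dvd_factorial hpp).2 (not_lt.1 hle)).trans hcn)
      have hs := MultiSpec.hasSpecial (n := n) hpp hp2 hnp (fun j => (m j).factorization p) e
        (fun j => by
          by_cases hj : p ∣ m j
          · right; right
            refine ⟨(Nat.ordProj_dvd _ _).trans (h2 j), ?_⟩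
            by_cases hji : j = i
            · subst hji
              exact h5 j k p (Ne.symm hki) hpp hj hk
            · exact h5 j i p hji hpp hj hi
          · left
            exact Nat.factorization_eq_zero_of_not_dvd hj)
      refine hasSp_of_hasSpecial hs ?_
      rw [one_mul, hfac]
    · have hu' : ∀ k, k ≠ i → (m k).factorization p = 0 := fun k hk =>
        Nat.factorization_eq_zero_of_not_dvd fun h => hu ⟨k, hk, h⟩
      have hsum : (∏ i, m i).factorization p = (m i).factorization p := by
        rw [hfac]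
        exact Finset.sum_eq_single i (fun k _ hk => hu' k hk)
          (fun h => absurd (Finset.mem_univ i) h)
      have hs := hT r e i p ((m i).factorization p) hpp ((Nat.ordProj_dvd _ _).trans (h2 i))
        (h4 i p hpp hi)
      refine hasSp_of_hasSpecial hs ?_
      have hg : Nat.gcd (p ^ (m i).factorization p) c = 1 := hpc.pow_left _
      rw [hsum, hg, Nat.div_one, one_mul]
  refine (HasSp.finset_inf (∏ i, m i).primeFactors _ key).mono fun x hx => ?_
  rw [mem_mult, one_mul]
  have hall : ∀ p ∈ (∏ i, m i).primeFactors, p ^ (∏ i, m i).factorization p ∣ x := by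
    intro p hp
    have hle : (∏ i, m i).primeFactors.inf
        (fun p => mult 1 (p ^ (∏ i, m i).factorization p)) ≤ mult 1 (p ^ (∏ i, m i).factorization p) :=
      Finset.inf_le hp
    have := hle hx
    rwa [mem_mult, one_mul] at this
  have hprod : ∀ s : Finset ℕ, s ⊆ (∏ i, m i).primeFactors →
      (∏ p ∈ s, p ^ (∏ i, m i).factorization p) ∣ x := by
    intro s hs
    refine Finset.prod_dvd_of_isRelPrime ?_ fun p hp => hall p (hs hp)
    intro p hp q hq hpq
    exact Nat.coprime_iff_isRelPrime.1 (Nat.Coprime.pow _ _ ((Nat.coprime_primes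
      (Nat.prime_of_mem_primeFactors (hs hp)) (Nat.prime_of_mem_primeFactors (hs hq))).2 hpq))
  have h6 := hprod _ (Finset.Subset.refl _)
  have h7 : ∏ p ∈ (∏ i, m i).primeFactors, p ^ (∏ i, m i).factorization p = ∏ i, m i :=
    Nat.prod_factorization_pow_eq_self hM
  rwa [h7] at h6

end Pool.Agent.SmallDeg
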