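import Pool.Agent.SmallProd54.Sieve
import Pool.Agent.Lib.ANT.DivBound

/-!
Numbers prime to a modulus in short intervals.
-/

set_option autoImplicit false

namespace Pool.Agent.SmallDeg

open Finset Pool.Agent.SmallProd54

lemma dens_nonneg2 {R : ℕ → Finset ℕ} {P : Finset ℕ} (hR : ∀ q ∈ P, (R q).card ≤ q) :
    0 ≤ dens R P := by
  refine Finset.prod_nonneg fun q hq => ?_
  have h2 : ((R q).card : ℝ) ≤ q := by exact_mod_cast hR q hq
  have h3 : ((R q).card : ℝ) / q ≤ 1 := div_le_one_of_le₀ h2 (Nat.cast_nonneg q)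
  linarith

lemma dens_le_one2 {R : ℕ → Finset ℕ} {P : Finset ℕ} (hR : ∀ q ∈ P, (R q).card ≤ q) :
    dens R P ≤ 1 := by
  refine Finset.prod_le_one (fun q hq => ?_) fun q hq => ?_
  · have h2 : ((R q).card : ℝ) ≤ q := by exact_mod_cast hR q hq
    have h3 : ((R q).card : ℝ) / q ≤ 1 := div_le_one_of_le₀ h2 (Nat.cast_nonneg q)
    linarith
  · have : (0:ℝ) ≤ ((R q).card : ℝ) / q := by positivity
    linarith

/-- The sieve of helper54 with the prime `2` allowed. -/
theorem cnt_bound2 (R : ℕ → Finset ℕ) (P : Finset ℕ) (hP : ∀ q ∈ P, q.Prime)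
    (hR : ∀ q ∈ P, (R q).card ≤ 2) (hRq : ∀ q ∈ P, (R q).card ≤ q)
    (hR' : ∀ q ∈ P, ∀ ρ ∈ R q, ρ < q) :
    ∀ c e T : ℕ, (∀ q ∈ P, Nat.Coprime e q) →
      |(cnt R P c e T : ℝ) - T * dens R P| ≤ 5 ^ P.card := by
  induction P using Finset.induction_on with
  | empty =>
    intro c e T _
    simp [cnt, SmallProd54.dens]
  | insert q P hq ih =>
    intro c e T he
    have hqp := hP q (mem_insert_self q P)
    have hq0 : 0 < q := hqp.pos
    have hP' : ∀ p ∈ P, p.Prime := fun p hp => hP p (mem_insert_of_mem hp)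
    have hRP : ∀ p ∈ P, (R p).card ≤ 2 := fun p hp => hR p (mem_insert_of_mem hp)
    have hRPq : ∀ p ∈ P, (R p).card ≤ p := fun p hp => hRq p (mem_insert_of_mem hp)
    have hRP' : ∀ p ∈ P, ∀ ρ ∈ R p, ρ < p := fun p hp => hR' p (mem_insert_of_mem hp)
    have ih' := ih hP' hRP hRPq hRP'
    have heq : Nat.Coprime e q := he q (mem_insert_self q P)
    have hdn : 0 ≤ dens R P := dens_nonneg2 hRPq
    have hd1 : dens R P ≤ 1 := dens_le_one2 hRPq
    have hcl : ∀ ρ ∈ R q, |(((range T).filter (fun s => (c + e * s) % q = ρ ∧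
        ∀ p ∈ P, (c + e * s) % p ∉ R p)).card : ℝ) - (T:ℝ) / q * dens R P| ≤ 5 ^ P.card + 1 := by
      intro ρ hρ
      obtain ⟨c', T', h1, h2⟩ := cnt_class R P c e T q ρ hq0 heq (hR' q (mem_insert_self q P) ρ hρ)
      rw [h1]
      have h3 := ih' c' (e * q) T' (fun p hp => by
        refine Nat.Coprime.mul_left (he p (mem_insert_of_mem hp)) ?_
        rw [Nat.coprime_primes hqp (hP' p hp)]
        rintro rfl
        exact hq hp)
      have h4 : (cnt R P c' (e * q) T' : ℝ) - (T:ℝ) / q * dens R P =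
          ((cnt R P c' (e * q) T' : ℝ) - T' * dens R P) + ((T':ℝ) - (T:ℝ) / q) * dens R P := by ring
      rw [h4]
      refine (abs_add_le _ _).trans ?_
      have h5 : |((T':ℝ) - (T:ℝ) / q) * dens R P| ≤ 1 := by
        rw [abs_mul, abs_of_nonneg hdn]
        calc |(T':ℝ) - (T:ℝ) / q| * dens R P ≤ 1 * 1 := by gcongr
          _ = 1 := by ring
      linarith
    have hdec : cnt R P c e T = cnt R (insert q P) c e T + ∑ ρ ∈ R q,
        ((range T).filter (fun s => (c + e * s) % q = ρ ∧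
          ∀ p ∈ P, (c + e * s) % p ∉ R p)).card := by
      unfold cnt
      have h1 : ((range T).filter (fun s => ∀ p ∈ P, (c + e * s) % p ∉ R p)) =
          ((range T).filter (fun s => ∀ p ∈ insert q P, (c + e * s) % p ∉ R p)) ∪
          (R q).biUnion (fun ρ => (range T).filter (fun s => (c + e * s) % q = ρ ∧
            ∀ p ∈ P, (c + e * s) % p ∉ R p)) := by
        ext s
        simp only [mem_union, mem_filter, mem_range, mem_biUnion, mem_insert, forall_eq_or_imp]
        constructor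
        · rintro ⟨h1, h2⟩
          by_cases h3 : (c + e * s) % q ∈ R q
          · right
            exact ⟨_, h3, h1, rfl, h2⟩
          · left
            exact ⟨h1, h3, h2⟩
        · rintro (⟨h1, _, h2⟩ | ⟨ρ, _, h1, _, h2⟩)
          · exact ⟨h1, h2⟩
          · exact ⟨h1, h2⟩
      rw [h1, card_union_of_disjoint, card_biUnion]
      · intro x _ y _ hxy
        rw [Function.onFun, Finset.disjoint_left]
        intro s hs hs'
        rw [mem_filter] at hs hs'
        exact hxy (hs.2.1.symm.trans hs'.2.1)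
      · rw [Finset.disjoint_left]
        intro s hs hs'
        rw [mem_filter] at hs
        rw [mem_biUnion] at hs'
        obtain ⟨ρ, hρ, hs'⟩ := hs'
        rw [mem_filter] at hs'
        have := hs.2 q (mem_insert_self q P)
        rw [hs'.2.1] at this
        exact this hρ
    have hdec' : (cnt R (insert q P) c e T : ℝ) = (cnt R P c e T : ℝ) - ∑ ρ ∈ R q,
        (((range T).filter (fun s => (c + e * s) % q = ρ ∧
          ∀ p ∈ P, (c + e * s) % p ∉ R p)).card : ℝ) := by
      rw [hdec]; push_cast; ring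
    have hdens : dens R (insert q P) = (1 - ((R q).card : ℝ) / q) * dens R P := by
      unfold SmallProd54.dens
      rw [prod_insert hq]
    have hsum : |∑ ρ ∈ R q, (((range T).filter (fun s => (c + e * s) % q = ρ ∧
          ∀ p ∈ P, (c + e * s) % p ∉ R p)).card : ℝ) - (R q).card * ((T:ℝ) / q * dens R P)| ≤
          2 * (5 ^ P.card + 1) := by
      have h1 : ∑ ρ ∈ R q, (((range T).filter (fun s => (c + e * s) % q = ρ ∧
          ∀ p ∈ P, (c + e * s) % p ∉ R p)).card : ℝ) - (R q).card * ((T:ℝ) / q * dens R P) =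
          ∑ ρ ∈ R q, ((((range T).filter (fun s => (c + e * s) % q = ρ ∧
          ∀ p ∈ P, (c + e * s) % p ∉ R p)).card : ℝ) - (T:ℝ) / q * dens R P) := by
        rw [sum_sub_distrib, sum_const, nsmul_eq_mul]
      rw [h1]
      refine (Finset.abs_sum_le_sum_abs _ _).trans ((Finset.sum_le_sum hcl).trans ?_)
      rw [sum_const, nsmul_eq_mul]
      have : ((R q).card : ℝ) ≤ 2 := by exact_mod_cast hR q (mem_insert_self q P)
      gcongr
    have h0 := ih' c e T (fun p hp => he p (mem_insert_of_mem hp))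
    rw [card_insert_of_notMem hq, pow_succ, hdens, hdec']
    rw [abs_le] at h0 hsum ⊢
    have h5 : (1:ℝ) ≤ 5 ^ P.card := one_le_pow₀ (by norm_num)
    have e1 : (T:ℝ) * ((1 - ((R q).card : ℝ) / q) * dens R P) =
        T * dens R P - (R q).card * ((T:ℝ) / q * dens R P) := by ring
    rw [e1]
    constructor <;> linarith [h0.1, h0.2, hsum.1, hsum.2]

/-- The density of the numbers prime to `h`. -/
lemma dens_zero (h : ℕ) : (h : ℝ) * dens (fun _ => {0}) h.primeFactors = (Nat.totient h : ℝ) := by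
  have h1 := Nat.totient_eq_mul_prod_factors h
  have h2 : ((Nat.totient h : ℚ) : ℝ) = ((h * ∏ p ∈ h.primeFactors, (1 - (p : ℚ)⁻¹) : ℚ) : ℝ) := by
    rw [h1]
  push_cast at h2
  rw [h2, SmallProd54.dens]
  congr 1
  refine Finset.prod_congr rfl fun p _ => ?_
  rw [card_singleton, Nat.cast_one, one_div]

/-- `φ(h) 2^ω(h) ≥ h`. -/
lemma le_totient_mul (h : ℕ) : (h : ℝ) ≤ Nat.totient h * 2 ^ h.primeFactors.card := by
  rw [← dens_zero, SmallProd54.dens, mul_assoc, ← Finset.prod_const, ← Finset.prod_mul_distrib]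
  have h1 : (1 : ℝ) ≤ ∏ q ∈ h.primeFactors, ((1 - (({0} : Finset ℕ).card : ℝ) / q) * 2) := by
    refine (Finset.prod_const_one (s := h.primeFactors)).symm.le.trans ?_
    refine Finset.prod_le_prod (fun _ _ => zero_le_one) fun q hq => ?_
    have hq2 : (2 : ℝ) ≤ q := by exact_mod_cast (Nat.prime_of_mem_primeFactors hq).two_le
    rw [card_singleton, Nat.cast_one]
    have h3 : (1 : ℝ) / q ≤ 1 / 2 := one_div_le_one_div_of_le (by norm_num) hq2
    linarith
  exact le_mul_of_one_le_right (Nat.cast_nonneg h) h1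

/-- The numbers prime to `h` in an interval. -/
lemma coprime_count (h c T : ℕ) (hh : h ≠ 0) :
    |(((range T).filter (fun s => Nat.Coprime (c + s) h)).card : ℝ) - T * (Nat.totient h / h)| ≤
      5 ^ h.primeFactors.card := by
  have h1 := cnt_bound2 (fun _ => {0}) h.primeFactors
    (fun q hq => Nat.prime_of_mem_primeFactors hq) (fun q _ => by rw [card_singleton]; norm_num)
    (fun q hq => by rw [card_singleton]; exact (Nat.prime_of_mem_primeFactors hq).one_le)
    (fun q hq ρ hρ => by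
      rw [mem_singleton] at hρ
      rw [hρ]
      exact (Nat.prime_of_mem_primeFactors hq).pos) c 1 T (fun q _ => Nat.coprime_one_left q)
  have h2 : cnt (fun _ => {0}) h.primeFactors c 1 T =
      ((range T).filter (fun s => Nat.Coprime (c + s) h)).card := by
    rw [cnt]
    congr 1
    refine Finset.filter_congr fun s _ => ?_
    rw [one_mul]
    constructor
    · intro h3
      refine Nat.coprime_of_dvd fun q hq hq1 hq2 => ?_
      exact h3 q (Nat.mem_primeFactors.2 ⟨hq, hq2, hh⟩)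
        (mem_singleton.2 (Nat.mod_eq_zero_of_dvd hq1))
    · intro h3 q hq h4
      rw [mem_singleton] at h4
      have hqp := Nat.prime_of_mem_primeFactors hq
      have h5 : q ∣ Nat.gcd (c + s) h :=
        Nat.dvd_gcd (Nat.dvd_of_mod_eq_zero h4) (Nat.dvd_of_mem_primeFactors hq)
      rw [h3] at h5
      exact hqp.one_lt.not_ge (Nat.le_of_dvd one_pos h5)
  rw [h2] at h1
  have h3 : dens (fun _ => {0}) h.primeFactors = (Nat.totient h / h : ℝ) := by
    have h4 : (h : ℝ) ≠ 0 := by exact_mod_cast hh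
    rw [eq_div_iff h4, mul_comm]
    exact dens_zero h
  rw [h3] at h1
  exact h1

/-- `5^ω(h)` is small compared with `φ(h)`. -/
lemma pow_omega_small : ∃ C : ℝ, 1 ≤ C ∧ ∀ h : ℕ, h ≠ 0 →
    (5 : ℝ) ^ h.primeFactors.card ≤ C * Nat.totient h * (h : ℝ) ^ (-(1 / 2 : ℝ)) := by
  obtain ⟨C, hC, h1⟩ := Pool.Agent.ANT.pow_omega_le (ε := (1 / 2 : ℝ)) (by norm_num) (c := 10)
    (by norm_num)
  refine ⟨C, hC, fun h hh => ?_⟩
  have h0 : (0 : ℝ) < h := by exact_mod_cast Nat.pos_of_ne_zero hh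
  have h2 := le_totient_mul h
  have h3 := h1 h hh
  have h4 : (10 : ℝ) ^ h.primeFactors.card =
      5 ^ h.primeFactors.card * 2 ^ h.primeFactors.card := by
    rw [← mul_pow]; norm_num
  have h5 : (5 : ℝ) ^ h.primeFactors.card * h ≤
      C * Nat.totient h * (h : ℝ) ^ (1 / 2 : ℝ) := by
    calc (5 : ℝ) ^ h.primeFactors.card * h
        ≤ 5 ^ h.primeFactors.card * (Nat.totient h * 2 ^ h.primeFactors.card) := by gcongr
      _ = Nat.totient h * (10 : ℝ) ^ h.primeFactors.card := by rw [h4]; ring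
      _ ≤ Nat.totient h * (C * (h : ℝ) ^ (1 / 2 : ℝ)) := by gcongr
      _ = _ := by ring
  have h6 : (h : ℝ) ^ (1 / 2 : ℝ) = (h : ℝ) ^ (-(1 / 2 : ℝ)) * h := by
    rw [← Real.rpow_add_one h0.ne']
    norm_num
  rw [h6, ← mul_assoc] at h5
  exact le_of_mul_le_mul_right h5 h0

/-- Few numbers `≤ κ h` are prime to `h` when `κ` is small. -/
theorem coprime_short (η : ℝ) (hη : 0 < η) : ∃ κ : ℝ, 0 < κ ∧ κ ≤ 1 ∧ ∀ h X : ℕ, 1 ≤ h →
    (X : ℝ) ≤ κ * h →
      (((range X).filter (fun s => Nat.Coprime (1 + s) h)).card : ℝ) ≤ η * Nat.totient h := by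
  obtain ⟨C, hC, hsm⟩ := pow_omega_small
  have hC0 : 0 < C := by linarith
  set κ : ℝ := min 1 (min (η / 2) ((η / (2 * C)) ^ 2)) with hκ
  have hκ0 : 0 < κ := by
    refine lt_min one_pos (lt_min (by positivity) (by positivity))
  have hκ1 : κ ≤ 1 := min_le_left _ _
  have hκ2 : κ ≤ η / 2 := (min_le_right _ _).trans (min_le_left _ _)
  have hκ3 : κ ≤ (η / (2 * C)) ^ 2 := (min_le_right _ _).trans (min_le_right _ _)
  refine ⟨κ, hκ0, hκ1, fun h X hh hX => ?_⟩
  have hh0 : h ≠ 0 := by omega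
  have hhr : (0 : ℝ) < h := by exact_mod_cast hh
  have hφ : (0 : ℝ) ≤ Nat.totient h := Nat.cast_nonneg _
  rcases Nat.eq_zero_or_pos X with hX0 | hX0
  · rw [hX0, range_zero, filter_empty, card_empty, Nat.cast_zero]
    positivity
  have hX1 : (1 : ℝ) ≤ X := by exact_mod_cast hX0
  have hκh : 1 ≤ κ * h := hX1.trans hX
  have h1 := coprime_count h 1 X hh0
  rw [abs_le] at h1
  have h2 : (X : ℝ) * (Nat.totient h / h) ≤ η / 2 * Nat.totient h := by
    calc (X : ℝ) * (Nat.totient h / h) ≤ κ * h * (Nat.totient h / h) := by gcongr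
      _ = κ * Nat.totient h := by field_simp
      _ ≤ η / 2 * Nat.totient h := by gcongr
  have h3 : (5 : ℝ) ^ h.primeFactors.card ≤ η / 2 * Nat.totient h := by
    refine (hsm h hh0).trans ?_
    have h4 : (h : ℝ) ^ (-(1 / 2 : ℝ)) ≤ η / (2 * C) := by
      have h5 : κ⁻¹ ≤ h := by
        rw [inv_le_iff_one_le_mul₀' hκ0]
        exact hκh
      have h6 : (h : ℝ) ^ (-(1 / 2 : ℝ)) ≤ (κ⁻¹) ^ (-(1 / 2 : ℝ)) :=
        Real.rpow_le_rpow_of_nonpos (inv_pos.2 hκ0) h5 (by norm_num)
      have h7 : (κ⁻¹) ^ (-(1 / 2 : ℝ)) = κ ^ (1 / 2 : ℝ) := by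
        rw [Real.inv_rpow hκ0.le, ← Real.rpow_neg hκ0.le, neg_neg]
      have h8 : κ ^ (1 / 2 : ℝ) ≤ ((η / (2 * C)) ^ 2) ^ (1 / 2 : ℝ) :=
        Real.rpow_le_rpow hκ0.le hκ3 (by norm_num)
      have h9 : ((η / (2 * C)) ^ 2) ^ (1 / 2 : ℝ) = η / (2 * C) := by
        rw [← Real.sqrt_eq_rpow, Real.sqrt_sq (by positivity)]
      rw [h7] at h6
      rw [h9] at h8
      exact h6.trans h8
    calc C * Nat.totient h * (h : ℝ) ^ (-(1 / 2 : ℝ))
        ≤ C * Nat.totient h * (η / (2 * C)) := by gcongr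
      _ = η / 2 * Nat.totient h := by field_simp
  linarith [h1.2]

end Pool.Agent.SmallDeg
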