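import Pool.Agent.SmallDeg.Main3
import Pool.Agent.SmallProd54.ExcB

/-!
The exceptional set of both thresholds.
-/

set_option autoImplicit false

namespace Pool.Agent.SmallDeg

open Finset

open Classical in
/-- The exceptional set of the power threshold is small. -/
def ExcM (F n r : ℕ) : Prop := ∀ η : ℝ, 0 < η → ∃ d0 : ℕ, ∀ d : ℕ, d0 ≤ d → ∀ M : ℕ, 1 ≤ M →
  M ≤ d ^ r → (((range (d + 1)).filter (fun μ => ∃ p : ℕ, p.Prime ∧ p ∣ M ∧ p ∣ μ ∧
    d < 8 * F * (p ^ μ.factorization p) ^ n)).card : ℝ) ≤ η * Nat.totient d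

theorem exc_all (hA : ∀ K : ℝ, ∃ d0 : ℕ, ∀ d : ℕ, d0 ≤ d → K * d / Real.log d ≤ Nat.totient d)
    {n F r : ℕ} (c : ℕ) (hM : ExcM F n r) : Exc n c F r := by
  classical
  intro η hη
  obtain ⟨d1, h1⟩ := SmallProd54.exc_T_of hA c (η / 2) (by positivity)
  obtain ⟨d2, h2⟩ := hM (η / 2) (by positivity)
  refine ⟨d1 + d2, fun d hd M hM1 hMd => ?_⟩
  have h3 := h1 d (by omega)
  have h4 := h2 d (by omega) M hM1 hMd
  refine ⟨((range (d + 1)).filter (fun μ => ∃ p : ℕ, p.Prime ∧ p ∣ μ ∧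
      d < 8 * c * p ^ μ.factorization p)) ∪ ((range (d + 1)).filter (fun μ => ∃ p : ℕ,
      p.Prime ∧ p ∣ M ∧ p ∣ μ ∧ d < 8 * F * (p ^ μ.factorization p) ^ n)), ?_, ?_⟩
  · have h5 := card_union_le ((range (d + 1)).filter (fun μ => ∃ p : ℕ, p.Prime ∧ p ∣ μ ∧
      d < 8 * c * p ^ μ.factorization p)) ((range (d + 1)).filter (fun μ => ∃ p : ℕ,
      p.Prime ∧ p ∣ M ∧ p ∣ μ ∧ d < 8 * F * (p ^ μ.factorization p) ^ n))
    have h6 : ((((range (d + 1)).filter (fun μ => ∃ p : ℕ, p.Prime ∧ p ∣ μ ∧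
      d < 8 * c * p ^ μ.factorization p)) ∪ ((range (d + 1)).filter (fun μ => ∃ p : ℕ,
      p.Prime ∧ p ∣ M ∧ p ∣ μ ∧ d < 8 * F * (p ^ μ.factorization p) ^ n))).card : ℝ) ≤
      (((range (d + 1)).filter (fun μ => ∃ p : ℕ, p.Prime ∧ p ∣ μ ∧
      d < 8 * c * p ^ μ.factorization p)).card : ℝ) + (((range (d + 1)).filter (fun μ => ∃ p : ℕ,
      p.Prime ∧ p ∣ M ∧ p ∣ μ ∧ d < 8 * F * (p ^ μ.factorization p) ^ n)).card : ℝ) := by
      exact_mod_cast h5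
    have h7 : η * (Nat.totient d : ℝ) = η / 2 * Nat.totient d + η / 2 * Nat.totient d := by ring
    rw [h7]
    refine h6.trans (add_le_add ?_ ?_)
    · convert h3 using 3
    · convert h4 using 3
  · intro μ hμ hμE
    rw [mem_union, not_or, mem_filter, mem_filter, not_and, not_and] at hμE
    have hr : μ ∈ range (d + 1) := mem_range.2 (by omega)
    refine ⟨fun p hp hpμ => ?_, fun p hp hpM hpμ => ?_⟩
    · by_contra hcon
      exact hμE.1 hr ⟨p, hp, hpμ, not_le.1 hcon⟩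
    · by_contra hcon
      exact hμE.2 hr ⟨p, hp, hpM, hpμ, not_le.1 hcon⟩

end Pool.Agent.SmallDeg
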