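import Pool.Agent.SmallDeg.Semi

/-!
The reduction for countably many conditions; finite intersections.
-/

set_option autoImplicit false

namespace Pool.Agent.SmallDeg

open MvPolynomial Pool.Agent.CurveDeg

/-- The bad polynomials for one condition. -/
lemma exists_bad_sp' {n r : ℕ} (d : Fin r → ℕ) {S : AddSubmonoid ℕ} (h : HasSp n r d S) :
    ∃ bad : ℕ → MvPolynomial (Σ i : Fin r, Mon (Fin (n + r + 1)) (d i)) ℂ, (∀ j, bad j ≠ 0) ∧
      ∀ f : Fin r → MvPolynomial (Fin (n + r + 1)) ℂ,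
        (∀ i, f i ∈ homogeneousSubmodule (Fin (n + r + 1)) ℂ (d i)) →
        (∀ j, eval (fun x => coeff x.2.1 (f x.1)) (bad j) ≠ 0) →
        ∀ I : Ideal (MvPolynomial (Fin (n + r + 1)) ℂ), Homog I → (∀ i, f i ∈ I) →
        ∀ e : ℕ, EvAffine (hilb I) e → e ∈ S := by
  obtain ⟨K₀, _, _, _, g, hg, hS⟩ := h
  obtain ⟨φ⟩ := exists_embedding K₀
  let _ : Algebra K₀ ℂ := φ.toAlgebra
  obtain ⟨bad, hbad0, hbad⟩ := exists_bad_over (Σ i : Fin r, Mon (Fin (n + r + 1)) (d i)) K₀
  refine ⟨bad, hbad0, fun f hf hbadf I hI hfI e he => ?_⟩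
  exact slope_mem_of_generic d f hf (hbad _ hbadf) g hg S hS I hI hfI e he

/-- **Reduction** for countably many conditions. -/
theorem main_of_family (n r : ℕ) (d : Fin r → ℕ) {ι : Type} [Encodable ι]
    (S : ι → AddSubmonoid ℕ) :
    ∃ bad : ℕ → MvPolynomial (Σ i : Fin r, {m : Fin (n + r + 1) →₀ ℕ // m.degree = d i}) ℂ,
      (∀ j, bad j ≠ 0) ∧
      ∀ f : Fin r → MvPolynomial (Fin (n + r + 1)) ℂ,
        (∀ i, f i ∈ homogeneousSubmodule (Fin (n + r + 1)) ℂ (d i)) →
        (∀ j, eval (fun x => coeff x.2.1 (f x.1)) (bad j) ≠ 0) →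
        ∀ I : Ideal (MvPolynomial (Fin (n + r + 1)) ℂ), Homog I →
          ringKrullDim (MvPolynomial (Fin (n + r + 1)) ℂ ⧸ I) = 2 →
          (∀ i, f i ∈ I) →
          ∃ e : ℕ, (∃ K : ℕ, ∀ k : ℕ, K ≤ k → hilb I (k + 1) = hilb I k + e) ∧
            ∀ i : ι, HasSp n r d (S i) → e ∈ S i := by
  classical
  have hex : ∀ i : ι, ∃ bad : ℕ → MvPolynomial (Σ i : Fin r, Mon (Fin (n + r + 1)) (d i)) ℂ,
      (∀ j, bad j ≠ 0) ∧ (HasSp n r d (S i) →
      ∀ f : Fin r → MvPolynomial (Fin (n + r + 1)) ℂ,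
        (∀ i, f i ∈ homogeneousSubmodule (Fin (n + r + 1)) ℂ (d i)) →
        (∀ j, eval (fun x => coeff x.2.1 (f x.1)) (bad j) ≠ 0) →
        ∀ I : Ideal (MvPolynomial (Fin (n + r + 1)) ℂ), Homog I → (∀ i, f i ∈ I) →
        ∀ e : ℕ, EvAffine (hilb I) e → e ∈ S i) := by
    intro i
    by_cases h : HasSp n r d (S i)
    · obtain ⟨bad, h1, h2⟩ := exists_bad_sp' d h
      exact ⟨bad, h1, fun _ => h2⟩
    · exact ⟨fun _ => 1, fun _ => one_ne_zero, fun h' => absurd h' h⟩
  choose bad hbad0 hbad using hex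
  let bad' : ℕ → ℕ → MvPolynomial (Σ i : Fin r, Mon (Fin (n + r + 1)) (d i)) ℂ := fun a b =>
    match (Encodable.decode a : Option ι) with
    | some i => bad i b
    | none => 1
  have hbad'0 : ∀ a b, bad' a b ≠ 0 := by
    intro a b
    cases h : (Encodable.decode a : Option ι) with
    | some i =>
      have : bad' a b = bad i b := by simp only [bad', h]
      rw [this]; exact hbad0 i b
    | none =>
      have : bad' a b = 1 := by simp only [bad', h]
      rw [this]; exact one_ne_zero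
  have hbad'1 : ∀ (i : ι) (b : ℕ), bad' (Encodable.encode i) b = bad i b := by
    intro i b
    simp only [bad', Encodable.encodek]
  refine ⟨fun j => bad' (Nat.unpair j).1 (Nat.unpair j).2, fun j => hbad'0 _ _, ?_⟩
  intro f hf hbadf I hI hdim hfI
  obtain ⟨e, he⟩ := evAffine_of_growth I hI (growth_two I hI hdim.le)
  have he0 := he.slope_nonneg
  obtain ⟨m, rfl⟩ := Int.eq_ofNat_of_zero_le he0
  refine ⟨m, ?_, ?_⟩
  · obtain ⟨c', K, hK⟩ := he
    refine ⟨K, fun k hk => ?_⟩
    have h1 := hK k hk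
    have h2 := hK (k + 1) (by omega)
    have h3 : ((hilb I (k + 1) : ℕ) : ℤ) = (hilb I k : ℤ) + (m : ℤ) := by
      rw [h2, h1]; push_cast; ring
    exact_mod_cast h3
  · intro i hM
    exact hbad i hM f hf (fun j => by
      have := hbadf (Nat.pair (Encodable.encode i) j)
      beta_reduce at this
      rw [Nat.unpair_pair] at this
      rwa [← hbad'1 i j]) I hI hfI m he

/-- Finite intersections. -/
theorem HasSp.finset_inf {n r : ℕ} {d : Fin r → ℕ} {ι : Type} (s : Finset ι)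
    (S : ι → AddSubmonoid ℕ) (h : ∀ i ∈ s, HasSp n r d (S i)) : HasSp n r d (s.inf S) := by
  classical
  induction s using Finset.induction_on with
  | empty =>
    exact (hasSp_one n r d 1).mono (by rw [Finset.inf_empty]; exact le_top)
  | insert i s hi ih =>
    rw [Finset.inf_insert]
    exact (h i (Finset.mem_insert_self i s)).inter
      (ih fun j hj => h j (Finset.mem_insert_of_mem hj))

/-- The numbers `e` with `B ≤ e` or `Q ∣ c e`. -/
def sq (c Q : ℕ) (B : ℝ) : AddSubmonoid ℕ where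
  carrier := {e | B ≤ e ∨ Q ∣ c * e}
  zero_mem' := Or.inr (by simp)
  add_mem' := by
    rintro a b (ha | ha) (hb | hb)
    · left
      push_cast
      have : (0 : ℝ) ≤ b := Nat.cast_nonneg b
      linarith
    · left
      push_cast
      have : (0 : ℝ) ≤ b := Nat.cast_nonneg b
      linarith
    · left
      push_cast
      have : (0 : ℝ) ≤ a := Nat.cast_nonneg a
      linarith
    · right
      rw [mul_add]
      exact dvd_add ha hb

lemma mem_sq {c Q : ℕ} {B : ℝ} {e : ℕ} : e ∈ sq c Q B ↔ B ≤ e ∨ Q ∣ c * e := Iff.rfl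

end Pool.Agent.SmallDeg
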