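import Pool.Agent.SmallDeg.Slopes

/-!
Special forms with a condition on the slopes, and generic forms.
-/

set_option autoImplicit false

namespace Pool.Agent.SmallDeg

open MvPolynomial Pool.Agent.CurveDeg

/-- The slopes of all homogeneous primes containing the forms `g` over extensions of `K₀` are
in `S`. -/
def SlopesIn {σ : Type} {r : ℕ} (K₀ : Type) [Field K₀] (g : Fin r → MvPolynomial σ K₀)
    (S : AddSubmonoid ℕ) : Prop :=
  ∀ (κ : Type) [Field κ] [IsAlgClosed κ] [CharZero κ] [Algebra K₀ κ]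
    (P : Ideal (MvPolynomial σ κ)), Homog P → P.IsPrime →
    (∀ i, map (algebraMap K₀ κ) (g i) ∈ P) → ∀ e : ℕ, EvAffine (hilb P) e → e ∈ S

/-- There are special forms over a countable field, of degrees `d i`, such that the degree of
every curve on their zero set is in `S`. -/
def HasSp (n r : ℕ) (d : Fin r → ℕ) (S : AddSubmonoid ℕ) : Prop :=
  ∃ (K₀ : Type) (_ : Field K₀) (_ : CharZero K₀) (_ : Countable K₀)
    (g : Fin r → MvPolynomial (Fin (n + r + 1)) K₀),
    (∀ i, g i ∈ homogeneousSubmodule (Fin (n + r + 1)) K₀ (d i)) ∧ SlopesIn K₀ g S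

/-- Generic forms inherit the condition on the slopes from special forms. -/
theorem slope_mem_of_generic {σ : Type} [Finite σ] {r : ℕ} (d : Fin r → ℕ) {K₀ L : Type}
    [Field K₀] [CharZero K₀] [Field L] [IsAlgClosed L] [Algebra K₀ L]
    (f : Fin r → MvPolynomial σ L)
    (hf : ∀ i, f i ∈ homogeneousSubmodule σ L (d i))
    (hgen : ∀ q : MvPolynomial (Σ i : Fin r, Mon σ (d i)) K₀, q ≠ 0 →
      aeval (fun x => coeff x.2.1 (f x.1)) q ≠ 0)
    (g : Fin r → MvPolynomial σ K₀) (hg : ∀ i, g i ∈ homogeneousSubmodule σ K₀ (d i))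
    (S : AddSubmonoid ℕ) (hS : SlopesIn K₀ g S)
    (I : Ideal (MvPolynomial σ L)) (hI : Homog I) (hfI : ∀ i, f i ∈ I) (e : ℕ)
    (he : EvAffine (hilb I) e) : e ∈ S := by
  obtain ⟨κ, _, _, _, _, I₀, hI₀, hgI, hh⟩ := exists_place_closed d f hf hgen g hg I hI hfI
  have hhilb : hilb I₀ = hilb I := funext hh
  refine slope_mem_of_primes S I₀ hI₀ (by rw [hhilb]; exact growth_of_evAffine I he) ?_ e
    (by rw [hhilb]; exact he)
  intro P hP hPp hle e' he'
  exact hS κ P hP hPp (fun i => hle (hgI i)) e' he'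

/-- The coefficients of generic forms satisfy no equation. -/
lemma gen_ne_zero {Θ Θ' K₀ K κ : Type} [Field K₀] [Field K] [Field κ] (φ : K₀ →+* K)
    (ι : Θ' → Θ) (hι : Function.Injective ι) (ψ : FractionRing (MvPolynomial Θ K) →+* κ)
    (q : MvPolynomial Θ' K₀) (hq : q ≠ 0) :
    eval₂ (((ψ.comp (algebraMap (MvPolynomial Θ K) (FractionRing (MvPolynomial Θ K)))).comp
      C).comp φ) (fun x => ψ (algebraMap (MvPolynomial Θ K) (FractionRing (MvPolynomial Θ K))
        (X (ι x)))) q ≠ 0 := by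
  set χ : MvPolynomial Θ K →+* κ :=
    ψ.comp (algebraMap (MvPolynomial Θ K) (FractionRing (MvPolynomial Θ K))) with hχ
  have hχinj : Function.Injective χ := by
    rw [hχ]
    exact ψ.injective.comp (IsFractionRing.injective _ _)
  have h0 : ∀ p : MvPolynomial Θ K, χ p = eval₂ (χ.comp C) (fun θ => χ (X θ)) p := by
    intro p
    have h : χ = eval₂Hom (χ.comp C) (fun θ => χ (X θ)) := by
      refine ringHom_ext (fun r => ?_) (fun i => ?_)
      · rw [eval₂Hom_C]; rfl
      · rw [eval₂Hom_X']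
    exact congrArg (fun f : MvPolynomial Θ K →+* κ => f p) h
  have h1 : eval₂ ((χ.comp C).comp φ) (fun x => χ (X (ι x))) q = χ (rename ι (map φ q)) := by
    rw [h0, eval₂_rename, eval₂_map]
    rfl
  have h2 : eval₂ ((χ.comp C).comp φ) (fun x => χ (X (ι x))) q ≠ 0 := by
    rw [h1]
    intro h
    apply hq
    have h3 : rename ι (map φ q) = 0 := hχinj (by rw [h, map_zero])
    have h4 : map φ q = 0 := rename_injective ι hι (by rw [h3, map_zero])
    exact map_injective φ φ.injective (by rw [h4, map_zero])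
  exact h2

end Pool.Agent.SmallDeg
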