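import Pool.Agent.SmallDeg.ProdGeomB
import Pool.Agent.SmallDeg.AL2
import Pool.Agent.SmallDeg.Base2

/-!
The product of the degrees: the induction without loss.
-/

set_option autoImplicit false

namespace Pool.Agent.SmallDeg

open MvPolynomial Pool.Agent.CurveDeg

/-- The admissible parts `t` of a degree `d`. -/
structure Good (n c F M : ℕ) (P : Finset ℕ) (d t : ℕ) : Prop where
  big : d ≤ 8 * t
  cop : Nat.Coprime t c
  avoid : ∀ p ∈ P, ¬ p ∣ t
  lin : ∀ p : ℕ, p.Prime → p ∣ t → c * p ^ t.factorization p ≤ t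
  pow : ∀ p : ℕ, p.Prime → p ∣ M → p ∣ t → F * (p ^ t.factorization p) ^ n ≤ t

/-- The arithmetic statement used in the geometric induction. -/
def AL3 (n c F s r : ℕ) : Prop :=
  ∃ A : ℕ, 0 < A ∧ ∀ (d M D : ℕ) (P : Finset ℕ), A ≤ d → 1 ≤ M → M ≤ d ^ r →
    (∀ p ∈ P, p.Prime) → P.card ≤ s → A * D < d ^ 2 →
    (∀ a t μ : ℕ, (a = 1 ∨ a = 2) → a * t + μ = d → Good n c F M P d t → Good n c F M P d μ →
      ∃ x y : ℕ, D = x * t + y * μ) → d ∣ D

/-- The exceptional set. -/
def Exc (n c F r : ℕ) : Prop :=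
  ∀ η : ℝ, 0 < η → ∃ d0 : ℕ, ∀ d, d0 ≤ d → ∀ M, 1 ≤ M → M ≤ d ^ r →
    ∃ E : Finset ℕ, (E.card : ℝ) ≤ η * Nat.totient d ∧ ∀ μ, μ ≤ d → μ ∉ E →
      (∀ p : ℕ, p.Prime → p ∣ μ → 8 * c * p ^ μ.factorization p ≤ d) ∧
      (∀ p : ℕ, p.Prime → p ∣ M → p ∣ μ → 8 * F * (p ^ μ.factorization p) ^ n ≤ d)

theorem al3 {n c F r : ℕ} (hc : 1 ≤ c) (hE : Exc n c F r) (s : ℕ) : AL3 n c F s r := by
  classical
  obtain ⟨C, η, hC, hη, h⟩ := al2 (s + c.primeFactors.card)
  obtain ⟨d0, hd0⟩ := hE η hη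
  refine ⟨C + d0 + 1, by omega, fun d M D P hd hM hMd hP hPs hD hU => ?_⟩
  obtain ⟨E, hE1, hE2⟩ := hd0 d (by omega) M hM hMd
  have hd1 : 1 ≤ d := by omega
  refine h d ((P ∪ c.primeFactors).erase 2) E D (by omega) (fun p hp => ?_) ?_ hE1 ?_
    fun a t μ ha hd' ht hμ hto hμo hav htE hμE => ?_
  · rw [Finset.mem_erase, Finset.mem_union] at hp
    refine ⟨?_, hp.1⟩
    rcases hp.2 with h' | h'
    · exact hP p h'
    · exact Nat.prime_of_mem_primeFactors h'
  · refine (Finset.card_erase_le).trans ((Finset.card_union_le _ _).trans ?_)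
    exact Nat.add_le_add_right hPs _
  · refine lt_of_le_of_lt (Nat.mul_le_mul_right _ ?_) hD
    omega
  · have key : ∀ y : ℕ, y ≤ d → d ≤ 8 * y → Odd y →
        (∀ p ∈ (P ∪ c.primeFactors).erase 2, ¬ p ∣ y) → y ∉ E → Good n c F M P d y := by
      intro y hyd hy hyo hyav hyE
      obtain ⟨h1, h2⟩ := hE2 y hyd hyE
      have hy2 : ¬ 2 ∣ y := fun h' => (Nat.not_even_iff_odd.2 hyo) (even_iff_two_dvd.2 h')
      refine ⟨hy, ?_, fun p hp hpy => ?_, fun p hp hpy => ?_, fun p hp hpM hpy => ?_⟩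
      · rw [Nat.coprime_iff_gcd_eq_one]
        by_contra hne
        obtain ⟨p, hp, hpd⟩ := Nat.exists_prime_and_dvd hne
        have hpy : p ∣ y := hpd.trans (Nat.gcd_dvd_left _ _)
        have hpc : p ∣ c := hpd.trans (Nat.gcd_dvd_right _ _)
        have hp2 : p ≠ 2 := fun h' => hy2 (h' ▸ hpy)
        exact hyav p (Finset.mem_erase.2 ⟨hp2, Finset.mem_union_right _
          (Nat.mem_primeFactors.2 ⟨hp, hpc, by omega⟩)⟩) hpy
      · have hp2 : p ≠ 2 := fun h' => hy2 (h' ▸ hpy)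
        exact hyav p (Finset.mem_erase.2 ⟨hp2, Finset.mem_union_left _ hp⟩) hpy
      · have := h1 p hp hpy
        have h3 : 8 * (c * p ^ y.factorization p) ≤ 8 * y := by
          rw [← mul_assoc]
          exact this.trans hy
        omega
      · have := h2 p hp hpM hpy
        have h3 : 8 * (F * (p ^ y.factorization p) ^ n) ≤ 8 * y := by
          rw [← mul_assoc]
          exact this.trans hy
        omega
    have ht' : t ≤ d := by rcases ha with rfl | rfl <;> omega
    have hμ' : μ ≤ d := by omega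
    exact hU a t μ ha hd' (key t ht' ht hto (fun p hp => (hav p hp).1) htE)
      (key μ hμ' hμ hμo (fun p hp => (hav p hp).2) hμE)

/-- Few primes `p` have `e < F (p ^ v) ^ n`, where `p ^ v` is the part of `m ≤ e`. -/
lemma card_badprimes {F : ℕ} (hF0 : 1 ≤ F) (n m e : ℕ) (hm : 1 ≤ m) (hme : m ≤ e) :
    (m.primeFactors.filter (fun p => e < F * (p ^ m.factorization p) ^ n)).card ≤
      2 * n + F ^ 2 := by
  classical
  set S := m.primeFactors.filter (fun p => e < F * (p ^ m.factorization p) ^ n) with hS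
  have hm0 : m ≠ 0 := by omega
  by_cases hF : e ≤ F ^ 2
  · have h1 : S ⊆ Finset.Icc 1 m := by
      intro p hp
      have h2 := (Finset.mem_filter.1 hp).1
      rw [Finset.mem_Icc]
      exact ⟨(Nat.prime_of_mem_primeFactors h2).one_lt.le,
        Nat.le_of_dvd (by omega) (Nat.dvd_of_mem_primeFactors h2)⟩
    have h2 := Finset.card_le_card h1
    rw [Nat.card_Icc] at h2
    omega
  · rw [not_le] at hF
    have hFF : 1 ≤ F ^ 2 := Nat.one_le_pow _ _ hF0
    have he1 : 1 < e := by omega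
    have h1 : ∏ p ∈ S, p ^ m.factorization p ≤ m := by
      have h2 : ∏ p ∈ m.primeFactors, p ^ m.factorization p = m := by
        conv_rhs => rw [← Nat.prod_factorization_pow_eq_self hm0]
        rfl
      conv_rhs => rw [← h2]
      exact Finset.prod_le_prod_of_subset_of_one_le' (Finset.filter_subset _ _)
        fun p hp _ => Nat.one_le_pow _ _ (Nat.prime_of_mem_primeFactors hp).pos
    have h2 : e ^ S.card ≤ F ^ S.card * e ^ n := by
      calc e ^ S.card = ∏ _p ∈ S, e := by rw [Finset.prod_const]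
        _ ≤ ∏ p ∈ S, (F * (p ^ m.factorization p) ^ n) :=
            Finset.prod_le_prod' fun p hp => (Finset.mem_filter.1 hp).2.le
        _ = F ^ S.card * (∏ p ∈ S, p ^ m.factorization p) ^ n := by
            rw [Finset.prod_mul_distrib, Finset.prod_const, Finset.prod_pow]
        _ ≤ F ^ S.card * e ^ n :=
            Nat.mul_le_mul_left _ (Nat.pow_le_pow_left (h1.trans hme) _)
    have h3 : e ^ S.card * e ^ S.card ≤ e ^ S.card * e ^ (2 * n) := by
      calc e ^ S.card * e ^ S.card ≤ (F ^ S.card * e ^ n) * (F ^ S.card * e ^ n) :=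
            Nat.mul_le_mul h2 h2
        _ = (F ^ 2) ^ S.card * e ^ (2 * n) := by ring
        _ ≤ e ^ S.card * e ^ (2 * n) :=
            Nat.mul_le_mul_right _ (Nat.pow_le_pow_left hF.le _)
    have h4 := Nat.le_of_mul_le_mul_left h3 (Nat.pow_pos (by omega))
    have h5 := (Nat.pow_le_pow_iff_right he1).1 h4
    omega

/-- The conditions on a type. -/
structure TypeOK2 (n c F : ℕ) {r : ℕ} (U : Finset (Fin r)) (e m : Fin r → ℕ) : Prop where
  pos : ∀ i, 1 ≤ e i
  dvd : ∀ i, i ∉ U → m i ∣ e i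
  mpos : ∀ i, i ∉ U → 1 ≤ m i
  cop : ∀ i, i ∉ U → Nat.Coprime (m i) c
  lin : ∀ i, i ∉ U → ∀ p : ℕ, p.Prime → p ∣ m i → c * p ^ (m i).factorization p ≤ e i
  cross : ∀ i k, i ∉ U → k ∉ U → i ≠ k → ∀ p : ℕ, p.Prime → p ∣ m i → p ∣ m k →
    F * (p ^ (m i).factorization p) ^ n ≤ e i
  le : ∀ i ∈ U, ∀ k, k ∉ U → m k ≤ e i

variable {n c F r : ℕ} {U : Finset (Fin r)} {e m : Fin r → ℕ} {i₀ : Fin r}

lemma TypeOK2.qe_pos (h : TypeOK2 n c F U e m) : 0 < qe U e m i₀ := by
  classical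
  refine Finset.prod_pos fun i _ => ?_
  by_cases hU : i ∈ U
  · rw [if_pos hU]; exact h.pos i
  · rw [if_neg hU]; exact h.mpos i hU

lemma TypeOK2.mm_pos (h : TypeOK2 n c F U e m) : 1 ≤ mm U m := by
  classical
  exact Nat.one_le_iff_ne_zero.2 (Finset.prod_ne_zero_iff.2 fun i hi =>
    Nat.one_le_iff_ne_zero.1 (h.mpos i (Finset.mem_filter.1 hi).2))

lemma TypeOK2.mm_le (h : TypeOK2 n c F U e m) (hi : i₀ ∈ U) : mm U m ≤ e i₀ ^ r := by
  classical
  have h1 : mm U m ≤ ∏ _i ∈ Finset.univ.filter (· ∉ U), e i₀ :=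
    Finset.prod_le_prod' fun i hi' => h.le i₀ hi i (Finset.mem_filter.1 hi').2
  rw [Finset.prod_const] at h1
  refine h1.trans (Nat.pow_le_pow_right (h.pos i₀) ?_)
  exact (Finset.card_le_univ _).trans (by rw [Fintype.card_fin])

/-- The primes to be avoided. -/
noncomputable def bp (n F : ℕ) {r : ℕ} (U : Finset (Fin r)) (e m : Fin r → ℕ) : Finset ℕ :=
  (Finset.univ.filter (· ∉ U)).biUnion fun k =>
    (m k).primeFactors.filter (fun p => e k < F * (p ^ (m k).factorization p) ^ n)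

lemma TypeOK2.card_bp (h : TypeOK2 n c F U e m) (hF : 1 ≤ F) :
    (bp n F U e m).card ≤ r * (2 * n + F ^ 2) := by
  classical
  have h1 : (bp n F U e m).card ≤ (Finset.univ.filter (· ∉ U)).card * (2 * n + F ^ 2) := by
    refine Finset.card_biUnion_le_card_mul _ _ _ fun k hk => ?_
    have hkU := (Finset.mem_filter.1 hk).2
    exact card_badprimes hF n (m k) (e k) (h.mpos k hkU)
      (Nat.le_of_dvd (h.pos k) (h.dvd k hkU))
  refine h1.trans (Nat.mul_le_mul_right _ ?_)
  exact (Finset.card_le_univ _).trans (by rw [Fintype.card_fin])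

lemma prime_of_mem_bp {p : ℕ} (hp : p ∈ bp n F U e m) : p.Prime := by
  classical
  obtain ⟨k, _, hk⟩ := Finset.mem_biUnion.1 hp
  exact Nat.prime_of_mem_primeFactors (Finset.mem_filter.1 hk).1

/-- Specialising one equation. -/
lemma TypeOK2.update (h : TypeOK2 n c F U e m) (hmin : ∀ i ∈ U, e i₀ ≤ e i)
    {x μ : ℕ} (hx : 1 ≤ x) (hμ : 1 ≤ μ) (hdvd : μ ∣ x) (hle : μ ≤ e i₀)
    (hcopc : Nat.Coprime μ c)
    (hlin : ∀ p : ℕ, p.Prime → p ∣ μ → c * p ^ μ.factorization p ≤ x)
    (hpow : ∀ p : ℕ, p.Prime → p ∣ mm U m → p ∣ μ → F * (p ^ μ.factorization p) ^ n ≤ x)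
    (hav : ∀ p ∈ bp n F U e m, ¬ p ∣ μ) :
    TypeOK2 n c F (U.erase i₀) (Function.update e i₀ x) (Function.update m i₀ μ) := by
  classical
  have hnot : ∀ i, i ≠ i₀ → i ∉ U.erase i₀ → i ∉ U := fun i h1 h2 h3 =>
    h2 (Finset.mem_erase.2 ⟨h1, h3⟩)
  refine ⟨fun i => ?_, fun i hU => ?_, fun i hU => ?_, fun i hU => ?_, fun i hU p hp hpm => ?_,
    fun i k hiU hkU hik p hp hpi hpk => ?_, fun i hU k hkU => ?_⟩
  · by_cases h1 : i = i₀
    · rw [h1, Function.update_self]; exact hx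
    · rw [Function.update_of_ne h1]; exact h.pos i
  · by_cases h1 : i = i₀
    · rw [h1, Function.update_self, Function.update_self]; exact hdvd
    · rw [Function.update_of_ne h1, Function.update_of_ne h1]; exact h.dvd i (hnot i h1 hU)
  · by_cases h1 : i = i₀
    · rw [h1, Function.update_self]; exact hμ
    · rw [Function.update_of_ne h1]; exact h.mpos i (hnot i h1 hU)
  · by_cases h1 : i = i₀
    · rw [h1, Function.update_self]; exact hcopc
    · rw [Function.update_of_ne h1]; exact h.cop i (hnot i h1 hU)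
  · by_cases h1 : i = i₀
    · subst h1
      rw [Function.update_self] at hpm ⊢
      rw [Function.update_self]
      exact hlin p hp hpm
    · rw [Function.update_of_ne h1] at hpm ⊢
      rw [Function.update_of_ne h1]
      exact h.lin i (hnot i h1 hU) p hp hpm
  · by_cases h1 : i = i₀
    · subst h1
      have h2 : k ≠ i := fun h' => hik h'.symm
      rw [Function.update_self] at hpi ⊢
      rw [Function.update_self]
      rw [Function.update_of_ne h2] at hpk
      refine hpow p hp ?_ hpi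
      exact hpk.trans (Finset.dvd_prod_of_mem _
        (Finset.mem_filter.2 ⟨Finset.mem_univ k, hnot k h2 hkU⟩))
    · by_cases h2 : k = i₀
      · subst h2
        rw [Function.update_of_ne h1] at hpi ⊢
        rw [Function.update_of_ne h1]
        rw [Function.update_self] at hpk
        by_contra hcon
        rw [not_le] at hcon
        refine hav p ?_ hpk
        refine Finset.mem_biUnion.2 ⟨i, Finset.mem_filter.2 ⟨Finset.mem_univ i, hnot i h1 hiU⟩, ?_⟩
        exact Finset.mem_filter.2 ⟨Nat.mem_primeFactors.2 ⟨hp, hpi,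
          Nat.one_le_iff_ne_zero.1 (h.mpos i (hnot i h1 hiU))⟩, hcon⟩
      · rw [Function.update_of_ne h1] at hpi ⊢
        rw [Function.update_of_ne h1]
        rw [Function.update_of_ne h2] at hpk
        exact h.cross i k (hnot i h1 hiU) (hnot k h2 hkU) hik p hp hpi hpk
  · have h1 : i ≠ i₀ := Finset.ne_of_mem_erase hU
    have h2 : i ∈ U := Finset.mem_of_mem_erase hU
    rw [Function.update_of_ne h1]
    by_cases h3 : k = i₀
    · rw [h3, Function.update_self]; exact hle.trans (hmin i h2)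
    · rw [Function.update_of_ne h3]; exact h.le i h2 k (hnot k h3 hkU)

/-- Leaving one equation without a divisor. -/
lemma TypeOK2.update_one (h : TypeOK2 n c F U e m) (hmin : ∀ i ∈ U, e i₀ ≤ e i) :
    TypeOK2 n c F (U.erase i₀) e (Function.update m i₀ 1) := by
  classical
  have h1 := h.update hmin (h.pos i₀) le_rfl (one_dvd _) (h.pos i₀) (Nat.coprime_one_left _)
    (fun p hp hp1 => absurd (Nat.dvd_one.1 hp1) hp.ne_one)
    (fun p hp _ hp1 => absurd (Nat.dvd_one.1 hp1) hp.ne_one)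
    (fun p hp hp1 => (prime_of_mem_bp hp).ne_one (Nat.dvd_one.1 hp1))
  rwa [Function.update_eq_self] at h1

/-- One part of the degree. -/
lemma TypeOK2.update_good (h : TypeOK2 n c F U e m) (hmin : ∀ i ∈ U, e i₀ ≤ e i)
    {a t : ℕ} (ha : 1 ≤ a) (hat : a * t ≤ e i₀)
    (ht : Good n c F (mm U m) (bp n F U e m) (e i₀) t) :
    TypeOK2 n c F (U.erase i₀) (Function.update e i₀ (a * t)) (Function.update m i₀ t) := by
  have hd := h.pos i₀
  have hb := ht.big
  have ht1 : 1 ≤ t := by omega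
  have hta : t ≤ a * t := Nat.le_mul_of_pos_left t ha
  exact h.update hmin (Nat.mul_pos ha ht1) ht1 (dvd_mul_left _ _) (hta.trans hat) ht.cop
    (fun p hp hpt => (ht.lin p hp hpt).trans hta)
    (fun p hp hpM hpt => (ht.pow p hp hpM hpt).trans hta) ht.avoid

/-- The beginning of the induction. -/
theorem claim_zero2 (hbase : ∀ e m : Fin r → ℕ, TypeOK2 n c F ∅ e m →
      HasSp n r e (mult 1 (∏ i, m i))) (hU : U = ∅) (h : TypeOK2 n c F U e m) (B : ℝ) :
    HasSp n r e (sq 1 (qq U e m) B) := by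
  classical
  subst hU
  refine (hbase e m h).mono fun x hx => ?_
  refine mem_sq.2 (Or.inr ?_)
  have h3 : qq ∅ e m = ∏ i, m i := Finset.prod_congr rfl fun i _ => if_neg (Finset.notMem_empty i)
  rw [h3]
  exact mem_mult.1 hx

/-- The step of the induction. -/
theorem claim_step2 {j : ℕ} (r : ℕ) (hF : 1 ≤ F)
    (hAL : AL3 n c F (r * (2 * n + F ^ 2)) r)
    (ih : ∃ C : ℝ, 0 < C ∧ ∀ (U : Finset (Fin r)) (e m : Fin r → ℕ), U.card = j →
      TypeOK2 n c F U e m → ∀ B : ℝ, 0 ≤ B →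
      (∀ i ∈ U, C * B ≤ qq U e m * (e i : ℝ)) → HasSp n r e (sq 1 (qq U e m) B)) :
    ∃ C : ℝ, 0 < C ∧ ∀ (U : Finset (Fin r)) (e m : Fin r → ℕ), U.card = j + 1 →
      TypeOK2 n c F U e m → ∀ B : ℝ, 0 ≤ B →
      (∀ i ∈ U, C * B ≤ qq U e m * (e i : ℝ)) → HasSp n r e (sq 1 (qq U e m) B) := by
  classical
  obtain ⟨C', hC', ih⟩ := ih
  obtain ⟨A, hA, hAL⟩ := hAL
  have hAr : (0 : ℝ) < (A : ℝ) := by exact_mod_cast hA
  refine ⟨8 * C' + A + (C' + 1) * (A + 2) ^ 2, by positivity, fun U e m hU h B hB hCB => ?_⟩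
  have hne : U.Nonempty := by rw [← Finset.card_pos]; omega
  obtain ⟨i₀, hi₀, hmin⟩ := Finset.exists_min_image U e hne
  have hcard : (U.erase i₀).card = j := by rw [Finset.card_erase_of_mem hi₀]; omega
  have hQ' : 0 < qe U e m i₀ := h.qe_pos
  have hqq := qq_mem (e := e) (m := m) hi₀
  have hd1 : 1 ≤ e i₀ := h.pos i₀
  have hd1' : (1 : ℝ) ≤ (e i₀ : ℝ) := by exact_mod_cast hd1
  have hd0 : (0 : ℝ) < (e i₀ : ℝ) := by linarith
  have hQr : (0 : ℝ) < (qe U e m i₀ : ℝ) := by exact_mod_cast hQ'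
  have hmain : ∀ i ∈ U, (8 * C' + A + (C' + 1) * (A + 2) ^ 2) * B ≤
      (qe U e m i₀ : ℝ) * ((e i₀ : ℝ) * (e i : ℝ)) := by
    intro i hi
    have h1 := hCB i hi
    rw [hqq] at h1
    push_cast at h1
    calc _ ≤ _ := h1
      _ = _ := by ring
  by_cases hl : A + 2 ≤ e i₀
  · -- the minimal degree is large
    have hone : ∀ a t : ℕ, 1 ≤ a → a * t ≤ e i₀ →
        Good n c F (mm U m) (bp n F U e m) (e i₀) t →
        HasSp n r (Function.update e i₀ (a * t)) (sq 1 (t * qe U e m i₀) B) := by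
      intro a t ha hle ht
      have hOK := h.update_good hmin ha hle ht
      have h1 := ih _ _ _ hcard hOK B hB (fun i hi => ?_)
      · rwa [qq_update] at h1
      · rw [qq_update, Function.update_of_ne (Finset.ne_of_mem_erase hi)]
        have hiU : i ∈ U := Finset.mem_of_mem_erase hi
        have h2 : (e i₀ : ℝ) ≤ 8 * (t : ℝ) := by exact_mod_cast ht.big
        have h3 : (0 : ℝ) ≤ (e i : ℝ) := Nat.cast_nonneg _
        push_cast
        have h4 : 8 * (C' * B) ≤ 8 * ((t : ℝ) * (qe U e m i₀ : ℝ) * (e i : ℝ)) := by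
          calc 8 * (C' * B) ≤ (8 * C' + A + (C' + 1) * (A + 2) ^ 2) * B := by
                have : (0 : ℝ) ≤ (A + (C' + 1) * (A + 2) ^ 2) * B := by positivity
                linarith
            _ ≤ (qe U e m i₀ : ℝ) * ((e i₀ : ℝ) * (e i : ℝ)) := hmain i hiU
            _ ≤ (qe U e m i₀ : ℝ) * ((8 * (t : ℝ)) * (e i : ℝ)) :=
                mul_le_mul_of_nonneg_left (mul_le_mul_of_nonneg_right h2 h3) hQr.le
            _ = _ := by ring
        linarith
    let R : Finset ℕ := Finset.range (e i₀ + 1)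
    let Pr : ℕ × ℕ × ℕ → Prop := fun t => (t.1 = 1 ∨ t.1 = 2) ∧ t.1 * t.2.1 + t.2.2 = e i₀ ∧
      Good n c F (mm U m) (bp n F U e m) (e i₀) t.2.1 ∧
      Good n c F (mm U m) (bp n F U e m) (e i₀) t.2.2
    let s : Finset (ℕ × ℕ × ℕ) := (Finset.range 3 ×ˢ R ×ˢ R).filter Pr
    let S : ℕ × ℕ × ℕ → AddSubmonoid ℕ := fun t =>
      sq 1 (t.2.1 * qe U e m i₀) B ⊔ sq 1 (t.2.2 * qe U e m i₀) B
    have hS : ∀ t ∈ s, HasSp n r e (S t) := by
      intro t ht
      obtain ⟨h1, h2, h3, h4⟩ := (Finset.mem_filter.1 ht).2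
      have ha1 : 1 ≤ t.1 := by rcases h1 with h1 | h1 <;> omega
      refine HasSp.sup (k := i₀) (d₁ := Function.update e i₀ (t.1 * t.2.1))
        (d₂ := Function.update e i₀ (1 * t.2.2)) (by
          rw [Function.update_self, Function.update_self, one_mul]; exact h2)
        (fun i hi => Function.update_of_ne hi _ _) (fun i hi => Function.update_of_ne hi _ _)
        (hone _ _ ha1 (by omega) h3) (hone _ _ le_rfl (by omega) h4)
    have hmem : ∀ a t μ : ℕ, (a = 1 ∨ a = 2) → a * t + μ = e i₀ →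
        Good n c F (mm U m) (bp n F U e m) (e i₀) t →
        Good n c F (mm U m) (bp n F U e m) (e i₀) μ → (a, t, μ) ∈ s := by
      intro a t μ ha hd ht hμ
      refine Finset.mem_filter.2 ⟨?_, ha, hd, ht, hμ⟩
      have k1 : t ≤ a * t := Nat.le_mul_of_pos_left _ (by omega)
      simp only [Finset.mem_product, R, Finset.mem_range]
      omega
    refine (HasSp.finset_inf s S hS).mono fun x hx => ?_
    rw [mem_sq]
    by_cases hxB : B ≤ x
    · exact Or.inl hxB
    right
    rw [not_le] at hxB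
    have hdec : ∀ t ∈ s, ∃ u v : ℕ, x = qe U e m i₀ * (u * t.2.1 + v * t.2.2) := by
      intro t ht
      have h1 : x ∈ S t := (Finset.inf_le (f := S) ht) hx
      obtain ⟨y, hy, z, hz, hyz⟩ := AddSubmonoid.mem_sup.1 h1
      have hyx : (y : ℝ) ≤ (x : ℝ) := by exact_mod_cast (by omega : y ≤ x)
      have hzx : (z : ℝ) ≤ (x : ℝ) := by exact_mod_cast (by omega : z ≤ x)
      rcases mem_sq.1 hy with hy | ⟨u, hu⟩
      · linarith
      rcases mem_sq.1 hz with hz | ⟨v, hv⟩
      · linarith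
      rw [one_mul] at hu hv
      exact ⟨u, v, by rw [← hyz, hu, hv]; ring⟩
    have hbc := h.card_bp hF
    have hbp : ∀ p ∈ bp n F U e m, p.Prime := fun p hp => prime_of_mem_bp hp
    obtain ⟨t₀, ht₀⟩ : ∃ t, t ∈ s := by
      by_contra hcon
      push Not at hcon
      have h1 : e i₀ ∣ 1 := hAL (e i₀) (mm U m) 1 (bp n F U e m) (by omega) h.mm_pos
        (h.mm_le hi₀) hbp hbc (by nlinarith)
        fun a t μ h1 h2 h3 h4 => absurd (hmem a t μ h1 h2 h3 h4) (hcon _)
      have h2 := Nat.le_of_dvd one_pos h1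
      omega
    obtain ⟨u₀, v₀, h₀⟩ := hdec t₀ ht₀
    set D₀ := u₀ * t₀.2.1 + v₀ * t₀.2.2 with hD₀
    have hD : A * D₀ < (e i₀) ^ 2 := by
      have h1 : (qe U e m i₀ : ℝ) * (D₀ : ℝ) = (x : ℝ) := by exact_mod_cast h₀.symm
      have h2 : A * B ≤ (qe U e m i₀ : ℝ) * ((e i₀ : ℝ) * (e i₀ : ℝ)) := by
        refine le_trans (mul_le_mul_of_nonneg_right ?_ hB) (hmain i₀ hi₀)
        have : (0 : ℝ) ≤ 8 * C' + (C' + 1) * (A + 2) ^ 2 := by positivity
        linarith
      have h3 : A * (x : ℝ) < A * B := mul_lt_mul_of_pos_left hxB hAr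
      have h4 : (qe U e m i₀ : ℝ) * (A * (D₀ : ℝ)) <
          (qe U e m i₀ : ℝ) * ((e i₀ : ℝ) * (e i₀ : ℝ)) := by
        calc (qe U e m i₀ : ℝ) * (A * (D₀ : ℝ)) = A * ((qe U e m i₀ : ℝ) * (D₀ : ℝ)) := by ring
          _ = A * (x : ℝ) := by rw [h1]
          _ < _ := lt_of_lt_of_le h3 h2
      have h5 := lt_of_mul_lt_mul_left h4 hQr.le
      have h6 : ((A * D₀ : ℕ) : ℝ) < ((e i₀ ^ 2 : ℕ) : ℝ) := by
        push_cast
        nlinarith
      exact_mod_cast h6
    have hdvd : e i₀ ∣ D₀ := by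
      refine hAL (e i₀) (mm U m) D₀ (bp n F U e m) (by omega) h.mm_pos (h.mm_le hi₀) hbp hbc hD ?_
      intro a t μ h1 h2 h3 h4
      obtain ⟨u, v, huv⟩ := hdec _ (hmem a t μ h1 h2 h3 h4)
      refine ⟨u, v, ?_⟩
      exact Nat.eq_of_mul_eq_mul_left hQ' (h₀.symm.trans huv)
    rw [hqq, one_mul, h₀, mul_comm (e i₀)]
    exact mul_dvd_mul_left _ hdvd
  · -- the minimal degree is small
    have hsm : (e i₀ : ℝ) ≤ A + 2 := by
      have h1 : e i₀ ≤ A + 2 := by omega
      exact_mod_cast h1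
    have hE : (0 : ℝ) < A + 2 := by positivity
    have hOK := h.update_one hmin
    have hqq' : qq (U.erase i₀) e (Function.update m i₀ 1) = qe U e m i₀ := by
      have h1 := qq_update (U := U) (e := e) (m := m) (i₀ := i₀) (e i₀) 1
      rwa [Function.update_eq_self, one_mul] at h1
    have h1 := ih _ _ _ hcard hOK B hB (fun i hi => ?_)
    · rw [hqq'] at h1
      refine h1.mono fun x hx => ?_
      rw [mem_sq] at hx ⊢
      rcases hx with hx | hx
      · exact Or.inl hx
      by_cases hxB : B ≤ x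
      · exact Or.inl hxB
      right
      rw [not_le] at hxB
      have h2 : 1 * x = 0 := by
        by_contra hne0
        have h3 := Nat.le_of_dvd (Nat.pos_of_ne_zero hne0) hx
        rw [one_mul] at h3
        have h4 : (qe U e m i₀ : ℝ) ≤ (x : ℝ) := by exact_mod_cast h3
        have h6 : (e i₀ : ℝ) * (e i₀ : ℝ) ≤ (A + 2) ^ 2 := by nlinarith
        have h7 : (A + 2 : ℝ) ^ 2 * B ≤ (qe U e m i₀ : ℝ) * (A + 2) ^ 2 := by
          calc (A + 2 : ℝ) ^ 2 * B
              ≤ (8 * C' + A + (C' + 1) * (A + 2) ^ 2) * B := by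
                refine mul_le_mul_of_nonneg_right ?_ hB
                have : (0 : ℝ) ≤ 8 * C' + A + C' * (A + 2) ^ 2 := by positivity
                linarith
            _ ≤ (qe U e m i₀ : ℝ) * ((e i₀ : ℝ) * (e i₀ : ℝ)) := hmain i₀ hi₀
            _ ≤ _ := mul_le_mul_of_nonneg_left h6 hQr.le
        have h8 : B ≤ (qe U e m i₀ : ℝ) := by
          have h9 : (0 : ℝ) < (A + 2) ^ 2 := by positivity
          refine le_of_mul_le_mul_right ?_ h9
          calc B * (A + 2 : ℝ) ^ 2 = (A + 2) ^ 2 * B := by ring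
            _ ≤ _ := h7
        linarith
      rw [h2]
      exact dvd_zero _
    · rw [hqq']
      have hiU : i ∈ U := Finset.mem_of_mem_erase hi
      have h3 : (0 : ℝ) ≤ (e i : ℝ) := Nat.cast_nonneg _
      refine le_of_mul_le_mul_left ?_ hE
      calc (A + 2 : ℝ) * (C' * B) = C' * (A + 2) * B := by ring
        _ ≤ (8 * C' + A + (C' + 1) * (A + 2) ^ 2) * B := by
            refine mul_le_mul_of_nonneg_right ?_ hB
            have h5 : (0 : ℝ) ≤ 8 * C' + A + (A + 2) ^ 2 := by positivity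
            have h6 : C' * (A + 2 : ℝ) ≤ C' * (A + 2) ^ 2 :=
              mul_le_mul_of_nonneg_left (by nlinarith) hC'.le
            linarith
        _ ≤ (qe U e m i₀ : ℝ) * ((e i₀ : ℝ) * (e i : ℝ)) := hmain i hiU
        _ = (e i₀ : ℝ) * ((qe U e m i₀ : ℝ) * (e i : ℝ)) := by ring
        _ ≤ (A + 2) * ((qe U e m i₀ : ℝ) * (e i : ℝ)) :=
            mul_le_mul_of_nonneg_right hsm (mul_nonneg hQr.le h3)

/-- The induction. -/
theorem claim_all2 (r : ℕ) (hF : 1 ≤ F) (hbase : ∀ e m : Fin r → ℕ, TypeOK2 n c F ∅ e m →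
      HasSp n r e (mult 1 (∏ i, m i)))
    (hAL : AL3 n c F (r * (2 * n + F ^ 2)) r) (j : ℕ) :
    ∃ C : ℝ, 0 < C ∧ ∀ (U : Finset (Fin r)) (e m : Fin r → ℕ), U.card = j →
      TypeOK2 n c F U e m → ∀ B : ℝ, 0 ≤ B →
      (∀ i ∈ U, C * B ≤ qq U e m * (e i : ℝ)) → HasSp n r e (sq 1 (qq U e m) B) := by
  induction j with
  | zero =>
    exact ⟨1, one_pos, fun U e m hU h B _ _ => claim_zero2 hbase (Finset.card_eq_zero.1 hU) h B⟩
  | succ j ih => exact claim_step2 r hF hAL ih

/-- The second induction. -/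
theorem claim_upper2 (r : ℕ) (hF : 1 ≤ F) (hbase : ∀ e m : Fin r → ℕ, TypeOK2 n c F ∅ e m →
      HasSp n r e (mult 1 (∏ i, m i)))
    (hAL3 : AL3 n c F (r * (2 * n + F ^ 2)) r) (j : ℕ) :
    ∃ C : ℝ, 0 < C ∧ ∀ (U V : Finset (Fin r)) (e m : Fin r → ℕ), V ⊆ U → (U \ V).card = j →
      TypeOK2 n c F U e m → (∀ i ∈ V, ∀ k ∈ U, k ∉ V → e k ≤ e i) → ∀ B : ℝ, 0 ≤ B →
      (∀ i ∈ V, C * B ≤ qq U e m * (e i : ℝ)) →
        HasSp n r e (sq 1 (qq V e (mo U m)) B) := by
  classical
  induction j with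
  | zero =>
    have hall := fun j : ℕ => claim_all2 r hF hbase hAL3 j
    choose C hC h using hall
    refine ⟨∑ j ∈ Finset.range (r + 1), C j, Finset.sum_pos (fun j _ => hC j) ⟨0, by simp⟩,
      fun U V e m hVU hcard hOK _ B hB hCB => ?_⟩
    have hUV : U = V := by
      refine Finset.Subset.antisymm ?_ hVU
      exact Finset.sdiff_eq_empty_iff_subset.1 (Finset.card_eq_zero.1 hcard)
    subst hUV
    have hcard' : U.card ∈ Finset.range (r + 1) := by
      rw [Finset.mem_range]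
      have := Finset.card_le_univ U
      rw [Fintype.card_fin] at this
      omega
    have hCle : C U.card ≤ ∑ j ∈ Finset.range (r + 1), C j :=
      Finset.single_le_sum (f := C) (fun j _ => (hC j).le) hcard'
    have hqq : qq U e (mo U m) = qq U e m := by
      refine Finset.prod_congr rfl fun i _ => ?_
      by_cases hi : i ∈ U
      · rw [if_pos hi, if_pos hi]
      · rw [if_neg hi, if_neg hi, mo, if_neg hi]
    rw [hqq]
    exact h U.card U e m rfl hOK B hB fun i hi =>
      (mul_le_mul_of_nonneg_right hCle hB).trans (hCB i hi)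
  | succ j ih =>
    obtain ⟨C', hC', ih⟩ := ih
    obtain ⟨A, hA, hAL⟩ := hAL3
    have hAr : (0 : ℝ) < (A : ℝ) := by exact_mod_cast hA
    have hE : (0 : ℝ) < A + 8 := by positivity
    refine ⟨C' * (A + 8), by positivity, fun U V e m hVU hU h hup B hB hCB => ?_⟩
    have hne : (U \ V).Nonempty := by rw [← Finset.card_pos]; omega
    obtain ⟨i₀, hi₀UV, hmin'⟩ := Finset.exists_min_image (U \ V) e hne
    have hi₀ : i₀ ∈ U := (Finset.mem_sdiff.1 hi₀UV).1
    have hi₀V : i₀ ∉ V := (Finset.mem_sdiff.1 hi₀UV).2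
    have hmin : ∀ i ∈ U, e i₀ ≤ e i := by
      intro i hi
      by_cases hiV : i ∈ V
      · exact hup i hiV i₀ hi₀ hi₀V
      · exact hmin' i (Finset.mem_sdiff.2 ⟨hi, hiV⟩)
    have hVU' : V ⊆ U.erase i₀ := fun i hi =>
      Finset.mem_erase.2 ⟨fun h' => hi₀V (h' ▸ hi), hVU hi⟩
    have hcard : (U.erase i₀ \ V).card = j := by
      have h1 : U.erase i₀ \ V = (U \ V).erase i₀ := by
        ext i
        simp only [Finset.mem_sdiff, Finset.mem_erase]
        tauto
      rw [h1, Finset.card_erase_of_mem hi₀UV]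
      omega
    have hQ' : 0 < qe U e m i₀ := h.qe_pos
    have hqq := qq_mem (e := e) (m := m) hi₀
    have hd1 : 1 ≤ e i₀ := h.pos i₀
    have hd1' : (1 : ℝ) ≤ (e i₀ : ℝ) := by exact_mod_cast hd1
    have hQr : (0 : ℝ) < (qe U e m i₀ : ℝ) := by exact_mod_cast hQ'
    have hmain : ∀ i ∈ V, C' * (A + 8) * B ≤
        (qe U e m i₀ : ℝ) * ((e i₀ : ℝ) * (e i : ℝ)) := by
      intro i hi
      have h1 := hCB i hi
      rw [hqq] at h1
      push_cast at h1
      calc _ ≤ _ := h1
        _ = _ := by ring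
    by_cases hl : A + 2 ≤ e i₀
    · -- the minimal degree is large
      have hone : ∀ a t : ℕ, 1 ≤ a → a * t ≤ e i₀ →
          Good n c F (mm U m) (bp n F U e m) (e i₀) t →
          HasSp n r (Function.update e i₀ (a * t)) (sq 1 (qq V e (mo U m)) B) := by
        intro a t ha hle ht
        have hOK := h.update_good hmin ha hle ht
        have h1 := ih _ V _ _ hVU' hcard hOK (fun i hi k hk hkV => ?_) B hB (fun i hi => ?_)
        · rw [qq_mo_update hi₀ hi₀V] at h1
          refine h1.mono fun x hx => ?_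
          rw [mem_sq] at hx ⊢
          exact hx.imp id fun h' => (dvd_mul_left _ _).trans h'
        · have h2 : i ≠ i₀ := fun h' => hi₀V (h' ▸ hi)
          rw [Function.update_of_ne (Finset.ne_of_mem_erase hk), Function.update_of_ne h2]
          exact hup i hi k (Finset.mem_of_mem_erase hk) hkV
        · have hne' : i ≠ i₀ := fun h' => hi₀V (h' ▸ hi)
          rw [qq_update, Function.update_of_ne hne']
          have h2 : (e i₀ : ℝ) ≤ 8 * (t : ℝ) := by exact_mod_cast ht.big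
          have h3 : (0 : ℝ) ≤ (e i : ℝ) := Nat.cast_nonneg _
          push_cast
          have h4 : 8 * (C' * B) ≤ 8 * ((t : ℝ) * (qe U e m i₀ : ℝ) * (e i : ℝ)) := by
            calc 8 * (C' * B) ≤ C' * (A + 8) * B := by
                  have : (0 : ℝ) ≤ C' * A * B := by positivity
                  linarith
              _ ≤ (qe U e m i₀ : ℝ) * ((e i₀ : ℝ) * (e i : ℝ)) := hmain i hi
              _ ≤ (qe U e m i₀ : ℝ) * ((8 * (t : ℝ)) * (e i : ℝ)) :=
                  mul_le_mul_of_nonneg_left (mul_le_mul_of_nonneg_right h2 h3) hQr.le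
              _ = _ := by ring
          linarith
      have hbc := h.card_bp hF
      have hbp : ∀ p ∈ bp n F U e m, p.Prime := fun p hp => prime_of_mem_bp hp
      obtain ⟨a, t, μ, h1, h2, h3, h4⟩ : ∃ a t μ : ℕ, (a = 1 ∨ a = 2) ∧ a * t + μ = e i₀ ∧
          Good n c F (mm U m) (bp n F U e m) (e i₀) t ∧
          Good n c F (mm U m) (bp n F U e m) (e i₀) μ := by
        by_contra hcon
        push Not at hcon
        have h1 : e i₀ ∣ 1 := hAL (e i₀) (mm U m) 1 (bp n F U e m) (by omega) h.mm_pos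
          (h.mm_le hi₀) hbp hbc (by nlinarith)
          fun a t μ h1 h2 h3 h4 => absurd h4 (hcon a t μ h1 h2 h3)
        have h2 := Nat.le_of_dvd one_pos h1
        omega
      have ha1 : 1 ≤ a := by rcases h1 with h1 | h1 <;> omega
      have hfin := HasSp.sup (k := i₀) (d := e) (d₁ := Function.update e i₀ (a * t))
        (d₂ := Function.update e i₀ (1 * μ)) (by
          rw [Function.update_self, Function.update_self, one_mul]; exact h2)
        (fun i hi => Function.update_of_ne hi _ _) (fun i hi => Function.update_of_ne hi _ _)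
        (hone _ _ ha1 (by omega) h3) (hone _ _ le_rfl (by omega) h4)
      rwa [sup_idem] at hfin
    · -- the minimal degree is small
      have hsm : (e i₀ : ℝ) ≤ A + 8 := by
        have h1 : e i₀ ≤ A + 8 := by omega
        exact_mod_cast h1
      have hOK := h.update_one hmin
      have hup' : ∀ i ∈ V, ∀ k ∈ U.erase i₀, k ∉ V → e k ≤ e i := fun i hi k hk hkV =>
        hup i hi k (Finset.mem_of_mem_erase hk) hkV
      have hqq' : qq (U.erase i₀) e (Function.update m i₀ 1) = qe U e m i₀ := by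
        have h1 := qq_update (U := U) (e := e) (m := m) (i₀ := i₀) (e i₀) 1
        rwa [Function.update_eq_self, one_mul] at h1
      have h1 := ih _ V _ _ hVU' hcard hOK hup' B hB (fun i hi => ?_)
      · have h5 := qq_mo_update (e := e) (m := m) hi₀ hi₀V (e i₀) 1
        rw [Function.update_eq_self, one_mul] at h5
        rwa [h5] at h1
      · rw [hqq']
        have h3 : (0 : ℝ) ≤ (e i : ℝ) := Nat.cast_nonneg _
        refine le_of_mul_le_mul_left ?_ hE
        calc (A + 8 : ℝ) * (C' * B) = C' * (A + 8) * B := by ring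
          _ ≤ (qe U e m i₀ : ℝ) * ((e i₀ : ℝ) * (e i : ℝ)) := hmain i hi
          _ = (e i₀ : ℝ) * ((qe U e m i₀ : ℝ) * (e i : ℝ)) := by ring
          _ ≤ (A + 8) * ((qe U e m i₀ : ℝ) * (e i : ℝ)) :=
              mul_le_mul_of_nonneg_right hsm (mul_nonneg hQr.le h3)

end Pool.Agent.SmallDeg
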