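import Pool.Agent.SmallDeg.Semi
import Pool.Agent.SmallDeg.Arith3

/-!
Curves of small degree on very general complete intersections.
-/

set_option autoImplicit false

namespace Pool.Agent.SmallDeg

open MvPolynomial Pool.Agent.CurveDeg

/-- The bad polynomials for one condition. -/
lemma exists_bad_sp {n r : ℕ} (d : Fin r → ℕ) {S : AddSubmonoid ℕ} (h : HasSp n r d S) :
    ∃ bad : ℕ → MvPolynomial (Σ i : Fin r, Mon (Fin (n + r + 1)) (d i)) ℂ, (∀ j, bad j ≠ 0) ∧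
      ∀ f : Fin r → MvPolynomial (Fin (n + r + 1)) ℂ,
        (∀ i, f i ∈ homogeneousSubmodule (Fin (n + r + 1)) ℂ (d i)) →
        (∀ j, eval (fun x => coeff x.2.1 (f x.1)) (bad j) ≠ 0) →
        ∀ I : Ideal (MvPolynomial (Fin (n + r + 1)) ℂ), Homog I → (∀ i, f i ∈ I) →
        ∀ e : ℕ, EvAffine (hilb I) e → e ∈ S := by
  obtain ⟨K₀, _, _, _, g, hg, hS⟩ := h
  obtain ⟨φ⟩ := exists_embedding K₀
  let _ : Algebra K₀ ℂ := φ.toAlgebra
  obtain ⟨bad, hbad0, hbad⟩ := exists_bad_over (Σ i : Fin r, Mon (Fin (n + r + 1)) (d i)) K₀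
  refine ⟨bad, hbad0, fun f hf hbadf I hI hfI e he => ?_⟩
  exact slope_mem_of_generic d f hf (hbad _ hbadf) g hg S hS I hI hfI e he

/-- **Reduction** for countably many conditions. -/
theorem main_of_semi (n r : ℕ) (d : Fin r → ℕ) (c : ℕ) :
    ∃ bad : ℕ → MvPolynomial (Σ i : Fin r, {m : Fin (n + r + 1) →₀ ℕ // m.degree = d i}) ℂ,
      (∀ j, bad j ≠ 0) ∧
      ∀ f : Fin r → MvPolynomial (Fin (n + r + 1)) ℂ,
        (∀ i, f i ∈ homogeneousSubmodule (Fin (n + r + 1)) ℂ (d i)) →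
        (∀ j, eval (fun x => coeff x.2.1 (f x.1)) (bad j) ≠ 0) →
        ∀ I : Ideal (MvPolynomial (Fin (n + r + 1)) ℂ), Homog I →
          ringKrullDim (MvPolynomial (Fin (n + r + 1)) ℂ ⧸ I) = 2 →
          (∀ i, f i ∈ I) →
          ∃ e : ℕ, (∃ K : ℕ, ∀ k : ℕ, K ≤ k → hilb I (k + 1) = hilb I k + e) ∧
            ∀ m₁ m₂ : ℕ, HasSp n r d (semi c m₁ m₂) → e ∈ semi c m₁ m₂ := by
  classical
  have hex : ∀ j : ℕ, ∃ bad : ℕ → MvPolynomial (Σ i : Fin r, Mon (Fin (n + r + 1)) (d i)) ℂ,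
      (∀ j, bad j ≠ 0) ∧ (HasSp n r d (semi c (Nat.unpair j).1 (Nat.unpair j).2) →
      ∀ f : Fin r → MvPolynomial (Fin (n + r + 1)) ℂ,
        (∀ i, f i ∈ homogeneousSubmodule (Fin (n + r + 1)) ℂ (d i)) →
        (∀ j, eval (fun x => coeff x.2.1 (f x.1)) (bad j) ≠ 0) →
        ∀ I : Ideal (MvPolynomial (Fin (n + r + 1)) ℂ), Homog I → (∀ i, f i ∈ I) →
        ∀ e : ℕ, EvAffine (hilb I) e → e ∈ semi c (Nat.unpair j).1 (Nat.unpair j).2) := by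
    intro j
    by_cases h : HasSp n r d (semi c (Nat.unpair j).1 (Nat.unpair j).2)
    · obtain ⟨bad, h1, h2⟩ := exists_bad_sp d h
      exact ⟨bad, h1, fun _ => h2⟩
    · exact ⟨fun _ => 1, fun _ => one_ne_zero, fun h' => absurd h' h⟩
  choose bad hbad0 hbad using hex
  refine ⟨fun j => bad (Nat.unpair j).1 (Nat.unpair j).2, fun j => hbad0 _ _, ?_⟩
  intro f hf hbadf I hI hdim hfI
  obtain ⟨e, he⟩ := evAffine_of_growth I hI (growth_two I hI hdim.le)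
  have he0 := he.slope_nonneg
  obtain ⟨m, rfl⟩ := Int.eq_ofNat_of_zero_le he0
  refine ⟨m, ?_, ?_⟩
  · obtain ⟨c', K, hK⟩ := he
    refine ⟨K, fun k hk => ?_⟩
    have h1 := hK k hk
    have h2 := hK (k + 1) (by omega)
    have h3 : ((hilb I (k + 1) : ℕ) : ℤ) = (hilb I k : ℤ) + (m : ℤ) := by
      rw [h2, h1]; push_cast; ring
    exact_mod_cast h3
  · intro m₁ m₂ hM
    have h4 := hbad (Nat.pair m₁ m₂)
    rw [Nat.unpair_pair] at h4
    exact h4 hM f hf (fun j => by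
      have := hbadf (Nat.pair (Nat.pair m₁ m₂) j)
      beta_reduce at this
      rw [Nat.unpair_pair] at this
      exact this) I hI hfI m he

/-- **Main theorem.** -/
theorem main_small (n : ℕ) : ∃ C : ℕ, 0 < C ∧ ∀ (r : ℕ) (d : Fin r → ℕ),
    ∃ bad : ℕ → MvPolynomial (Σ i : Fin r, {m : Fin (n + r + 1) →₀ ℕ // m.degree = d i}) ℂ,
      (∀ j, bad j ≠ 0) ∧
      ∀ f : Fin r → MvPolynomial (Fin (n + r + 1)) ℂ,
        (∀ i, f i ∈ homogeneousSubmodule (Fin (n + r + 1)) ℂ (d i)) →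
        (∀ j, eval (fun x => coeff x.2.1 (f x.1)) (bad j) ≠ 0) →
        ∀ I : Ideal (MvPolynomial (Fin (n + r + 1)) ℂ), Homog I →
          ringKrullDim (MvPolynomial (Fin (n + r + 1)) ℂ ⧸ I) = 2 →
          (∀ i, f i ∈ I) →
          ∃ e : ℕ, (∃ K : ℕ, ∀ k : ℕ, K ≤ k → hilb I (k + 1) = hilb I k + e) ∧
            ∀ k : Fin r, C * e < d k ^ 2 → d k ∣ C * e := by
  obtain ⟨c, hc, hT⟩ : ∃ c : ℕ, 0 < c ∧ ∀ (r : ℕ) (d : Fin r → ℕ) (k : Fin r)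
      (p a : ℕ), p.Prime → p ^ a ∣ d k → c * p ^ a ≤ d k →
        HasSpecial n r d (p ^ a / Nat.gcd (p ^ a) c) := by
    rcases Nat.eq_zero_or_pos n with h0 | hn
    · subst h0
      exact ⟨1, one_pos, fun r d _ _ _ _ _ _ => Pool.Agent.MultiSpec.hasSpecial_zero r d _⟩
    · exact Pool.Agent.DensDeg.hasSpecial_T n hn
  obtain ⟨C, hC, harith⟩ := arith c hc
  refine ⟨C * c, Nat.mul_pos hC hc, fun r d => ?_⟩
  obtain ⟨bad, h1, h2⟩ := main_of_semi n r d c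
  refine ⟨bad, h1, fun f hf hb I hI hdim hfI => ?_⟩
  obtain ⟨e, he, h3⟩ := h2 f hf hb I hI hdim hfI
  refine ⟨e, he, fun k hk => ?_⟩
  rw [mul_assoc] at hk ⊢
  refine harith (d k) (c * e) (fun m hm hmd hle => ?_) (fun a₁ a₂ m₁ m₂ ha₁ ha₂ hm₁ hm₂ hd => ?_) hk
  · have h4 : HasSp n r d (semi c m 0) := (hasSp_mult hT d k hm hmd hle).mono (by
      intro x hx
      obtain ⟨y, hy⟩ := mem_mult.1 hx
      exact mem_semi.2 ⟨y, 0, by rw [hy]; ring⟩)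
    obtain ⟨x, y, hxy⟩ := mem_semi.1 (h3 m 0 h4)
    exact ⟨x, by rw [hxy]; ring⟩
  · exact mem_semi.1 (h3 m₁ m₂ (hasSp_semi hT d k ha₁ ha₂ hm₁ hm₂ hd))

end Pool.Agent.SmallDeg
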