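import Pool.Agent.SmallDeg.ProdGeomB
import Pool.Agent.SmallDeg.Arith3
import Pool.Agent.SmallDeg.ArithExact

/-!
Curves of small degree on very general complete intersections: exact divisibility by every
`d k` and by the product of the degrees.
-/

set_option autoImplicit false

namespace Pool.Agent.SmallDeg

open MvPolynomial Pool.Agent.CurveDeg

/-- The product condition for one complete intersection. -/
theorem hasSp_prod {n c : ℕ} (hc : 1 ≤ c) (r : ℕ) (hT : ∀ (r : ℕ) (d : Fin r → ℕ) (k : Fin r)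
      (p a : ℕ), p.Prime → p ^ a ∣ d k → c * p ^ a ≤ d k →
        HasSpecial n r d (p ^ a / Nat.gcd (p ^ a) c))
    (hAL : ∀ ε : ℝ, 0 < ε → ε < 1 → AL c (r + 1) ε) (ε : ℝ) (hε : 0 < ε) :
    ∃ C : ℝ, 0 < C ∧ ∀ d : Fin r → ℕ, (∀ i, 1 ≤ d i) → ∀ (k : Fin r) (B : ℕ),
      C * B ≤ (∏ i, (d i : ℝ)) * (d k : ℝ) ^ (1 - ε) →
        HasSp n r d (sq 1 (∏ i with d k ≤ d i, d i) B) := by
  classical
  have hall := fun j : ℕ => claim_upper hc r hT hAL j (min ε (1 / 2)) (lt_min hε (by norm_num))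
      (lt_of_le_of_lt (min_le_right _ _) (by norm_num))
  choose C hC h using hall
  refine ⟨∑ j ∈ Finset.range (r + 1), C j, Finset.sum_pos (fun j _ => hC j) ⟨0, by simp⟩,
    fun d hd k B hB => ?_⟩
  set V : Finset (Fin r) := Finset.univ.filter (fun i => d k ≤ d i) with hV
  have hq : qq V d (mo Finset.univ (fun _ => 1)) = ∏ i ∈ V, d i := by
    have h1 : ∀ i, (if i ∈ V then d i else mo Finset.univ (fun _ => 1) i) =
        if i ∈ V then d i else 1 := by
      intro i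
      rw [mo, if_pos (Finset.mem_univ i)]
    rw [qq, Finset.prod_congr rfl fun i _ => h1 i, Finset.prod_ite_mem, Finset.univ_inter]
  have hqu : qq Finset.univ d (fun _ => 1) = ∏ i, d i :=
    Finset.prod_congr rfl fun i _ => if_pos (Finset.mem_univ i)
  have hcard : (Finset.univ \ V).card ∈ Finset.range (r + 1) := by
    rw [Finset.mem_range]
    have := Finset.card_le_univ (Finset.univ \ V)
    rw [Fintype.card_fin] at this
    omega
  have hCle : C (Finset.univ \ V).card ≤ ∑ j ∈ Finset.range (r + 1), C j :=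
    Finset.single_le_sum (f := C) (fun j _ => (hC j).le) hcard
  have h1 := h (Finset.univ \ V).card Finset.univ V d (fun _ => 1) (Finset.subset_univ V) rfl
    ⟨hd, fun i _ => one_dvd _, fun i _ => le_rfl, fun i _ => Or.inl rfl,
      fun i _ => Nat.coprime_one_left _, fun i k _ _ _ => Nat.coprime_one_left _,
      fun i _ k _ => hd i⟩ (fun i hi j _ hj => ?_) B (Nat.cast_nonneg B) (fun i hi => ?_)
  · rwa [hq] at h1
  · have h2 : d k ≤ d i := (Finset.mem_filter.1 hi).2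
    have h3 : ¬ d k ≤ d j := fun h' => hj (Finset.mem_filter.2 ⟨Finset.mem_univ j, h'⟩)
    omega
  · rw [hqu]
    push_cast
    have h2 : d k ≤ d i := (Finset.mem_filter.1 hi).2
    have h3 : (d k : ℝ) ≤ (d i : ℝ) := by exact_mod_cast h2
    have h4 : (1 : ℝ) ≤ (d k : ℝ) := by exact_mod_cast hd k
    have h5 := min_le_left ε (1 / 2)
    have h6 := min_le_right ε (1 / 2)
    refine (mul_le_mul_of_nonneg_right hCle (Nat.cast_nonneg B)).trans
      (hB.trans (mul_le_mul_of_nonneg_left ?_ (Finset.prod_nonneg fun i _ =>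
      Nat.cast_nonneg _)))
    calc (d k : ℝ) ^ (1 - ε) ≤ (d k : ℝ) ^ (1 - min ε (1 / 2)) :=
          Real.rpow_le_rpow_of_exponent_le h4 (by linarith)
      _ ≤ (d i : ℝ) ^ (1 - min ε (1 / 2)) :=
          Real.rpow_le_rpow (by linarith) h3 (by linarith)

/-- **The semigroup condition**, exact version. -/
theorem hasSp_semi_one {n c : ℕ} (hT : ∀ (r : ℕ) (d : Fin r → ℕ) (k : Fin r)
      (p a : ℕ), p.Prime → p ^ a ∣ d k → c * p ^ a ≤ d k →
        HasSpecial n r d (p ^ a / Nat.gcd (p ^ a) c)) {r : ℕ} (d : Fin r → ℕ) (k : Fin r)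
    {a₁ a₂ m₁ m₂ : ℕ} (ha₁ : c ≤ a₁) (ha₂ : c ≤ a₂) (hm₁ : 0 < m₁) (hm₂ : 0 < m₂)
    (hd : a₁ * m₁ + a₂ * m₂ = d k) (h₁ : Nat.Coprime m₁ c) (h₂ : Nat.Coprime m₂ c) :
    HasSp n r d (semi 1 m₁ m₂) := by
  classical
  have h1 : HasSp n r (Function.update d k (a₁ * m₁)) (mult 1 m₁) := by
    refine hasSp_mult_one hT _ k hm₁ ?_ ?_ h₁
    · rw [Function.update_self]; exact dvd_mul_left _ _
    · rw [Function.update_self]; exact Nat.mul_le_mul_right _ ha₁
  have h2 : HasSp n r (Function.update d k (a₂ * m₂)) (mult 1 m₂) := by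
    refine hasSp_mult_one hT _ k hm₂ ?_ ?_ h₂
    · rw [Function.update_self]; exact dvd_mul_left _ _
    · rw [Function.update_self]; exact Nat.mul_le_mul_right _ ha₂
  refine (HasSp.sup (k := k) (d := d) (by rw [Function.update_self, Function.update_self]; exact hd)
    (fun i hi => Function.update_of_ne hi _ _) (fun i hi => Function.update_of_ne hi _ _)
    h1 h2).mono ?_
  intro e he
  obtain ⟨e₁, he₁, e₂, he₂, rfl⟩ := AddSubmonoid.mem_sup.1 he
  obtain ⟨x, hx⟩ := mem_mult.1 he₁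
  obtain ⟨y, hy⟩ := mem_mult.1 he₂
  exact mem_semi.2 ⟨x, y, by rw [mul_add, hx, hy]; ring⟩

/-- If one of the forms has degree zero, then there is no curve on general forms. -/
lemma hasSp_of_zero {n r : ℕ} {d : Fin r → ℕ} {i : Fin r} (hi : d i = 0) (S : AddSubmonoid ℕ) :
    HasSp n r d S := by
  classical
  refine ⟨ℚ, inferInstance, inferInstance, inferInstance, fun j => if d j = 0 then 1 else 0,
    fun j => ?_, fun κ _ _ _ _ P _ hPp hgP e _ => ?_⟩
  · by_cases hj : d j = 0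
    · simp only [hj, if_true]
      exact (mem_homogeneousSubmodule 0 _).2 (isHomogeneous_one _ _)
    · simp only [hj, if_false]
      exact Submodule.zero_mem _
  · exfalso
    have h1 := hgP i
    simp only [hi, if_true, map_one] at h1
    exact hPp.ne_top ((Ideal.eq_top_iff_one P).2 h1)

/-- The conditions used in the main theorem. -/
def fam {r : ℕ} (d : Fin r → ℕ) : (ℕ × ℕ × ℕ) ⊕ (Fin r × ℕ) → AddSubmonoid ℕ
  | Sum.inl t => semi t.1 t.2.1 t.2.2
  | Sum.inr t => sq 1 (∏ i with d t.1 ≤ d i, d i) (t.2 : ℝ)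

/-- **Main theorem.** -/
theorem main_prod (hALL : ∀ c r : ℕ, 1 ≤ c → ∀ ε : ℝ, 0 < ε → ε < 1 → AL c r ε) (n : ℕ) :
    ∃ c : ℕ, 0 < c ∧ ∀ (r : ℕ) (ε : ℝ), 0 < ε → ∃ C : ℝ, 0 < C ∧ ∀ d : Fin r → ℕ,
    ∃ bad : ℕ → MvPolynomial (Σ i : Fin r, {m : Fin (n + r + 1) →₀ ℕ // m.degree = d i}) ℂ,
      (∀ j, bad j ≠ 0) ∧
      ∀ f : Fin r → MvPolynomial (Fin (n + r + 1)) ℂ,
        (∀ i, f i ∈ homogeneousSubmodule (Fin (n + r + 1)) ℂ (d i)) →
        (∀ j, eval (fun x => coeff x.2.1 (f x.1)) (bad j) ≠ 0) →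
        ∀ I : Ideal (MvPolynomial (Fin (n + r + 1)) ℂ), Homog I →
          ringKrullDim (MvPolynomial (Fin (n + r + 1)) ℂ ⧸ I) = 2 →
          (∀ i, f i ∈ I) →
          ∃ e : ℕ, (∃ K : ℕ, ∀ k : ℕ, K ≤ k → hilb I (k + 1) = hilb I k + e) ∧
            (∀ k : Fin r, c * e < d k ^ 2 → d k ∣ e) ∧
            (∀ k : Fin r, C * e ≤ (∏ i, (d i : ℝ)) * (d k : ℝ) ^ (1 - ε) →
              (∏ i with d k ≤ d i, d i) ∣ e) := by
  classical
  obtain ⟨c, hc, hT⟩ : ∃ c : ℕ, 0 < c ∧ ∀ (r : ℕ) (d : Fin r → ℕ) (k : Fin r)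
      (p a : ℕ), p.Prime → p ^ a ∣ d k → c * p ^ a ≤ d k →
        HasSpecial n r d (p ^ a / Nat.gcd (p ^ a) c) := by
    rcases Nat.eq_zero_or_pos n with h0 | hn
    · subst h0
      exact ⟨1, one_pos, fun r d _ _ _ _ _ _ => Pool.Agent.MultiSpec.hasSpecial_zero r d _⟩
    · exact Pool.Agent.DensDeg.hasSpecial_T n hn
  obtain ⟨C₀, hC₀, harith⟩ := arith c hc
  obtain ⟨C₂, hC₂, hexact⟩ := exact_arith c (C₀ * c) hc (Nat.mul_pos hC₀ hc)
  refine ⟨C₀ * c + C₂, by positivity, fun r ε hε => ?_⟩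
  obtain ⟨C, hC, hprod⟩ := hasSp_prod hc r hT (hALL c (r + 1) hc) ε hε
  refine ⟨2 * C, by positivity, fun d => ?_⟩
  obtain ⟨bad, h1, h2⟩ := main_of_family n r d (fam d)
  refine ⟨bad, h1, fun f hf hb I hI hdim hfI => ?_⟩
  obtain ⟨e, he, h3⟩ := h2 f hf hb I hI hdim hfI
  refine ⟨e, he, fun k hk => ?_, fun k hk => ?_⟩
  · rw [add_mul] at hk
    have hk1 : C₀ * (c * e) < d k ^ 2 := by
      rw [← mul_assoc]
      exact lt_of_le_of_lt (Nat.le_add_right _ _) hk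
    have hk2 : C₂ * e < d k ^ 2 := lt_of_le_of_lt (Nat.le_add_left _ _) hk
    have hdvd : d k ∣ C₀ * (c * e) := by
      refine harith (d k) (c * e) (fun m hm hmd hle => ?_)
        (fun a₁ a₂ m₁ m₂ ha₁ ha₂ hm₁ hm₂ hd => ?_) hk1
      · have h4 : HasSp n r d (semi c m 0) := (hasSp_mult hT d k hm hmd hle).mono (by
          intro x hx
          obtain ⟨y, hy⟩ := mem_mult.1 hx
          exact mem_semi.2 ⟨y, 0, by rw [hy]; ring⟩)
        obtain ⟨x, y, hxy⟩ := mem_semi.1 (h3 (Sum.inl (c, m, 0)) h4)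
        exact ⟨x, by rw [hxy]; ring⟩
      · exact mem_semi.1 (h3 (Sum.inl (c, m₁, m₂)) (hasSp_semi hT d k ha₁ ha₂ hm₁ hm₂ hd))
    rw [← mul_assoc] at hdvd
    refine hexact (d k) e hdvd hk2 fun a₁ a₂ m₁ m₂ ha₁ ha₂ hm₁ hm₂ hd hc₁ hc₂ => ?_
    obtain ⟨x, y, hxy⟩ := mem_semi.1 (h3 (Sum.inl (1, m₁, m₂))
      (hasSp_semi_one hT d k ha₁ ha₂ hm₁ hm₂ hd hc₁ hc₂))
    exact ⟨x, y, by rw [← hxy, one_mul]⟩
  · rcases Nat.eq_zero_or_pos e with h0 | he0
    · rw [h0]; exact dvd_zero _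
    have he1 : (1 : ℝ) ≤ (e : ℝ) := by exact_mod_cast he0
    have h4 : HasSp n r d (sq 1 (∏ i with d k ≤ d i, d i) ((e + 1 : ℕ) : ℝ)) := by
      by_cases hd : ∀ i, 1 ≤ d i
      · refine hprod d hd k (e + 1) (le_trans ?_ hk)
        push_cast
        have : C * 1 ≤ C * e := mul_le_mul_of_nonneg_left he1 hC.le
        linarith
      · push Not at hd
        obtain ⟨i, hi⟩ := hd
        exact hasSp_of_zero (i := i) (by omega) _
    rcases mem_sq.1 (h3 (Sum.inr (k, e + 1)) h4) with h5 | h5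
    · push_cast at h5
      linarith
    · rwa [one_mul] at h5

end Pool.Agent.SmallDeg
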