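import Pool.Agent.SmallDeg.Geom3
import Pool.Agent.SmallDeg.ProdMain

/-!
Curves of small degree on very general complete intersections: the product of the large degrees,
without loss.
-/

set_option autoImplicit false

namespace Pool.Agent.SmallDeg

open MvPolynomial Pool.Agent.CurveDeg

/-- The product condition for one complete intersection. -/
theorem hasSp_prod3 {n c F : ℕ} (r : ℕ) (hF : 1 ≤ F)
    (hbase : ∀ e m : Fin r → ℕ, TypeOK2 n c F ∅ e m → HasSp n r e (mult 1 (∏ i, m i)))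
    (hAL : AL3 n c F (r * (2 * n + F ^ 2)) r) :
    ∃ C : ℝ, 0 < C ∧ ∀ d : Fin r → ℕ, (∀ i, 1 ≤ d i) → ∀ (k : Fin r) (B : ℕ),
      C * B ≤ (∏ i, (d i : ℝ)) * (d k : ℝ) →
        HasSp n r d (sq 1 (∏ i with d k ≤ d i, d i) B) := by
  classical
  have hall := fun j : ℕ => claim_upper2 r hF hbase hAL j
  choose C hC h using hall
  refine ⟨∑ j ∈ Finset.range (r + 1), C j, Finset.sum_pos (fun j _ => hC j) ⟨0, by simp⟩,
    fun d hd k B hB => ?_⟩
  set V : Finset (Fin r) := Finset.univ.filter (fun i => d k ≤ d i) with hV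
  have hq : qq V d (mo Finset.univ (fun _ => 1)) = ∏ i ∈ V, d i := by
    have h1 : ∀ i, (if i ∈ V then d i else mo Finset.univ (fun _ => 1) i) =
        if i ∈ V then d i else 1 := by
      intro i
      rw [mo, if_pos (Finset.mem_univ i)]
    rw [qq, Finset.prod_congr rfl fun i _ => h1 i, Finset.prod_ite_mem, Finset.univ_inter]
  have hqu : qq Finset.univ d (fun _ => 1) = ∏ i, d i :=
    Finset.prod_congr rfl fun i _ => if_pos (Finset.mem_univ i)
  have hcard : (Finset.univ \ V).card ∈ Finset.range (r + 1) := by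
    rw [Finset.mem_range]
    have := Finset.card_le_univ (Finset.univ \ V)
    rw [Fintype.card_fin] at this
    omega
  have hCle : C (Finset.univ \ V).card ≤ ∑ j ∈ Finset.range (r + 1), C j :=
    Finset.single_le_sum (f := C) (fun j _ => (hC j).le) hcard
  have hno : ∀ i : Fin r, i ∉ (Finset.univ : Finset (Fin r)) → False :=
    fun i hi => hi (Finset.mem_univ i)
  have h1 := h (Finset.univ \ V).card Finset.univ V d (fun _ => 1) (Finset.subset_univ V) rfl
    ⟨hd, fun i hi => (hno i hi).elim, fun i hi => (hno i hi).elim, fun i hi => (hno i hi).elim,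
      fun i hi => (hno i hi).elim, fun i k hi => (hno i hi).elim,
      fun i _ k hk => (hno k hk).elim⟩ (fun i hi j _ hj => ?_) B (Nat.cast_nonneg B)
      (fun i hi => ?_)
  · rwa [hq] at h1
  · have h2 : d k ≤ d i := (Finset.mem_filter.1 hi).2
    have h3 : ¬ d k ≤ d j := fun h' => hj (Finset.mem_filter.2 ⟨Finset.mem_univ j, h'⟩)
    omega
  · rw [hqu]
    push_cast
    have h2 : d k ≤ d i := (Finset.mem_filter.1 hi).2
    have h3 : (d k : ℝ) ≤ (d i : ℝ) := by exact_mod_cast h2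
    exact (mul_le_mul_of_nonneg_right hCle (Nat.cast_nonneg B)).trans
      (hB.trans (mul_le_mul_of_nonneg_left h3 (Finset.prod_nonneg fun i _ => Nat.cast_nonneg _)))

/-- The condition used in the main theorem. -/
def fam3 {r : ℕ} (d : Fin r → ℕ) (t : Fin r × ℕ) : AddSubmonoid ℕ :=
  sq 1 (∏ i with d t.1 ≤ d i, d i) (t.2 : ℝ)

/-- The base of the induction. -/
theorem base3 (n : ℕ) : ∃ c : ℕ, 1 ≤ c ∧ ∀ (r : ℕ) (e m : Fin r → ℕ),
    TypeOK2 n c (2 ^ n * n.factorial) ∅ e m → HasSp n r e (mult 1 (∏ i, m i)) := by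
  classical
  obtain ⟨c, hc, hT⟩ : ∃ c : ℕ, 0 < c ∧ ∀ (r : ℕ) (d : Fin r → ℕ) (k : Fin r)
      (p a : ℕ), p.Prime → p ^ a ∣ d k → c * p ^ a ≤ d k →
        HasSpecial n r d (p ^ a / Nat.gcd (p ^ a) c) := by
    rcases Nat.eq_zero_or_pos n with h0 | hn
    · subst h0
      exact ⟨1, one_pos, fun r d _ _ _ _ _ _ => Pool.Agent.MultiSpec.hasSpecial_zero r d _⟩
    · exact Pool.Agent.DensDeg.hasSpecial_T n hn
  have hf := Nat.factorial_pos n
  have hc1 : 1 ≤ c * (2 * n.factorial) := Nat.mul_pos hc (Nat.mul_pos two_pos hf)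
  refine ⟨c * (2 * n.factorial), hc1, fun r e m h => ?_⟩
  have hcle : c ≤ c * (2 * n.factorial) := Nat.le_mul_of_pos_right _ (by positivity)
  have hno : ∀ i : Fin r, i ∉ (∅ : Finset (Fin r)) := fun i => Finset.notMem_empty i
  refine hasSp_base2 (c := c * (2 * n.factorial)) hc1
    ((dvd_mul_right 2 _).trans (dvd_mul_left _ _)) ((dvd_mul_left _ _).trans (dvd_mul_left _ _))
    (fun r d k p a hp hpd hle => ?_) e m (fun i => h.mpos i (hno i)) (fun i => h.dvd i (hno i))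
    (fun i => h.cop i (hno i)) (fun i => h.lin i (hno i))
    (fun i k p hik hp h1 h2 => h.cross i k (hno i) (hno k) hik p hp h1 h2)
  have h1 := hT r d k p a hp hpd ((Nat.mul_le_mul_right _ hcle).trans hle)
  obtain ⟨K₀, i1, i2, i3, g, hg, hgP⟩ := h1
  refine ⟨K₀, i1, i2, i3, g, hg, fun κ _ _ _ _ P hP hPp hgP' e he => ?_⟩
  refine dvd_trans ?_ (hgP κ P hP hPp hgP' e he)
  have h2 : Nat.gcd (p ^ a) c ∣ Nat.gcd (p ^ a) (c * (2 * n.factorial)) :=
    Nat.gcd_dvd_gcd_of_dvd_right _ (dvd_mul_right _ _)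
  have h3 : p ^ a / Nat.gcd (p ^ a) (c * (2 * n.factorial)) ∣ p ^ a / Nat.gcd (p ^ a) c :=
    Nat.div_dvd_div_left (Nat.gcd_dvd_left _ _) h2
  exact_mod_cast h3

/-- **Main theorem.** -/
theorem main3 (hExc : ∀ n c F r : ℕ, 1 ≤ c → 1 ≤ F → Exc n c F r) (n r : ℕ) :
    ∃ C : ℕ, 0 < C ∧ ∀ d : Fin r → ℕ,
    ∃ bad : ℕ → MvPolynomial (Σ i : Fin r, {m : Fin (n + r + 1) →₀ ℕ // m.degree = d i}) ℂ,
      (∀ j, bad j ≠ 0) ∧
      ∀ f : Fin r → MvPolynomial (Fin (n + r + 1)) ℂ,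
        (∀ i, f i ∈ homogeneousSubmodule (Fin (n + r + 1)) ℂ (d i)) →
        (∀ j, eval (fun x => coeff x.2.1 (f x.1)) (bad j) ≠ 0) →
        ∀ I : Ideal (MvPolynomial (Fin (n + r + 1)) ℂ), Homog I →
          ringKrullDim (MvPolynomial (Fin (n + r + 1)) ℂ ⧸ I) = 2 →
          (∀ i, f i ∈ I) →
          ∃ e : ℕ, (∃ K : ℕ, ∀ k : ℕ, K ≤ k → hilb I (k + 1) = hilb I k + e) ∧
            ∀ k : Fin r, C * e ≤ (∏ i, d i) * d k → (∏ i with d k ≤ d i, d i) ∣ e := by
  classical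
  obtain ⟨c, hc, hbase⟩ := base3 n
  have hF : 1 ≤ 2 ^ n * n.factorial := Nat.mul_pos (Nat.pow_pos two_pos) (Nat.factorial_pos n)
  obtain ⟨C, hC, hprod⟩ := hasSp_prod3 r hF (hbase r) (al3 hc (hExc n c _ r hc hF) _)
  obtain ⟨N, hN⟩ := exists_nat_ge (2 * C)
  refine ⟨N + 1, by omega, fun d => ?_⟩
  obtain ⟨bad, h1, h2⟩ := main_of_family n r d (fam3 d)
  refine ⟨bad, h1, fun f hf hb I hI hdim hfI => ?_⟩
  obtain ⟨e, he, h3⟩ := h2 f hf hb I hI hdim hfI
  refine ⟨e, he, fun k hk => ?_⟩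
  rcases Nat.eq_zero_or_pos e with h0 | he0
  · rw [h0]; exact dvd_zero _
  have he1 : (1 : ℝ) ≤ (e : ℝ) := by exact_mod_cast he0
  have hk' : 2 * C * (e : ℝ) ≤ (∏ i, (d i : ℝ)) * (d k : ℝ) := by
    have h4 : (((N + 1) * e : ℕ) : ℝ) ≤ (((∏ i, d i) * d k : ℕ) : ℝ) := by exact_mod_cast hk
    push_cast at h4
    refine le_trans (mul_le_mul_of_nonneg_right ?_ (Nat.cast_nonneg e)) h4
    linarith
  have h4 : HasSp n r d (sq 1 (∏ i with d k ≤ d i, d i) ((e + 1 : ℕ) : ℝ)) := by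
    by_cases hd : ∀ i, 1 ≤ d i
    · refine hprod d hd k (e + 1) (le_trans ?_ hk')
      push_cast
      have : C * 1 ≤ C * e := mul_le_mul_of_nonneg_left he1 hC.le
      linarith
    · push Not at hd
      obtain ⟨i, hi⟩ := hd
      exact hasSp_of_zero (i := i) (by omega) _
  rcases mem_sq.1 (h3 (k, e + 1) h4) with h5 | h5
  · push_cast at h5
    linarith
  · rwa [one_mul] at h5

end Pool.Agent.SmallDeg
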