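import Pool.Agent.SmallDeg.Gen

/-!
Intersections and sums of conditions on the slopes.
-/

set_option autoImplicit false

namespace Pool.Agent.SmallDeg

open MvPolynomial Pool.Agent.CurveDeg

/-- Two countable fields of characteristic zero embed into a third one. -/
lemma exists_common (K₁ K₂ : Type) [Field K₁] [CharZero K₁] [Countable K₁] [Field K₂]
    [CharZero K₂] [Countable K₂] : ∃ (K : Type) (_ : Field K) (_ : CharZero K) (_ : Countable K)
      (_ : K₁ →+* K) (_ : K₂ →+* K), True := by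
  obtain ⟨φ₁⟩ := exists_embedding K₁
  obtain ⟨φ₂⟩ := exists_embedding K₂
  let s : Set ℂ := Set.range φ₁ ∪ Set.range φ₂
  have hs : s.Countable := (Set.countable_range _).union (Set.countable_range _)
  have hcount : Countable (Subfield.closure s) := by
    rw [← Cardinal.mk_le_aleph0_iff]
    refine (Subfield.cardinalMk_closure_le_max s).trans (max_le ?_ le_rfl)
    exact Cardinal.le_aleph0_iff_set_countable.2 hs
  refine ⟨Subfield.closure s, inferInstance, inferInstance, hcount,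
    φ₁.codRestrict (Subfield.closure s) fun x =>
      Subfield.subset_closure (Or.inl (Set.mem_range_self x)),
    φ₂.codRestrict (Subfield.closure s) fun x =>
      Subfield.subset_closure (Or.inr (Set.mem_range_self x)), trivial⟩

/-- The field of the generic forms is countable. -/
lemma countable_frac (Θ K : Type) [Countable Θ] [Field K] [Countable K] :
    Countable (FractionRing (MvPolynomial Θ K)) := by
  have h1 : Cardinal.mk (MvPolynomial Θ K) ≤ Cardinal.aleph0 :=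
    cardinalMk_le_max.trans (max_le (max_le (Cardinal.mk_le_aleph0_iff.2 inferInstance)
      (Cardinal.mk_le_aleph0_iff.2 inferInstance)) le_rfl)
  rw [← Cardinal.mk_le_aleph0_iff, Cardinal.mk_fractionRing]
  exact h1

/-- The generic coefficient. -/
noncomputable def gc {Θ : Type} (K : Type) [Field K] (θ : Θ) : FractionRing (MvPolynomial Θ K) :=
  algebraMap (MvPolynomial Θ K) (FractionRing (MvPolynomial Θ K)) (X θ)

/-- Generic forms inherit the condition on the slopes from special forms. -/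
theorem slope_mem_generic {σ : Type} [Finite σ] {r : ℕ} (d : Fin r → ℕ) {K₀ K Θ : Type}
    [Field K₀] [CharZero K₀] [Field K] (φ : K₀ →+* K)
    (ι : (Σ i : Fin r, Mon σ (d i)) → Θ) (hι : Function.Injective ι)
    (g : Fin r → MvPolynomial σ K₀) (hg : ∀ i, g i ∈ homogeneousSubmodule σ K₀ (d i))
    (S : AddSubmonoid ℕ) (hS : SlopesIn K₀ g S)
    (f : Fin r → MvPolynomial σ (FractionRing (MvPolynomial Θ K)))
    (hf : ∀ i, f i ∈ homogeneousSubmodule σ (FractionRing (MvPolynomial Θ K)) (d i))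
    (hfc : ∀ (i : Fin r) (m : Mon σ (d i)), coeff m.1 (f i) = gc K (ι ⟨i, m⟩))
    (κ : Type) [Field κ] [IsAlgClosed κ] [Algebra (FractionRing (MvPolynomial Θ K)) κ]
    (P : Ideal (MvPolynomial σ κ)) (hP : Homog P)
    (hfP : ∀ i, map (algebraMap (FractionRing (MvPolynomial Θ K)) κ) (f i) ∈ P) (e : ℕ)
    (he : EvAffine (hilb P) e) : e ∈ S := by
  let ψ : FractionRing (MvPolynomial Θ K) →+* κ := algebraMap _ κ
  let alg : Algebra K₀ κ := (((ψ.comp (algebraMap (MvPolynomial Θ K)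
    (FractionRing (MvPolynomial Θ K)))).comp C).comp φ).toAlgebra
  refine slope_mem_of_generic d (K₀ := K₀) (L := κ) (fun i => map ψ (f i)) (fun i => ?_) ?_ g hg S
    hS P hP hfP e he
  · exact IsHomogeneous.map (show IsHomogeneous (f i) (d i) from hf i) _
  · intro q hq
    have h := gen_ne_zero φ ι hι ψ q hq
    have h1 : (fun x : (Σ i : Fin r, Mon σ (d i)) => coeff x.2.1 (map ψ (f x.1))) =
        fun x => ψ (algebraMap (MvPolynomial Θ K) (FractionRing (MvPolynomial Θ K))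
          (X (ι x))) := by
      funext x
      rw [coeff_map, hfc x.1 x.2]
      rfl
    rw [h1, aeval_def]
    exact h

/-- Intersections. -/
theorem HasSp.inter {n r : ℕ} {d : Fin r → ℕ} {S₁ S₂ : AddSubmonoid ℕ} (h₁ : HasSp n r d S₁)
    (h₂ : HasSp n r d S₂) : HasSp n r d (S₁ ⊓ S₂) := by
  obtain ⟨K₁, _, _, _, g₁, hg₁, hS₁⟩ := h₁
  obtain ⟨K₂, _, _, _, g₂, hg₂, hS₂⟩ := h₂
  obtain ⟨K, _, _, _, φ₁, φ₂, _⟩ := exists_common K₁ K₂
  let Θ : Type := Σ i : Fin r, Mon (Fin (n + r + 1)) (d i)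
  let F : Type := FractionRing (MvPolynomial Θ K)
  let f : Fin r → MvPolynomial (Fin (n + r + 1)) F :=
    fun i => form (k := d i) fun m => gc K (⟨i, m⟩ : Θ)
  have hf : ∀ i, f i ∈ homogeneousSubmodule (Fin (n + r + 1)) F (d i) := fun i => form_mem _
  have hfc : ∀ (i : Fin r) (m : Mon (Fin (n + r + 1)) (d i)),
      coeff m.1 (f i) = gc K (id (⟨i, m⟩ : Θ)) := fun i m => coeff_form _ m
  refine ⟨F, inferInstance, inferInstance, countable_frac Θ K, f, hf, ?_⟩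
  intro κ _ _ _ _ P hP _ hfP e he
  exact ⟨slope_mem_generic d φ₁ id Function.injective_id g₁ hg₁ S₁ hS₁ f hf hfc κ P hP hfP e he,
    slope_mem_generic d φ₂ id Function.injective_id g₂ hg₂ S₂ hS₂ f hf hfc κ P hP hfP e he⟩

/-- Unions of two complete intersections. -/
theorem HasSp.sup {n r : ℕ} {d₁ d₂ d : Fin r → ℕ} {k : Fin r} (hk : d₁ k + d₂ k = d k)
    (h1 : ∀ i, i ≠ k → d₁ i = d i) (h2 : ∀ i, i ≠ k → d₂ i = d i) {S₁ S₂ : AddSubmonoid ℕ}
    (h₁ : HasSp n r d₁ S₁) (h₂ : HasSp n r d₂ S₂) : HasSp n r d (S₁ ⊔ S₂) := by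
  classical
  obtain ⟨K₁, _, _, _, g₁, hg₁, hS₁⟩ := h₁
  obtain ⟨K₂, _, _, _, g₂, hg₂, hS₂⟩ := h₂
  obtain ⟨K, _, _, _, φ₁, φ₂, _⟩ := exists_common K₁ K₂
  let Θ : Type := (Σ i : Fin r, Mon (Fin (n + r + 1)) (d₁ i)) ⊕
    (Σ i : Fin r, Mon (Fin (n + r + 1)) (d₂ i))
  let F : Type := FractionRing (MvPolynomial Θ K)
  let f₁ : Fin r → MvPolynomial (Fin (n + r + 1)) F :=
    fun i => form (k := d₁ i) fun m => gc K (Sum.inl ⟨i, m⟩ : Θ)
  let h : Fin r → MvPolynomial (Fin (n + r + 1)) F :=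
    fun i => form (k := d₂ i) fun m => gc K (Sum.inr ⟨i, m⟩ : Θ)
  let f₂ : Fin r → MvPolynomial (Fin (n + r + 1)) F := fun i => if i = k then h i else f₁ i
  have hf₁ : ∀ i, f₁ i ∈ homogeneousSubmodule (Fin (n + r + 1)) F (d₁ i) := fun i => form_mem _
  have hh : ∀ i, h i ∈ homogeneousSubmodule (Fin (n + r + 1)) F (d₂ i) := fun i => form_mem _
  have hf₂ : ∀ i, f₂ i ∈ homogeneousSubmodule (Fin (n + r + 1)) F (d₂ i) := by
    intro i
    by_cases hi : i = k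
    · have : f₂ i = h i := if_pos hi
      rw [this]; exact hh i
    · have : f₂ i = f₁ i := if_neg hi
      rw [this, h2 i hi, ← h1 i hi]; exact hf₁ i
  have hfc₁ : ∀ (i : Fin r) (m : Mon (Fin (n + r + 1)) (d₁ i)),
      coeff m.1 (f₁ i) = gc K ((Sum.inl (⟨i, m⟩ : Σ i : Fin r, Mon (Fin (n + r + 1)) (d₁ i)) : Θ)) :=
    fun i m => coeff_form _ m
  let ι₂ : (Σ i : Fin r, Mon (Fin (n + r + 1)) (d₂ i)) → Θ := fun x =>
    if hx : x.1 = k then Sum.inr x
    else Sum.inl ⟨x.1, ⟨x.2.1, by rw [h1 x.1 hx, ← h2 x.1 hx]; exact x.2.2⟩⟩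
  have hι₂ : Function.Injective ι₂ := by
    rintro ⟨i, m, hm⟩ ⟨j, m', hm'⟩ hij
    by_cases hi : i = k <;> by_cases hj : j = k
    · have e1 : ι₂ ⟨i, ⟨m, hm⟩⟩ = Sum.inr ⟨i, ⟨m, hm⟩⟩ := dif_pos hi
      have e2 : ι₂ ⟨j, ⟨m', hm'⟩⟩ = Sum.inr ⟨j, ⟨m', hm'⟩⟩ := dif_pos hj
      rw [e1, e2] at hij
      exact Sum.inr_injective hij
    · have e1 : ι₂ ⟨i, ⟨m, hm⟩⟩ = Sum.inr ⟨i, ⟨m, hm⟩⟩ := dif_pos hi
      have e2 : ι₂ ⟨j, ⟨m', hm'⟩⟩ =
        Sum.inl ⟨j, ⟨m', by rw [h1 j hj, ← h2 j hj]; exact hm'⟩⟩ := dif_neg hj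
      rw [e1, e2] at hij
      exact absurd hij.symm Sum.inl_ne_inr
    · have e1 : ι₂ ⟨i, ⟨m, hm⟩⟩ =
        Sum.inl ⟨i, ⟨m, by rw [h1 i hi, ← h2 i hi]; exact hm⟩⟩ := dif_neg hi
      have e2 : ι₂ ⟨j, ⟨m', hm'⟩⟩ = Sum.inr ⟨j, ⟨m', hm'⟩⟩ := dif_pos hj
      rw [e1, e2] at hij
      exact absurd hij Sum.inl_ne_inr
    · have e1 : ι₂ ⟨i, ⟨m, hm⟩⟩ =
        Sum.inl ⟨i, ⟨m, by rw [h1 i hi, ← h2 i hi]; exact hm⟩⟩ := dif_neg hi
      have e2 : ι₂ ⟨j, ⟨m', hm'⟩⟩ =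
        Sum.inl ⟨j, ⟨m', by rw [h1 j hj, ← h2 j hj]; exact hm'⟩⟩ := dif_neg hj
      rw [e1, e2] at hij
      have h3 := Sum.inl_injective hij
      rw [Sigma.mk.injEq] at h3
      obtain ⟨rfl, h4⟩ := h3
      have h5 := congrArg Subtype.val (eq_of_heq h4)
      change m = m' at h5
      subst h5
      rfl
  have hfc₂ : ∀ (i : Fin r) (m : Mon (Fin (n + r + 1)) (d₂ i)),
      coeff m.1 (f₂ i) = gc K (ι₂ ⟨i, m⟩) := by
    intro i m
    by_cases hi : i = k
    · have e1 : f₂ i = h i := if_pos hi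
      have e2 : ι₂ ⟨i, m⟩ = Sum.inr ⟨i, m⟩ := dif_pos hi
      rw [e1, e2]
      exact coeff_form _ m
    · have e1 : f₂ i = f₁ i := if_neg hi
      have e2 : ι₂ ⟨i, m⟩ = Sum.inl ⟨i, ⟨m.1, by rw [h1 i hi, ← h2 i hi]; exact m.2⟩⟩ :=
        dif_neg hi
      rw [e1, e2]
      exact hfc₁ i ⟨m.1, by rw [h1 i hi, ← h2 i hi]; exact m.2⟩
  let f : Fin r → MvPolynomial (Fin (n + r + 1)) F := fun i => if i = k then f₁ i * h i else f₁ i
  refine ⟨F, inferInstance, inferInstance, countable_frac Θ K, f, fun i => ?_, ?_⟩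
  · by_cases hi : i = k
    · have e1 : f i = f₁ i * h i := if_pos hi
      rw [e1]
      subst hi
      rw [← hk]
      exact IsHomogeneous.mul (hf₁ i) (hh i)
    · have e1 : f i = f₁ i := if_neg hi
      rw [e1, ← h1 i hi]
      exact hf₁ i
  · intro κ _ _ _ _ P hP hPp hfP e he
    have hoff : ∀ i, i ≠ k → map (algebraMap F κ) (f₁ i) ∈ P := by
      intro i hi
      have e1 : f i = f₁ i := if_neg hi
      rw [← e1]
      exact hfP i
    have hkP := hfP k
    have e1 : f k = f₁ k * h k := if_pos rfl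
    rw [e1, map_mul] at hkP
    rcases hPp.mem_or_mem hkP with hc | hc
    · have h3 : ∀ i, map (algebraMap F κ) (f₁ i) ∈ P := by
        intro i
        by_cases hi : i = k
        · rw [hi]; exact hc
        · exact hoff i hi
      exact (le_sup_left : S₁ ≤ S₁ ⊔ S₂) (slope_mem_generic d₁ φ₁ _ Sum.inl_injective g₁ hg₁ S₁
        hS₁ f₁ hf₁ hfc₁ κ P hP h3 e he)
    · have h3 : ∀ i, map (algebraMap F κ) (f₂ i) ∈ P := by
        intro i
        by_cases hi : i = k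
        · have e2 : f₂ i = h i := if_pos hi
          rw [e2, hi]; exact hc
        · have e2 : f₂ i = f₁ i := if_neg hi
          rw [e2]; exact hoff i hi
      exact (le_sup_right : S₂ ≤ S₁ ⊔ S₂) (slope_mem_generic d₂ φ₂ ι₂ hι₂ g₂ hg₂ S₂
        hS₂ f₂ hf₂ hfc₂ κ P hP h3 e he)

end Pool.Agent.SmallDeg
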