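import Pool.Agent.SmallDeg.Family

/-!
The product of the degrees: the geometric induction.
-/

set_option autoImplicit false

namespace Pool.Agent.SmallDeg

open MvPolynomial Pool.Agent.CurveDeg

/-- The arithmetic statement used below. -/
def AL (c₀ r : ℕ) (ε : ℝ) : Prop :=
  ∃ C : ℝ, 0 < C ∧ ∀ d M D : ℕ, 1 ≤ d → 1 ≤ M → M ≤ d ^ r → C * (D : ℝ) ≤ (d : ℝ) ^ (2 - ε) →
    (∀ a₁ a₂ μ₁ μ₂ : ℕ, c₀ ≤ a₁ → c₀ ≤ a₂ → (d : ℝ) ^ (1 - ε / 4) ≤ μ₁ →
      (d : ℝ) ^ (1 - ε / 4) ≤ μ₂ → a₁ * μ₁ + a₂ * μ₂ = d → Nat.Coprime (μ₁ * μ₂) M →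
      ∃ x y : ℕ, D = x * μ₁ + y * μ₂) → d ∣ D

/-- The divisor attached to a type: full degrees for the general equations, and the numbers `m i`
for the others. -/
def qq {r : ℕ} (U : Finset (Fin r)) (e m : Fin r → ℕ) : ℕ := ∏ i, if i ∈ U then e i else m i

/-- The same without the equation `i₀`. -/
def qe {r : ℕ} (U : Finset (Fin r)) (e m : Fin r → ℕ) (i₀ : Fin r) : ℕ :=
  ∏ i ∈ Finset.univ.erase i₀, if i ∈ U then e i else m i

/-- The conditions on a type. -/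
structure TypeOK (c : ℕ) {r : ℕ} (U : Finset (Fin r)) (e m : Fin r → ℕ) : Prop where
  pos : ∀ i, 1 ≤ e i
  dvd : ∀ i, i ∉ U → m i ∣ e i
  mpos : ∀ i, i ∉ U → 1 ≤ m i
  small : ∀ i, i ∉ U → m i = 1 ∨ c * m i ≤ e i
  cop : ∀ i, i ∉ U → Nat.Coprime (m i) c
  coprime : ∀ i k, i ∉ U → k ∉ U → i ≠ k → Nat.Coprime (m i) (m k)
  le : ∀ i ∈ U, ∀ k, k ∉ U → m k ≤ e i

variable {r : ℕ} {U : Finset (Fin r)} {e m : Fin r → ℕ} {i₀ : Fin r}

lemma qq_mem (hi : i₀ ∈ U) : qq U e m = e i₀ * qe U e m i₀ := by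
  classical
  rw [qq, qe, ← Finset.mul_prod_erase _ _ (Finset.mem_univ i₀), if_pos hi]

lemma qq_update (x μ : ℕ) :
    qq (U.erase i₀) (Function.update e i₀ x) (Function.update m i₀ μ) = μ * qe U e m i₀ := by
  classical
  rw [qq, qe, ← Finset.mul_prod_erase _ _ (Finset.mem_univ i₀),
    if_neg (Finset.notMem_erase i₀ U), Function.update_self]
  congr 1
  refine Finset.prod_congr rfl fun i hi => ?_
  have h := Finset.ne_of_mem_erase hi
  rw [Function.update_of_ne h, Function.update_of_ne h]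
  by_cases hU : i ∈ U
  · rw [if_pos hU, if_pos (Finset.mem_erase.2 ⟨h, hU⟩)]
  · rw [if_neg hU, if_neg (fun h' => hU (Finset.mem_of_mem_erase h'))]

lemma TypeOK.qe_pos {c : ℕ} (h : TypeOK c U e m) : 0 < qe U e m i₀ := by
  classical
  refine Finset.prod_pos fun i _ => ?_
  by_cases hU : i ∈ U
  · rw [if_pos hU]; exact h.pos i
  · rw [if_neg hU]; exact h.mpos i hU

lemma TypeOK.qq_pos {c : ℕ} (h : TypeOK c U e m) : 0 < qq U e m := by
  classical
  refine Finset.prod_pos fun i _ => ?_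
  by_cases hU : i ∈ U
  · rw [if_pos hU]; exact h.pos i
  · rw [if_neg hU]; exact h.mpos i hU

/-- The product of the numbers `m i` already chosen. -/
def mm {r : ℕ} (U : Finset (Fin r)) (m : Fin r → ℕ) : ℕ := ∏ i ∈ Finset.univ.filter (· ∉ U), m i

lemma TypeOK.mm_pos {c : ℕ} (h : TypeOK c U e m) : 1 ≤ mm U m := by
  classical
  exact Nat.one_le_iff_ne_zero.2 (Finset.prod_ne_zero_iff.2 fun i hi =>
    Nat.one_le_iff_ne_zero.1 (h.mpos i (Finset.mem_filter.1 hi).2))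

lemma TypeOK.mm_le {c : ℕ} (h : TypeOK c U e m) (hi : i₀ ∈ U) : mm U m ≤ e i₀ ^ r := by
  classical
  have h1 : mm U m ≤ ∏ _i ∈ Finset.univ.filter (· ∉ U), e i₀ :=
    Finset.prod_le_prod' fun i hi' => h.le i₀ hi i (Finset.mem_filter.1 hi').2
  rw [Finset.prod_const] at h1
  refine h1.trans (Nat.pow_le_pow_right (h.pos i₀) ?_)
  exact (Finset.card_le_univ _).trans (by rw [Fintype.card_fin])

/-- Specialising one equation. -/
lemma TypeOK.update {c : ℕ} (h : TypeOK c U e m) (hmin : ∀ i ∈ U, e i₀ ≤ e i)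
    {x μ : ℕ} (hx : 1 ≤ x) (hμ : 1 ≤ μ) (hdvd : μ ∣ x) (hs : μ = 1 ∨ c * μ ≤ x) (hle : μ ≤ e i₀)
    (hcop : Nat.Coprime μ (mm U m)) (hcopc : Nat.Coprime μ c) :
    TypeOK c (U.erase i₀) (Function.update e i₀ x) (Function.update m i₀ μ) := by
  classical
  have hnot : ∀ i, i ≠ i₀ → i ∉ U.erase i₀ → i ∉ U := fun i h1 h2 h3 =>
    h2 (Finset.mem_erase.2 ⟨h1, h3⟩)
  have hcop' : ∀ i, i ≠ i₀ → i ∉ U.erase i₀ → Nat.Coprime μ (m i) := by
    intro i h1 h2
    refine Nat.Coprime.coprime_dvd_right ?_ hcop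
    exact Finset.dvd_prod_of_mem _ (Finset.mem_filter.2 ⟨Finset.mem_univ i, hnot i h1 h2⟩)
  refine ⟨fun i => ?_, fun i hU => ?_, fun i hU => ?_, fun i hU => ?_, fun i hU => ?_,
    fun i k hiU hkU hik => ?_, fun i hU k hkU => ?_⟩
  · by_cases h1 : i = i₀
    · rw [h1, Function.update_self]; exact hx
    · rw [Function.update_of_ne h1]; exact h.pos i
  · by_cases h1 : i = i₀
    · rw [h1, Function.update_self, Function.update_self]; exact hdvd
    · rw [Function.update_of_ne h1, Function.update_of_ne h1]; exact h.dvd i (hnot i h1 hU)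
  · by_cases h1 : i = i₀
    · rw [h1, Function.update_self]; exact hμ
    · rw [Function.update_of_ne h1]; exact h.mpos i (hnot i h1 hU)
  · by_cases h1 : i = i₀
    · rw [h1, Function.update_self, Function.update_self]; exact hs
    · rw [Function.update_of_ne h1, Function.update_of_ne h1]; exact h.small i (hnot i h1 hU)
  · by_cases h1 : i = i₀
    · rw [h1, Function.update_self]; exact hcopc
    · rw [Function.update_of_ne h1]; exact h.cop i (hnot i h1 hU)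
  · by_cases h1 : i = i₀
    · by_cases h2 : k = i₀
      · exact absurd (h1.trans h2.symm) hik
      · rw [h1, Function.update_self, Function.update_of_ne h2]; exact hcop' k h2 hkU
    · by_cases h2 : k = i₀
      · rw [h2, Function.update_self, Function.update_of_ne h1]; exact (hcop' i h1 hiU).symm
      · rw [Function.update_of_ne h1, Function.update_of_ne h2]
        exact h.coprime i k (hnot i h1 hiU) (hnot k h2 hkU) hik
  · have h1 : i ≠ i₀ := Finset.ne_of_mem_erase hU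
    have h2 : i ∈ U := Finset.mem_of_mem_erase hU
    rw [Function.update_of_ne h1]
    by_cases h3 : k = i₀
    · rw [h3, Function.update_self]; exact hle.trans (hmin i h2)
    · rw [Function.update_of_ne h3]; exact h.le i h2 k (hnot k h3 hkU)

/-- Divisors prime to `c`. -/
lemma hasSp_mult_one {n c : ℕ} (hT : ∀ (r : ℕ) (d : Fin r → ℕ) (k : Fin r)
      (p a : ℕ), p.Prime → p ^ a ∣ d k → c * p ^ a ≤ d k →
        HasSpecial n r d (p ^ a / Nat.gcd (p ^ a) c)) {r : ℕ} (d : Fin r → ℕ) (k : Fin r)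
    {m : ℕ} (hm : 0 < m) (hdvd : m ∣ d k) (hle : c * m ≤ d k) (hcop : Nat.Coprime m c) :
    HasSp n r d (mult 1 m) :=
  (hasSp_mult hT d k hm hdvd hle).mono fun x hx => by
    rw [mem_mult] at hx ⊢
    rw [one_mul]
    exact hcop.dvd_of_dvd_mul_left hx

/-- The beginning of the induction. -/
theorem claim_zero {n c : ℕ} (hT : ∀ (r : ℕ) (d : Fin r → ℕ) (k : Fin r)
      (p a : ℕ), p.Prime → p ^ a ∣ d k → c * p ^ a ≤ d k →
        HasSpecial n r d (p ^ a / Nat.gcd (p ^ a) c)) (hU : U = ∅) (h : TypeOK c U e m) (B : ℝ) :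
    HasSp n r e (sq 1 (qq U e m) B) := by
  classical
  subst hU
  have h1 : ∀ i ∈ (Finset.univ : Finset (Fin r)), HasSp n r e (mult 1 (m i)) := by
    intro i _
    have hi : i ∉ (∅ : Finset (Fin r)) := Finset.notMem_empty i
    rcases h.small i hi with h1 | h1
    · rw [h1]; exact hasSp_one n r e 1
    · exact hasSp_mult_one hT e i (h.mpos i hi) (h.dvd i hi) h1 (h.cop i hi)
  refine (HasSp.finset_inf Finset.univ (fun i => mult 1 (m i)) h1).mono ?_
  intro x hx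
  refine mem_sq.2 (Or.inr ?_)
  have h2 : ∀ i, m i ∣ 1 * x := fun i => mem_mult.1 ((Finset.inf_le (f := fun i => mult 1 (m i))
    (Finset.mem_univ i)) hx)
  have h3 : qq ∅ e m = ∏ i, m i := Finset.prod_congr rfl fun i _ => if_neg (Finset.notMem_empty i)
  rw [h3]
  refine Finset.prod_dvd_of_isRelPrime (fun i _ k _ hik => ?_) fun i _ => h2 i
  exact Nat.coprime_iff_isRelPrime.1
    (h.coprime i k (Finset.notMem_empty i) (Finset.notMem_empty k) hik)

/-- The step of the induction. -/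
theorem claim_step {n c : ℕ} {j : ℕ} {ε : ℝ} (hc : 1 ≤ c) (hε : 0 < ε) (hε1 : ε < 1) (r : ℕ)
    (hAL : AL c (r + 1) ε)
    (ih : ∃ C : ℝ, 0 < C ∧ ∀ (U : Finset (Fin r)) (e m : Fin r → ℕ), U.card = j →
      TypeOK c U e m → ∀ B : ℝ, 0 ≤ B →
      (∀ i ∈ U, C * B ≤ qq U e m * (e i : ℝ) ^ (1 - 3 * ε / 4)) →
        HasSp n r e (sq 1 (qq U e m) B)) :
    ∃ C : ℝ, 0 < C ∧ ∀ (U : Finset (Fin r)) (e m : Fin r → ℕ), U.card = j + 1 →
      TypeOK c U e m → ∀ B : ℝ, 0 ≤ B →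
      (∀ i ∈ U, C * B ≤ qq U e m * (e i : ℝ) ^ (1 - ε)) →
        HasSp n r e (sq 1 (qq U e m) B) := by
  classical
  obtain ⟨C', hC', ih⟩ := ih
  obtain ⟨A, hA, hAL⟩ := hAL
  have hcr : (1 : ℝ) ≤ (c : ℝ) := by exact_mod_cast hc
  have hE : (0 : ℝ) < A + c + 2 := by positivity
  have hE1 : (1 : ℝ) ≤ A + c + 2 := by linarith
  refine ⟨C' + A + (C' + 1) * (A + c + 2) ^ 2, by positivity, fun U e m hU h B hB hCB => ?_⟩
  have hne : U.Nonempty := by rw [← Finset.card_pos]; omega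
  obtain ⟨i₀, hi₀, hmin⟩ := Finset.exists_min_image U e hne
  have hcard : (U.erase i₀).card = j := by rw [Finset.card_erase_of_mem hi₀]; omega
  have hQ' : 0 < qe U e m i₀ := h.qe_pos
  have hqq := qq_mem (e := e) (m := m) hi₀
  have hd1 : 1 ≤ e i₀ := h.pos i₀
  have hd1' : (1 : ℝ) ≤ (e i₀ : ℝ) := by exact_mod_cast hd1
  have hd0 : (0 : ℝ) < (e i₀ : ℝ) := by linarith
  have hQr : (0 : ℝ) < (qe U e m i₀ : ℝ) := by exact_mod_cast hQ'
  have hpow : (e i₀ : ℝ) * (e i₀ : ℝ) ^ (1 - ε) = (e i₀ : ℝ) ^ (2 - ε) := by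
    nth_rewrite 1 [← Real.rpow_one (e i₀ : ℝ)]
    rw [← Real.rpow_add hd0]
    congr 1
    ring
  have hmain : (C' + A + (C' + 1) * (A + c + 2) ^ 2) * B ≤
      (qe U e m i₀ : ℝ) * (e i₀ : ℝ) ^ (2 - ε) := by
    have h1 := hCB i₀ hi₀
    rw [hqq] at h1
    push_cast at h1
    calc _ ≤ _ := h1
      _ = (qe U e m i₀ : ℝ) * ((e i₀ : ℝ) * (e i₀ : ℝ) ^ (1 - ε)) := by ring
      _ = _ := by rw [hpow]
  by_cases hl : 2 ≤ e i₀ ∧ c ≤ e i₀ ∧ A ≤ (e i₀ : ℝ) ^ (2 - ε)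
  · -- the minimal degree is large
    have hone : ∀ a μ : ℕ, c ≤ a → (e i₀ : ℝ) ^ (1 - ε / 4) ≤ μ → a * μ ≤ e i₀ →
        Nat.Coprime μ (c * mm U m) →
        HasSp n r (Function.update e i₀ (a * μ)) (sq 1 (μ * qe U e m i₀) B) := by
      intro a μ ha hμ hle hcop
      have hμ0 : (0 : ℝ) < (μ : ℝ) := lt_of_lt_of_le (Real.rpow_pos_of_pos hd0 _) hμ
      have hμ1 : 1 ≤ μ := by exact_mod_cast hμ0
      have ha1 : 1 ≤ a := hc.trans ha
      have hOK : TypeOK c (U.erase i₀) (Function.update e i₀ (a * μ))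
          (Function.update m i₀ μ) :=
        h.update hmin (Nat.mul_pos ha1 hμ1) hμ1 (dvd_mul_left _ _)
          (Or.inr (Nat.mul_le_mul_right _ ha))
          ((Nat.le_mul_of_pos_left μ ha1).trans hle) (Nat.Coprime.coprime_mul_left_right hcop)
          (Nat.Coprime.coprime_mul_right_right hcop)
      have h1 := ih _ _ _ hcard hOK B hB (fun i hi => ?_)
      · rwa [qq_update] at h1
      · rw [qq_update, Function.update_of_ne (Finset.ne_of_mem_erase hi)]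
        have hiU : i ∈ U := Finset.mem_of_mem_erase hi
        have h2 : (e i₀ : ℝ) ≤ (e i : ℝ) := by exact_mod_cast hmin i hiU
        have h3 : (e i₀ : ℝ) ^ (1 - 3 * ε / 4) ≤ (e i : ℝ) ^ (1 - 3 * ε / 4) :=
          Real.rpow_le_rpow hd0.le h2 (by linarith)
        have h4 : (e i₀ : ℝ) ^ (2 - ε) =
            (e i₀ : ℝ) ^ (1 - ε / 4) * (e i₀ : ℝ) ^ (1 - 3 * ε / 4) := by
          rw [← Real.rpow_add hd0]
          congr 1
          ring
        have h5 : (e i₀ : ℝ) ^ (2 - ε) ≤ (μ : ℝ) * (e i : ℝ) ^ (1 - 3 * ε / 4) := by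
          rw [h4]
          exact mul_le_mul hμ h3 (Real.rpow_nonneg hd0.le _) hμ0.le
        push_cast
        calc C' * B ≤ (C' + A + (C' + 1) * (A + c + 2) ^ 2) * B := by
              refine mul_le_mul_of_nonneg_right ?_ hB
              have : (0 : ℝ) ≤ A + (C' + 1) * (A + c + 2) ^ 2 := by positivity
              linarith
          _ ≤ (qe U e m i₀ : ℝ) * (e i₀ : ℝ) ^ (2 - ε) := hmain
          _ ≤ (qe U e m i₀ : ℝ) * ((μ : ℝ) * (e i : ℝ) ^ (1 - 3 * ε / 4)) :=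
              mul_le_mul_of_nonneg_left h5 hQr.le
          _ = _ := by ring
    let P : ℕ × ℕ × ℕ × ℕ → Prop := fun t => c ≤ t.1 ∧ c ≤ t.2.1 ∧
      (e i₀ : ℝ) ^ (1 - ε / 4) ≤ t.2.2.1 ∧ (e i₀ : ℝ) ^ (1 - ε / 4) ≤ t.2.2.2 ∧
      t.1 * t.2.2.1 + t.2.1 * t.2.2.2 = e i₀ ∧ Nat.Coprime (t.2.2.1 * t.2.2.2) (c * mm U m)
    let R : Finset ℕ := Finset.range (e i₀ + 1)
    let s : Finset (ℕ × ℕ × ℕ × ℕ) := (R ×ˢ R ×ˢ R ×ˢ R).filter P
    let S : ℕ × ℕ × ℕ × ℕ → AddSubmonoid ℕ := fun t =>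
      sq 1 (t.2.2.1 * qe U e m i₀) B ⊔ sq 1 (t.2.2.2 * qe U e m i₀) B
    have hS : ∀ t ∈ s, HasSp n r e (S t) := by
      intro t ht
      obtain ⟨h1, h2, h3, h4, h5, h6⟩ := (Finset.mem_filter.1 ht).2
      refine HasSp.sup (k := i₀) (d₁ := Function.update e i₀ (t.1 * t.2.2.1))
        (d₂ := Function.update e i₀ (t.2.1 * t.2.2.2)) (by
          rw [Function.update_self, Function.update_self]; exact h5)
        (fun i hi => Function.update_of_ne hi _ _) (fun i hi => Function.update_of_ne hi _ _)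
        (hone _ _ h1 h3 (by omega) (Nat.Coprime.coprime_mul_right h6))
        (hone _ _ h2 h4 (by omega) (Nat.Coprime.coprime_mul_left h6))
    have hmem : ∀ a₁ a₂ μ₁ μ₂ : ℕ, c ≤ a₁ → c ≤ a₂ → (e i₀ : ℝ) ^ (1 - ε / 4) ≤ μ₁ →
        (e i₀ : ℝ) ^ (1 - ε / 4) ≤ μ₂ → a₁ * μ₁ + a₂ * μ₂ = e i₀ →
        Nat.Coprime (μ₁ * μ₂) (c * mm U m) → (a₁, a₂, μ₁, μ₂) ∈ s := by
      intro a₁ a₂ μ₁ μ₂ h1 h2 h3 h4 h5 h6
      refine Finset.mem_filter.2 ⟨?_, h1, h2, h3, h4, h5, h6⟩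
      have hμ₁ : 1 ≤ μ₁ := by
        have : (0 : ℝ) < (μ₁ : ℝ) := lt_of_lt_of_le (Real.rpow_pos_of_pos hd0 _) h3
        exact_mod_cast this
      have hμ₂ : 1 ≤ μ₂ := by
        have : (0 : ℝ) < (μ₂ : ℝ) := lt_of_lt_of_le (Real.rpow_pos_of_pos hd0 _) h4
        exact_mod_cast this
      have k1 : a₁ ≤ a₁ * μ₁ := Nat.le_mul_of_pos_right _ hμ₁
      have k2 : a₂ ≤ a₂ * μ₂ := Nat.le_mul_of_pos_right _ hμ₂
      have k3 : μ₁ ≤ a₁ * μ₁ := Nat.le_mul_of_pos_left _ (hc.trans h1)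
      have k4 : μ₂ ≤ a₂ * μ₂ := Nat.le_mul_of_pos_left _ (hc.trans h2)
      simp only [Finset.mem_product, R, Finset.mem_range]
      omega
    have hM1 : 1 ≤ c * mm U m := Nat.mul_pos hc h.mm_pos
    have hM2 : c * mm U m ≤ e i₀ ^ (r + 1) := by
      rw [pow_succ, mul_comm]
      exact Nat.mul_le_mul (h.mm_le hi₀) hl.2.1
    refine (HasSp.finset_inf s S hS).mono fun x hx => ?_
    rw [mem_sq]
    by_cases hxB : B ≤ x
    · exact Or.inl hxB
    right
    rw [not_le] at hxB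
    have hdec : ∀ t ∈ s, ∃ u v : ℕ, x = qe U e m i₀ * (u * t.2.2.1 + v * t.2.2.2) := by
      intro t ht
      have h1 : x ∈ S t := (Finset.inf_le (f := S) ht) hx
      obtain ⟨y, hy, z, hz, hyz⟩ := AddSubmonoid.mem_sup.1 h1
      have hyx : (y : ℝ) ≤ (x : ℝ) := by exact_mod_cast (by omega : y ≤ x)
      have hzx : (z : ℝ) ≤ (x : ℝ) := by exact_mod_cast (by omega : z ≤ x)
      rcases mem_sq.1 hy with hy | ⟨u, hu⟩
      · linarith
      rcases mem_sq.1 hz with hz | ⟨v, hv⟩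
      · linarith
      rw [one_mul] at hu hv
      exact ⟨u, v, by rw [← hyz, hu, hv]; ring⟩
    obtain ⟨t₀, ht₀⟩ : ∃ t, t ∈ s := by
      by_contra hcon
      push Not at hcon
      have h1 : e i₀ ∣ 1 := hAL (e i₀) (c * mm U m) 1 hd1 hM1 hM2
        (by rw [Nat.cast_one, mul_one]; exact hl.2.2)
        fun a₁ a₂ μ₁ μ₂ h1 h2 h3 h4 h5 h6 => absurd (hmem a₁ a₂ μ₁ μ₂ h1 h2 h3 h4 h5 h6) (hcon _)
      have h2 := Nat.le_of_dvd one_pos h1
      omega
    obtain ⟨u₀, v₀, h₀⟩ := hdec t₀ ht₀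
    set D₀ := u₀ * t₀.2.2.1 + v₀ * t₀.2.2.2 with hD₀
    have hD : A * (D₀ : ℝ) ≤ (e i₀ : ℝ) ^ (2 - ε) := by
      have h1 : (qe U e m i₀ : ℝ) * (D₀ : ℝ) = (x : ℝ) := by exact_mod_cast h₀.symm
      have h2 : A * B ≤ (qe U e m i₀ : ℝ) * (e i₀ : ℝ) ^ (2 - ε) := by
        refine le_trans (mul_le_mul_of_nonneg_right ?_ hB) hmain
        have : (0 : ℝ) ≤ C' + (C' + 1) * (A + c + 2) ^ 2 := by positivity
        linarith
      have h3 : A * (x : ℝ) ≤ A * B := mul_le_mul_of_nonneg_left hxB.le hA.le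
      have h4 : (qe U e m i₀ : ℝ) * (A * (D₀ : ℝ)) ≤
          (qe U e m i₀ : ℝ) * (e i₀ : ℝ) ^ (2 - ε) := by
        calc (qe U e m i₀ : ℝ) * (A * (D₀ : ℝ)) = A * ((qe U e m i₀ : ℝ) * (D₀ : ℝ)) := by ring
          _ = A * (x : ℝ) := by rw [h1]
          _ ≤ _ := h3.trans h2
      exact le_of_mul_le_mul_left h4 hQr
    have hdvd : e i₀ ∣ D₀ := by
      refine hAL (e i₀) (c * mm U m) D₀ hd1 hM1 hM2 hD ?_
      intro a₁ a₂ μ₁ μ₂ h1 h2 h3 h4 h5 h6
      obtain ⟨u, v, huv⟩ := hdec _ (hmem a₁ a₂ μ₁ μ₂ h1 h2 h3 h4 h5 h6)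
      refine ⟨u, v, ?_⟩
      exact Nat.eq_of_mul_eq_mul_left hQ' (h₀.symm.trans huv)
    rw [hqq, one_mul, h₀, mul_comm (e i₀)]
    exact mul_dvd_mul_left _ hdvd
  · -- the minimal degree is small
    have hsm : (e i₀ : ℝ) ≤ A + c + 2 := by
      rw [not_and_or, not_and_or] at hl
      rcases hl with hl | hl | hl
      · have h1 : e i₀ ≤ 1 := by omega
        have h2 : (e i₀ : ℝ) ≤ 1 := by exact_mod_cast h1
        linarith
      · have h1 : e i₀ ≤ c := by omega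
        have h2 : (e i₀ : ℝ) ≤ c := by exact_mod_cast h1
        linarith
      · rw [not_le] at hl
        have h1 : (e i₀ : ℝ) ^ (1 : ℝ) ≤ (e i₀ : ℝ) ^ (2 - ε) :=
          Real.rpow_le_rpow_of_exponent_le hd1' (by linarith)
        rw [Real.rpow_one] at h1
        linarith
    have hOK : TypeOK c (U.erase i₀) (Function.update e i₀ (e i₀)) (Function.update m i₀ 1) :=
      h.update hmin hd1 le_rfl (one_dvd _) (Or.inl rfl) hd1 (Nat.coprime_one_left _)
        (Nat.coprime_one_left _)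
    rw [Function.update_eq_self] at hOK
    have hqq' : qq (U.erase i₀) e (Function.update m i₀ 1) = qe U e m i₀ := by
      have h1 := qq_update (U := U) (e := e) (m := m) (i₀ := i₀) (e i₀) 1
      rwa [Function.update_eq_self, one_mul] at h1
    have h1 := ih _ _ _ hcard hOK B hB (fun i hi => ?_)
    · rw [hqq'] at h1
      refine h1.mono fun x hx => ?_
      rw [mem_sq] at hx ⊢
      rcases hx with hx | hx
      · exact Or.inl hx
      by_cases hxB : B ≤ x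
      · exact Or.inl hxB
      right
      rw [not_le] at hxB
      have h2 : 1 * x = 0 := by
        by_contra hne0
        have h3 := Nat.le_of_dvd (Nat.pos_of_ne_zero hne0) hx
        rw [one_mul] at h3
        have h4 : (qe U e m i₀ : ℝ) ≤ (x : ℝ) := by exact_mod_cast h3
        have h6 : (e i₀ : ℝ) ^ (2 - ε) ≤ (A + c + 2) ^ 2 := by
          calc (e i₀ : ℝ) ^ (2 - ε) ≤ (e i₀ : ℝ) ^ (2 : ℝ) :=
                Real.rpow_le_rpow_of_exponent_le hd1' (by linarith)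
            _ = (e i₀ : ℝ) ^ 2 := by norm_cast
            _ ≤ _ := pow_le_pow_left₀ hd0.le hsm 2
        have h7 : (A + c + 2) ^ 2 * B ≤ (qe U e m i₀ : ℝ) * (A + c + 2) ^ 2 := by
          calc (A + c + 2) ^ 2 * B
              ≤ (C' + A + (C' + 1) * (A + c + 2) ^ 2) * B := by
                refine mul_le_mul_of_nonneg_right ?_ hB
                have : (0 : ℝ) ≤ C' + A + C' * (A + c + 2) ^ 2 := by positivity
                linarith
            _ ≤ (qe U e m i₀ : ℝ) * (e i₀ : ℝ) ^ (2 - ε) := hmain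
            _ ≤ _ := mul_le_mul_of_nonneg_left h6 hQr.le
        have h8 : B ≤ (qe U e m i₀ : ℝ) := by
          have h9 : (0 : ℝ) < (A + c + 2) ^ 2 := by positivity
          refine le_of_mul_le_mul_right ?_ h9
          calc B * (A + c + 2) ^ 2 = (A + c + 2) ^ 2 * B := by ring
            _ ≤ _ := h7
        linarith
      rw [h2]
      exact dvd_zero _
    · rw [hqq']
      have hiU : i ∈ U := Finset.mem_of_mem_erase hi
      have h2 := hCB i hiU
      rw [hqq] at h2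
      push_cast at h2
      have hi1 : (1 : ℝ) ≤ (e i : ℝ) := by exact_mod_cast h.pos i
      have h3 : (e i : ℝ) ^ (1 - ε) ≤ (e i : ℝ) ^ (1 - 3 * ε / 4) :=
        Real.rpow_le_rpow_of_exponent_le hi1 (by linarith)
      have h4 : C' * (A + c + 2) * B ≤
          (A + c + 2) * ((qe U e m i₀ : ℝ) * (e i : ℝ) ^ (1 - 3 * ε / 4)) := by
        calc C' * (A + c + 2) * B ≤ (C' + A + (C' + 1) * (A + c + 2) ^ 2) * B := by
              refine mul_le_mul_of_nonneg_right ?_ hB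
              have h5 : (0 : ℝ) ≤ C' + A + (A + c + 2) ^ 2 := by positivity
              have h6 : C' * (A + c + 2) ≤ C' * (A + c + 2) ^ 2 :=
                mul_le_mul_of_nonneg_left (by nlinarith) hC'.le
              linarith
          _ ≤ _ := h2
          _ = (e i₀ : ℝ) * ((qe U e m i₀ : ℝ) * (e i : ℝ) ^ (1 - ε)) := by ring
          _ ≤ (A + c + 2) * ((qe U e m i₀ : ℝ) * (e i : ℝ) ^ (1 - 3 * ε / 4)) := by
              refine mul_le_mul hsm (mul_le_mul_of_nonneg_left h3 hQr.le) ?_ hE.le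
              exact mul_nonneg hQr.le (Real.rpow_nonneg (by linarith) _)
      refine le_of_mul_le_mul_left ?_ hE
      calc (A + c + 2) * (C' * B) = C' * (A + c + 2) * B := by ring
        _ ≤ _ := h4

/-- The induction. -/
theorem claim_all {n c : ℕ} (hc : 1 ≤ c) (r : ℕ) (hT : ∀ (r : ℕ) (d : Fin r → ℕ) (k : Fin r)
      (p a : ℕ), p.Prime → p ^ a ∣ d k → c * p ^ a ≤ d k →
        HasSpecial n r d (p ^ a / Nat.gcd (p ^ a) c))
    (hAL : ∀ ε : ℝ, 0 < ε → ε < 1 → AL c (r + 1) ε) (j : ℕ) :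
    ∀ ε : ℝ, 0 < ε → ε < 1 →
    ∃ C : ℝ, 0 < C ∧ ∀ (U : Finset (Fin r)) (e m : Fin r → ℕ), U.card = j →
      TypeOK c U e m → ∀ B : ℝ, 0 ≤ B →
      (∀ i ∈ U, C * B ≤ qq U e m * (e i : ℝ) ^ (1 - ε)) →
        HasSp n r e (sq 1 (qq U e m) B) := by
  induction j with
  | zero =>
    intro ε _ _
    exact ⟨1, one_pos, fun U e m hU h B _ _ => claim_zero hT (Finset.card_eq_zero.1 hU) h B⟩
  | succ j ih =>
    intro ε hε hε1
    exact claim_step hc hε hε1 r (hAL ε hε hε1) (ih (3 * ε / 4) (by linarith) (by linarith))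

end Pool.Agent.SmallDeg
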