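import Pool.Agent.SmallDeg.ProdGeom

/-!
The product of the large degrees: the second induction.
-/

set_option autoImplicit false

namespace Pool.Agent.SmallDeg

open MvPolynomial Pool.Agent.CurveDeg

/-- The numbers `m` with the entries at the equations of `U` replaced by `1`. -/
def mo {r : ℕ} (U : Finset (Fin r)) (m : Fin r → ℕ) : Fin r → ℕ := fun i => if i ∈ U then 1 else m i

lemma qq_mo_update {r : ℕ} {U V : Finset (Fin r)} {e m : Fin r → ℕ} {i₀ : Fin r} (hU : i₀ ∈ U)
    (hV : i₀ ∉ V) (x μ : ℕ) :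
    qq V (Function.update e i₀ x) (mo (U.erase i₀) (Function.update m i₀ μ)) =
      μ * qq V e (mo U m) := by
  classical
  rw [qq, qq, ← Finset.mul_prod_erase _ _ (Finset.mem_univ i₀), if_neg hV,
    ← Finset.mul_prod_erase (Finset.univ : Finset (Fin r)) _ (Finset.mem_univ i₀), if_neg hV]
  have h1 : mo (U.erase i₀) (Function.update m i₀ μ) i₀ = μ := by
    rw [mo, if_neg (Finset.notMem_erase i₀ U), Function.update_self]
  have h2 : mo U m i₀ = 1 := by rw [mo, if_pos hU]
  rw [h1, h2, one_mul]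
  congr 1
  refine Finset.prod_congr rfl fun i hi => ?_
  have h := Finset.ne_of_mem_erase hi
  rw [Function.update_of_ne h]
  by_cases hiV : i ∈ V
  · rw [if_pos hiV, if_pos hiV]
  · rw [if_neg hiV, if_neg hiV, mo, mo]
    by_cases hiU : i ∈ U
    · rw [if_pos hiU, if_pos (Finset.mem_erase.2 ⟨h, hiU⟩)]
    · rw [if_neg hiU, if_neg (fun h' => hiU (Finset.mem_of_mem_erase h')), Function.update_of_ne h]

/-- The second induction. -/
theorem claim_upper {n c : ℕ} (hc : 1 ≤ c) (r : ℕ) (hT : ∀ (r : ℕ) (d : Fin r → ℕ) (k : Fin r)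
      (p a : ℕ), p.Prime → p ^ a ∣ d k → c * p ^ a ≤ d k →
        HasSpecial n r d (p ^ a / Nat.gcd (p ^ a) c))
    (hALL : ∀ ε : ℝ, 0 < ε → ε < 1 → AL c (r + 1) ε) (j : ℕ) :
    ∀ ε : ℝ, 0 < ε → ε < 1 →
    ∃ C : ℝ, 0 < C ∧ ∀ (U V : Finset (Fin r)) (e m : Fin r → ℕ), V ⊆ U → (U \ V).card = j →
      TypeOK c U e m → (∀ i ∈ V, ∀ k ∈ U, k ∉ V → e k ≤ e i) → ∀ B : ℝ, 0 ≤ B →
      (∀ i ∈ V, C * B ≤ qq U e m * (e i : ℝ) ^ (1 - ε)) →
        HasSp n r e (sq 1 (qq V e (mo U m)) B) := by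
  classical
  induction j with
  | zero =>
    intro ε hε hε1
    have hall : ∀ j : ℕ, ∃ C : ℝ, 0 < C ∧ ∀ (U : Finset (Fin r)) (e m : Fin r → ℕ), U.card = j →
        TypeOK c U e m → ∀ B : ℝ, 0 ≤ B →
        (∀ i ∈ U, C * B ≤ qq U e m * (e i : ℝ) ^ (1 - ε)) →
          HasSp n r e (sq 1 (qq U e m) B) := fun j => claim_all hc r hT hALL j ε hε hε1
    choose C hC h using hall
    refine ⟨∑ j ∈ Finset.range (r + 1), C j, Finset.sum_pos (fun j _ => hC j) ⟨0, by simp⟩,
      fun U V e m hVU hcard hOK _ B hB hCB => ?_⟩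
    have hUV : U = V := by
      refine Finset.Subset.antisymm ?_ hVU
      exact Finset.sdiff_eq_empty_iff_subset.1 (Finset.card_eq_zero.1 hcard)
    subst hUV
    have hcard' : U.card ∈ Finset.range (r + 1) := by
      rw [Finset.mem_range]
      have := Finset.card_le_univ U
      rw [Fintype.card_fin] at this
      omega
    have hCle : C U.card ≤ ∑ j ∈ Finset.range (r + 1), C j :=
      Finset.single_le_sum (f := C) (fun j _ => (hC j).le) hcard'
    have hqq : qq U e (mo U m) = qq U e m := by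
      refine Finset.prod_congr rfl fun i _ => ?_
      by_cases hi : i ∈ U
      · rw [if_pos hi, if_pos hi]
      · rw [if_neg hi, if_neg hi, mo, if_neg hi]
    rw [hqq]
    exact h U.card U e m rfl hOK B hB fun i hi =>
      (mul_le_mul_of_nonneg_right hCle hB).trans (hCB i hi)
  | succ j ih =>
    intro ε hε hε1
    obtain ⟨C', hC', ih⟩ := ih (3 * ε / 4) (by linarith) (by linarith)
    obtain ⟨A, hA, hAL⟩ := hALL ε hε hε1
    have hcr : (1 : ℝ) ≤ (c : ℝ) := by exact_mod_cast hc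
    have hE : (0 : ℝ) < A + c + 2 := by positivity
    have hE1 : (1 : ℝ) ≤ A + c + 2 := by linarith
    refine ⟨C' * (A + c + 2), by positivity, fun U V e m hVU hU h hup B hB hCB => ?_⟩
    have hne : (U \ V).Nonempty := by rw [← Finset.card_pos]; omega
    obtain ⟨i₀, hi₀UV, hmin'⟩ := Finset.exists_min_image (U \ V) e hne
    have hi₀ : i₀ ∈ U := (Finset.mem_sdiff.1 hi₀UV).1
    have hi₀V : i₀ ∉ V := (Finset.mem_sdiff.1 hi₀UV).2
    have hmin : ∀ i ∈ U, e i₀ ≤ e i := by
      intro i hi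
      by_cases hiV : i ∈ V
      · exact hup i hiV i₀ hi₀ hi₀V
      · exact hmin' i (Finset.mem_sdiff.2 ⟨hi, hiV⟩)
    have hVU' : V ⊆ U.erase i₀ := fun i hi =>
      Finset.mem_erase.2 ⟨fun h' => hi₀V (h' ▸ hi), hVU hi⟩
    have hcard : (U.erase i₀ \ V).card = j := by
      have h1 : U.erase i₀ \ V = (U \ V).erase i₀ := by
        ext i
        simp only [Finset.mem_sdiff, Finset.mem_erase]
        tauto
      rw [h1, Finset.card_erase_of_mem hi₀UV]
      omega
    have hQ' : 0 < qe U e m i₀ := h.qe_pos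
    have hqq := qq_mem (e := e) (m := m) hi₀
    have hd1 : 1 ≤ e i₀ := h.pos i₀
    have hd1' : (1 : ℝ) ≤ (e i₀ : ℝ) := by exact_mod_cast hd1
    have hd0 : (0 : ℝ) < (e i₀ : ℝ) := by linarith
    have hQr : (0 : ℝ) < (qe U e m i₀ : ℝ) := by exact_mod_cast hQ'
    have hmain : ∀ i ∈ V, C' * (A + c + 2) * B ≤
        (qe U e m i₀ : ℝ) * ((e i₀ : ℝ) * (e i : ℝ) ^ (1 - ε)) := by
      intro i hi
      have h1 := hCB i hi
      rw [hqq] at h1
      push_cast at h1
      calc _ ≤ _ := h1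
        _ = _ := by ring
    by_cases hl : 2 ≤ e i₀ ∧ c ≤ e i₀ ∧ A ≤ (e i₀ : ℝ) ^ (2 - ε)
    · -- the minimal degree is large
      have hM1 : 1 ≤ c * mm U m := Nat.mul_pos hc h.mm_pos
      have hM2 : c * mm U m ≤ e i₀ ^ (r + 1) := by
        rw [pow_succ, mul_comm]
        exact Nat.mul_le_mul (h.mm_le hi₀) hl.2.1
      have hone : ∀ a μ : ℕ, c ≤ a → (e i₀ : ℝ) ^ (1 - ε / 4) ≤ μ → a * μ ≤ e i₀ →
          Nat.Coprime μ (c * mm U m) →
          HasSp n r (Function.update e i₀ (a * μ)) (sq 1 (qq V e (mo U m)) B) := by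
        intro a μ ha hμ hle hcop
        have hμ0 : (0 : ℝ) < (μ : ℝ) := lt_of_lt_of_le (Real.rpow_pos_of_pos hd0 _) hμ
        have hμ1 : 1 ≤ μ := by exact_mod_cast hμ0
        have ha1 : 1 ≤ a := hc.trans ha
        have hOK : TypeOK c (U.erase i₀) (Function.update e i₀ (a * μ))
            (Function.update m i₀ μ) :=
          h.update hmin (Nat.mul_pos ha1 hμ1) hμ1 (dvd_mul_left _ _)
            (Or.inr (Nat.mul_le_mul_right _ ha))
            ((Nat.le_mul_of_pos_left μ ha1).trans hle) (Nat.Coprime.coprime_mul_left_right hcop)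
            (Nat.Coprime.coprime_mul_right_right hcop)
        have h1 := ih _ V _ _ hVU' hcard hOK (fun i hi k hk hkV => ?_) B hB (fun i hi => ?_)
        · rw [qq_mo_update hi₀ hi₀V] at h1
          refine h1.mono fun x hx => ?_
          rw [mem_sq] at hx ⊢
          exact hx.imp id fun h' => (dvd_mul_left _ _).trans h'
        · have h2 : i ≠ i₀ := fun h' => hi₀V (h' ▸ hi)
          rw [Function.update_of_ne (Finset.ne_of_mem_erase hk), Function.update_of_ne h2]
          exact hup i hi k (Finset.mem_of_mem_erase hk) hkV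
        · have hne' : i ≠ i₀ := fun h' => hi₀V (h' ▸ hi)
          rw [qq_update, Function.update_of_ne hne']
          have h2 : (e i₀ : ℝ) ≤ (e i : ℝ) := by exact_mod_cast hmin i (hVU hi)
          have hi0 : (0 : ℝ) < (e i : ℝ) := lt_of_lt_of_le hd0 h2
          have h3 : (e i₀ : ℝ) ^ (ε / 4) ≤ (e i : ℝ) ^ (ε / 4) :=
            Real.rpow_le_rpow hd0.le h2 (by linarith)
          have h4 : (e i₀ : ℝ) = (e i₀ : ℝ) ^ (1 - ε / 4) * (e i₀ : ℝ) ^ (ε / 4) := by
            rw [← Real.rpow_add hd0]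
            conv_lhs => rw [← Real.rpow_one (e i₀ : ℝ)]
            congr 1
            ring
          have h4' : (e i : ℝ) ^ (1 - 3 * ε / 4) = (e i : ℝ) ^ (ε / 4) * (e i : ℝ) ^ (1 - ε) := by
            rw [← Real.rpow_add hi0]
            congr 1
            ring
          have h5 : (e i₀ : ℝ) * (e i : ℝ) ^ (1 - ε) ≤ (μ : ℝ) * (e i : ℝ) ^ (1 - 3 * ε / 4) := by
            rw [h4', ← mul_assoc]
            refine mul_le_mul_of_nonneg_right ?_ (Real.rpow_nonneg hi0.le _)
            calc (e i₀ : ℝ) = (e i₀ : ℝ) ^ (1 - ε / 4) * (e i₀ : ℝ) ^ (ε / 4) := h4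
              _ ≤ (μ : ℝ) * (e i : ℝ) ^ (ε / 4) :=
                mul_le_mul hμ h3 (Real.rpow_nonneg hd0.le _) hμ0.le
          push_cast
          calc C' * B ≤ C' * (A + c + 2) * B := by
                refine mul_le_mul_of_nonneg_right ?_ hB
                exact le_mul_of_one_le_right hC'.le hE1
            _ ≤ (qe U e m i₀ : ℝ) * ((e i₀ : ℝ) * (e i : ℝ) ^ (1 - ε)) := hmain i hi
            _ ≤ (qe U e m i₀ : ℝ) * ((μ : ℝ) * (e i : ℝ) ^ (1 - 3 * ε / 4)) :=
                mul_le_mul_of_nonneg_left h5 hQr.le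
            _ = _ := by ring
      obtain ⟨a₁, a₂, μ₁, μ₂, h1, h2, h3, h4, h5, h6⟩ : ∃ a₁ a₂ μ₁ μ₂ : ℕ, c ≤ a₁ ∧ c ≤ a₂ ∧
          (e i₀ : ℝ) ^ (1 - ε / 4) ≤ μ₁ ∧ (e i₀ : ℝ) ^ (1 - ε / 4) ≤ μ₂ ∧
          a₁ * μ₁ + a₂ * μ₂ = e i₀ ∧ Nat.Coprime (μ₁ * μ₂) (c * mm U m) := by
        by_contra hcon
        push Not at hcon
        have h1 : e i₀ ∣ 1 := hAL (e i₀) (c * mm U m) 1 hd1 hM1 hM2
          (by rw [Nat.cast_one, mul_one]; exact hl.2.2)
          fun a₁ a₂ μ₁ μ₂ h1 h2 h3 h4 h5 h6 =>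
            absurd h6 (hcon a₁ a₂ μ₁ μ₂ h1 h2 h3 h4 h5)
        have h2 := Nat.le_of_dvd one_pos h1
        omega
      have hfin := HasSp.sup (k := i₀) (d := e) (d₁ := Function.update e i₀ (a₁ * μ₁))
        (d₂ := Function.update e i₀ (a₂ * μ₂)) (by
          rw [Function.update_self, Function.update_self]; exact h5)
        (fun i hi => Function.update_of_ne hi _ _) (fun i hi => Function.update_of_ne hi _ _)
        (hone _ _ h1 h3 (by omega) (Nat.Coprime.coprime_mul_right h6))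
        (hone _ _ h2 h4 (by omega) (Nat.Coprime.coprime_mul_left h6))
      rwa [sup_idem] at hfin
    · -- the minimal degree is small
      have hsm : (e i₀ : ℝ) ≤ A + c + 2 := by
        rw [not_and_or, not_and_or] at hl
        rcases hl with hl | hl | hl
        · have h1 : e i₀ ≤ 1 := by omega
          have h2 : (e i₀ : ℝ) ≤ 1 := by exact_mod_cast h1
          linarith
        · have h1 : e i₀ ≤ c := by omega
          have h2 : (e i₀ : ℝ) ≤ c := by exact_mod_cast h1
          linarith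
        · rw [not_le] at hl
          have h1 : (e i₀ : ℝ) ^ (1 : ℝ) ≤ (e i₀ : ℝ) ^ (2 - ε) :=
            Real.rpow_le_rpow_of_exponent_le hd1' (by linarith)
          rw [Real.rpow_one] at h1
          linarith
      have hOK : TypeOK c (U.erase i₀) (Function.update e i₀ (e i₀)) (Function.update m i₀ 1) :=
        h.update hmin hd1 le_rfl (one_dvd _) (Or.inl rfl) hd1 (Nat.coprime_one_left _)
          (Nat.coprime_one_left _)
      have hup' : ∀ i ∈ V, ∀ k ∈ U.erase i₀, k ∉ V →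
          Function.update e i₀ (e i₀) k ≤ Function.update e i₀ (e i₀) i := by
        intro i hi k hk hkV
        rw [Function.update_eq_self]
        exact hup i hi k (Finset.mem_of_mem_erase hk) hkV
      have h1 := ih _ V _ _ hVU' hcard hOK hup' B hB (fun i hi => ?_)
      · rw [qq_mo_update hi₀ hi₀V, one_mul, Function.update_eq_self] at h1
        exact h1
      · rw [qq_update, one_mul, Function.update_eq_self]
        have hi1 : (1 : ℝ) ≤ (e i : ℝ) := by exact_mod_cast h.pos i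
        have h3 : (e i : ℝ) ^ (1 - ε) ≤ (e i : ℝ) ^ (1 - 3 * ε / 4) :=
          Real.rpow_le_rpow_of_exponent_le hi1 (by linarith)
        refine le_of_mul_le_mul_left ?_ hE
        calc (A + c + 2) * (C' * B) = C' * (A + c + 2) * B := by ring
          _ ≤ (qe U e m i₀ : ℝ) * ((e i₀ : ℝ) * (e i : ℝ) ^ (1 - ε)) := hmain i hi
          _ = (e i₀ : ℝ) * ((qe U e m i₀ : ℝ) * (e i : ℝ) ^ (1 - ε)) := by ring
          _ ≤ (A + c + 2) * ((qe U e m i₀ : ℝ) * (e i : ℝ) ^ (1 - 3 * ε / 4)) := by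
              refine mul_le_mul hsm (mul_le_mul_of_nonneg_left h3 hQr.le) ?_ hE.le
              exact mul_nonneg hQr.le (Real.rpow_nonneg (by linarith) _)

end Pool.Agent.SmallDeg
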