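import Pool.Agent.SmallDeg.Ops
import Pool.Agent.DensDeg.TMain

/-!
The semigroup conditions.
-/

set_option autoImplicit false

namespace Pool.Agent.SmallDeg

open MvPolynomial Pool.Agent.CurveDeg

/-- The numbers `e` with `m ∣ c e`. -/
def mult (c m : ℕ) : AddSubmonoid ℕ where
  carrier := {e | m ∣ c * e}
  zero_mem' := by simp
  add_mem' := by
    intro a b ha hb
    rw [Set.mem_setOf_eq, mul_add]
    exact dvd_add ha hb

lemma mem_mult {c m e : ℕ} : e ∈ mult c m ↔ m ∣ c * e := Iff.rfl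

/-- The numbers `e` with `c e` in the semigroup generated by `m₁` and `m₂`. -/
def semi (c m₁ m₂ : ℕ) : AddSubmonoid ℕ where
  carrier := {e | ∃ x y : ℕ, c * e = x * m₁ + y * m₂}
  zero_mem' := ⟨0, 0, by simp⟩
  add_mem' := by
    rintro a b ⟨x, y, h⟩ ⟨x', y', h'⟩
    exact ⟨x + x', y + y', by rw [mul_add, h, h']; ring⟩

lemma mem_semi {c m₁ m₂ e : ℕ} : e ∈ semi c m₁ m₂ ↔ ∃ x y : ℕ, c * e = x * m₁ + y * m₂ := Iff.rfl

lemma HasSp.mono {n r : ℕ} {d : Fin r → ℕ} {S S' : AddSubmonoid ℕ} (h : HasSp n r d S)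
    (hle : S ≤ S') : HasSp n r d S' := by
  obtain ⟨K₀, i1, i2, i3, g, hg, hS⟩ := h
  exact ⟨K₀, i1, i2, i3, g, hg, fun κ _ _ _ _ P hP hPp hgP e he =>
    hle (hS κ P hP hPp hgP e he)⟩

lemma hasSp_of_hasSpecial {n r : ℕ} {d : Fin r → ℕ} {c m M : ℕ} (h : HasSpecial n r d M)
    (hm : m ∣ c * M) : HasSp n r d (mult c m) := by
  obtain ⟨K₀, i1, i2, i3, g, hg, hS⟩ := h
  refine ⟨K₀, i1, i2, i3, g, hg, fun κ _ _ _ _ P hP hPp hgP e he => ?_⟩
  have h1 : (M : ℤ) ∣ (e : ℤ) := hS κ P hP hPp hgP e he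
  have h2 : M ∣ e := by exact_mod_cast h1
  exact hm.trans (mul_dvd_mul_left c h2)

lemma hasSp_one (n r : ℕ) (d : Fin r → ℕ) (c : ℕ) : HasSp n r d (mult c 1) :=
  hasSp_of_hasSpecial (Pool.Agent.DensDeg.hasSpecial_one n r d) (one_dvd _)

/-- Composite moduli. -/
theorem hasSp_mult {n c : ℕ} (hT : ∀ (r : ℕ) (d : Fin r → ℕ) (k : Fin r)
      (p a : ℕ), p.Prime → p ^ a ∣ d k → c * p ^ a ≤ d k →
        HasSpecial n r d (p ^ a / Nat.gcd (p ^ a) c)) {r : ℕ} (d : Fin r → ℕ) (k : Fin r)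
    {m : ℕ} (hm : 0 < m) (hdvd : m ∣ d k) (hle : c * m ≤ d k) : HasSp n r d (mult c m) := by
  classical
  have h1 : ∀ s : Finset ℕ, s ⊆ m.primeFactors →
      HasSp n r d (mult c (∏ p ∈ s, p ^ m.factorization p)) := by
    intro s
    induction s using Finset.induction_on with
    | empty => intro _; rw [Finset.prod_empty]; exact hasSp_one n r d c
    | insert p s hp ih =>
      intro hs
      have hpm : p ∈ m.primeFactors := hs (Finset.mem_insert_self p s)
      have hs' : s ⊆ m.primeFactors := (Finset.subset_insert p s).trans hs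
      have hpp := Nat.prime_of_mem_primeFactors hpm
      have hq : p ^ m.factorization p ∣ m := Nat.ordProj_dvd m p
      have h2 := hT r d k p (m.factorization p) hpp (hq.trans hdvd)
        (le_trans (Nat.mul_le_mul_left c (Nat.le_of_dvd hm hq)) hle)
      have h3 : HasSp n r d (mult c (p ^ m.factorization p)) := by
        refine hasSp_of_hasSpecial h2 ?_
        calc p ^ m.factorization p = Nat.gcd (p ^ m.factorization p) c *
              (p ^ m.factorization p / Nat.gcd (p ^ m.factorization p) c) :=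
            (Nat.mul_div_cancel' (Nat.gcd_dvd_left _ _)).symm
          _ ∣ _ := mul_dvd_mul_right (Nat.gcd_dvd_right _ _) _
      refine (h3.inter (ih hs')).mono ?_
      intro e he
      rw [AddSubmonoid.mem_inf, mem_mult, mem_mult] at he
      rw [mem_mult, Finset.prod_insert hp]
      refine Nat.Coprime.mul_dvd_of_dvd_of_dvd ?_ he.1 he.2
      refine Nat.Coprime.prod_right fun q hq => ?_
      have hqp := Nat.prime_of_mem_primeFactors (hs' hq)
      refine Nat.Coprime.pow _ _ ((Nat.coprime_primes hpp hqp).2 ?_)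
      rintro rfl
      exact hp hq
  have h2 := h1 m.primeFactors (Finset.Subset.refl _)
  have h3 : ∏ p ∈ m.primeFactors, p ^ m.factorization p = m :=
    Nat.prod_factorization_pow_eq_self hm.ne'
  rwa [h3] at h2

/-- **The semigroup condition.** -/
theorem hasSp_semi {n c : ℕ} (hT : ∀ (r : ℕ) (d : Fin r → ℕ) (k : Fin r)
      (p a : ℕ), p.Prime → p ^ a ∣ d k → c * p ^ a ≤ d k →
        HasSpecial n r d (p ^ a / Nat.gcd (p ^ a) c)) {r : ℕ} (d : Fin r → ℕ) (k : Fin r)
    {a₁ a₂ m₁ m₂ : ℕ} (ha₁ : c ≤ a₁) (ha₂ : c ≤ a₂) (hm₁ : 0 < m₁) (hm₂ : 0 < m₂)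
    (hd : a₁ * m₁ + a₂ * m₂ = d k) : HasSp n r d (semi c m₁ m₂) := by
  classical
  have h1 : HasSp n r (Function.update d k (a₁ * m₁)) (mult c m₁) := by
    refine hasSp_mult hT _ k hm₁ ?_ ?_
    · rw [Function.update_self]; exact dvd_mul_left _ _
    · rw [Function.update_self]; exact Nat.mul_le_mul_right _ ha₁
  have h2 : HasSp n r (Function.update d k (a₂ * m₂)) (mult c m₂) := by
    refine hasSp_mult hT _ k hm₂ ?_ ?_
    · rw [Function.update_self]; exact dvd_mul_left _ _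
    · rw [Function.update_self]; exact Nat.mul_le_mul_right _ ha₂
  refine (HasSp.sup (k := k) (d := d) (by rw [Function.update_self, Function.update_self]; exact hd)
    (fun i hi => Function.update_of_ne hi _ _) (fun i hi => Function.update_of_ne hi _ _)
    h1 h2).mono ?_
  intro e he
  obtain ⟨e₁, he₁, e₂, he₂, rfl⟩ := AddSubmonoid.mem_sup.1 he
  obtain ⟨x, hx⟩ := mem_mult.1 he₁
  obtain ⟨y, hy⟩ := mem_mult.1 he₂
  exact mem_semi.2 ⟨x, y, by rw [mul_add, hx, hy]; ring⟩

end Pool.Agent.SmallDeg
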