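import Pool.Agent.CurveDeg.Multi.Reduction

/-!
Slopes of Hilbert functions and submonoids of `ℕ`.
-/

set_option autoImplicit false

namespace Pool.Agent.SmallDeg

open MvPolynomial Pool.Agent.CurveDeg

variable {σ : Type*} {κ : Type*} [Field κ]

/-- Membership of the slope in a submonoid of `ℕ` passes from primes to all homogeneous ideals
containing a given ideal of linear growth. -/
theorem slope_mem_of_primes [Finite σ] (S : AddSubmonoid ℕ) (I₀ : Ideal (MvPolynomial σ κ))
    (hI₀ : Homog I₀) (hg : ∃ C : ℕ, ∀ k, hilb I₀ k ≤ C * (k + 1))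
    (hP : ∀ P : Ideal (MvPolynomial σ κ), Homog P → P.IsPrime → I₀ ≤ P →
      ∀ e : ℕ, EvAffine (hilb P) e → e ∈ S) :
    ∀ e : ℕ, EvAffine (hilb I₀) e → e ∈ S := by
  have key : ∀ J : Ideal (MvPolynomial σ κ), Homog J → (I₀ ≤ J → ∀ e : ℕ, EvAffine (hilb J) e →
      e ∈ S) := by
    refine noeth_induction _ ?_ ?_ ?_
    · intro J hJ hp _ hle e he
      exact hP J hJ hp hle e he
    · intro _ e he
      have h0 : EvAffine (hilb (⊤ : Ideal (MvPolynomial σ κ))) 0 :=
        ⟨0, 0, fun k _ => by rw [hilb_top]; simp⟩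
      have h1 : (e : ℤ) = 0 := he.slope_unique h0
      have h2 : e = 0 := by exact_mod_cast h1
      rw [h2]
      exact S.zero_mem
    · intro J a d hJ ha ha0 h1 h2 hle e he
      obtain ⟨C, hC⟩ := hg
      have hle1 : I₀ ≤ colon J a := hle.trans (le_colon J a)
      have hle2 : I₀ ≤ J ⊔ Ideal.span {a} := hle.trans le_sup_left
      obtain ⟨e1, he1⟩ := evAffine_of_growth (colon J a) (hJ.colon ha)
        ⟨C, fun k => (hilb_anti hle1 k).trans (hC k)⟩
      obtain ⟨e2, he2⟩ := evAffine_of_growth (J ⊔ Ideal.span {a}) (hJ.sup_span ha)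
        ⟨C, fun k => (hilb_anti hle2 k).trans (hC k)⟩
      have p1 := he1.slope_nonneg
      have p2 := he2.slope_nonneg
      obtain ⟨m1, rfl⟩ := Int.eq_ofNat_of_zero_le p1
      obtain ⟨m2, rfl⟩ := Int.eq_ofNat_of_zero_le p2
      have d1 := h1 hle1 m1 he1
      have d2 := h2 hle2 m2 he2
      have hsum : EvAffine (hilb J) ((m1 : ℤ) + (m2 : ℤ)) := by
        obtain ⟨c1, K1, hK1⟩ := he1
        obtain ⟨c2, K2, hK2⟩ := he2
        refine ⟨c1 - m1 * d + c2, K1 + K2 + d, ?_⟩
        intro k hk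
        obtain ⟨m, rfl⟩ : ∃ m, k = m + d := ⟨k - d, by omega⟩
        rw [hilb_colon hJ ha ha0]
        push_cast
        rw [hK1 m (by omega), hK2 (m + d) (by omega)]
        push_cast
        ring
      have h3 : (e : ℤ) = (m1 : ℤ) + (m2 : ℤ) := he.slope_unique hsum
      have h4 : e = m1 + m2 := by exact_mod_cast h3
      rw [h4]
      exact S.add_mem d1 d2
  exact key I₀ hI₀ le_rfl

/-- An eventually affine Hilbert function has linear growth. -/
theorem growth_of_evAffine [Finite σ] (J : Ideal (MvPolynomial σ κ)) {e : ℤ}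
    (he : EvAffine (hilb J) e) : ∃ C : ℕ, ∀ k, hilb J k ≤ C * (k + 1) := by
  have he0 := he.slope_nonneg
  obtain ⟨c, K, hK⟩ := he
  obtain ⟨C₀, hC₀⟩ := hilb_le_of_small J K
  refine ⟨C₀ + e.toNat + c.natAbs, fun k => ?_⟩
  by_cases hk : k < K
  · have h1 := hC₀ k hk
    nlinarith [Nat.zero_le k, Nat.zero_le e.toNat, Nat.zero_le c.natAbs,
      Nat.zero_le (C₀ * k), Nat.zero_le (e.toNat * (k + 1)), Nat.zero_le (c.natAbs * (k + 1))]
  · have h1 := hK k (by omega)
    have h2 : c ≤ (c.natAbs : ℤ) := Int.le_natAbs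
    have h3 : ((e.toNat : ℕ) : ℤ) = e := Int.toNat_of_nonneg he0
    have h4 : ((hilb J k : ℕ) : ℤ) ≤ ((e.toNat * k + c.natAbs : ℕ) : ℤ) := by
      rw [h1, Nat.cast_add, Nat.cast_mul, h3]
      linarith
    have h5 : hilb J k ≤ e.toNat * k + c.natAbs := by exact_mod_cast h4
    nlinarith [Nat.zero_le (C₀ * (k + 1)), Nat.zero_le (c.natAbs * k), Nat.zero_le e.toNat]

end Pool.Agent.SmallDeg
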